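import Pool.Agent.H94.GP.All

/-!
# The tube statement for a concentration which is a power of the number of tubes
-/

set_option autoImplicit false

namespace Pool.GP

open Finset Real MeasureTheory Filter
open scoped RealInnerProductSpace ENNReal Topology
open Pool.STK (mlt)
open Pool.Agent.H53.Kak (E tube Fam)

variable {d k : ℕ}

section Num

variable {x σ ε ε₁ : ℝ}

lemma pw_mult (hx : x = 0 ∨ 1 ≤ x) (hε₁ : 0 < ε₁) (h : ε₁ ≤ ε) (hσ : 0 ≤ σ) :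
    x ^ ε₁ * max 1 (x ^ σ) ≤ x ^ (σ + ε) := by
  rcases hx with rfl | hx
  · rw [Real.zero_rpow hε₁.ne', zero_mul]
    exact Real.rpow_nonneg le_rfl _
  · have hx0 : 0 < x := by linarith
    rw [max_eq_right (Real.one_le_rpow hx hσ), ← Real.rpow_add hx0]
    exact Real.rpow_le_rpow_of_exponent_le hx (by linarith)

lemma pw_union (hx : x = 0 ∨ 1 ≤ x) (h : ε₁ ≤ ε) (hσ : 0 ≤ σ) (hε : ε < 1 - σ) :
    x ^ (1 - σ - ε) ≤ x ^ (1 - ε₁) / max 1 (x ^ σ) := by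
  rcases hx with rfl | hx
  · rw [Real.zero_rpow (by linarith), Real.zero_rpow (by linarith), zero_div]
  · have hx0 : 0 < x := by linarith
    rw [max_eq_right (Real.one_le_rpow hx hσ), ← Real.rpow_sub hx0]
    exact Real.rpow_le_rpow_of_exponent_le hx (by linarith)

lemma pw_lq (hx : x = 0 ∨ 1 ≤ x) {dd q q₀ : ℝ} (hdd : 0 < dd) (hε₁ : 0 < ε₁) (hσ : 0 ≤ σ)
    (hσ1 : σ < 1) (hq₀ : 1 < q₀) (hq : q₀ ≤ q)
    (hg : ε₁ ≤ (1 - σ) - (1 - σ + 1 / dd) / q₀) :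
    x ^ (1 / q + ε₁) * (max 1 (x ^ σ)) ^ (1 - 1 / q) ≤ x ^ (1 - 1 / (q * dd)) := by
  have hq0 : 0 < q := by linarith
  have hq1 : 1 / q ≤ 1 := by
    rw [div_le_one hq0]
    linarith
  rcases hx with rfl | hx
  · have h1 : 0 < 1 / q + ε₁ := by positivity
    rw [Real.zero_rpow h1.ne', zero_mul]
    exact Real.rpow_nonneg le_rfl _
  · have hx0 : 0 < x := by linarith
    rw [max_eq_right (Real.one_le_rpow hx hσ), ← Real.rpow_mul hx0.le, ← Real.rpow_add hx0]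
    refine Real.rpow_le_rpow_of_exponent_le hx ?_
    have h2 : (1 - σ + 1 / dd) / q ≤ (1 - σ + 1 / dd) / q₀ :=
      div_le_div_of_nonneg_left (by have : 0 < 1 / dd := by positivity
                                    linarith) (by linarith) hq
    have e1 : 1 / (q * dd) = (1 / dd) / q := by field_simp
    have e2 : (1 - σ + 1 / dd) / q = (1 - σ) * (1 / q) + (1 / dd) / q := by ring
    rw [e1]
    nlinarith [h2, hg, e2]

end Num

/-- The tube statement with the concentration `A N ^ σ`. -/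
theorem tubesS (hd : 1 ≤ d) (hk0 : 1 ≤ k) (hk : k ≤ d) (h : DensM d k) {ε σ q₀ : ℝ} (A : ℝ)
    (hε : 0 < ε) (hσ : 0 ≤ σ) (hσ1 : σ ≤ 1 - (k : ℝ) / d) (hε1 : ε < 1 - σ)
    (hq₀ : 1 + 1 / ((d : ℝ) * (1 - σ)) < q₀) :
    ∃ θ P C : ℝ, 0 < θ ∧ 0 ≤ P ∧ 0 < C ∧ ∀ δ : ℝ, 0 < δ → δ < 1 →
      ∀ (N : ℕ) (c e : Fin N → E d),
      (∀ i, ‖e i‖ = 1) → (∀ i j, i ≠ j → δ ≤ ‖e i - e j‖) →
      (σ = 1 - (k : ℝ) / d ∨ CncT k δ (A * (N : ℝ) ^ σ) e (univ : Finset (Fin N))) →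
      (∃ G : Set (E d), MeasurableSet G ∧
        ∑ i, volume (tube δ (c i) (e i) \ G) ≤
          ENNReal.ofReal ((N : ℝ) ^ (-θ)) * ∑ i, volume (tube δ (c i) (e i)) ∧
        (∀ x ∈ G, mlt δ c e x ≤ C * (N : ℝ) ^ (σ + ε)) ∧
        (∀ q : ℝ, q₀ ≤ q →
          eLpNorm (G.indicator (mlt δ c e)) (ENNReal.ofReal q) volume ≤
            ENNReal.ofReal (C * (δ ^ ((d : ℝ) / q) * (N : ℝ) ^ (1 - 1 / (q * d)))))) ∧
      ENNReal.ofReal (C⁻¹ * ((N : ℝ) ^ (1 - σ - ε) * δ ^ d)) ≤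
        volume (⋃ i, tube δ (c i) (e i)) ∧
      (∀ lam : ℝ, 0 < lam → lam ≤ 1 → ∀ X : Set (E d), MeasurableSet X →
        (∀ i, ENNReal.ofReal lam * volume (tube δ (c i) (e i)) ≤
          volume (X ∩ tube δ (c i) (e i))) →
        ENNReal.ofReal (C⁻¹ * lam ^ P * ((N : ℝ) ^ (1 - σ - ε) * δ ^ d)) ≤ volume X) := by
  have hd0 : (0 : ℝ) < d := by exact_mod_cast hd
  have hkR : (1 : ℝ) ≤ k := by exact_mod_cast hk0
  have hkd : 0 < (k : ℝ) / d := by positivity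
  have hσ2 : σ < 1 := by linarith [hσ1]
  have hσ3 : 0 < 1 - σ := by linarith
  have hdσ : 0 < (d : ℝ) * (1 - σ) := by positivity
  have hq₀1 : 1 < q₀ := by
    have : 0 < 1 / ((d : ℝ) * (1 - σ)) := by positivity
    linarith
  have hq₀0 : 0 < q₀ := by linarith
  have hgap : 0 < (1 - σ) - (1 - σ + 1 / d) / q₀ := by
    rw [sub_pos, div_lt_iff₀ hq₀0]
    have e1 : (1 - σ) * (1 + 1 / ((d : ℝ) * (1 - σ))) = 1 - σ + 1 / d := by
      field_simp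
    rw [← e1]
    exact mul_lt_mul_of_pos_left hq₀ hσ3
  obtain ⟨ε₁, hε₁⟩ : ∃ ε₁ : ℝ, ε₁ = min ε ((1 - σ) - (1 - σ + 1 / d) / q₀) := ⟨_, rfl⟩
  have h0 : 0 < ε₁ := by rw [hε₁]; exact lt_min hε hgap
  have h1 : ε₁ ≤ ε := by rw [hε₁]; exact min_le_left _ _
  have h2 : ε₁ ≤ (1 - σ) - (1 - σ + 1 / d) / q₀ := by rw [hε₁]; exact min_le_right _ _
  obtain ⟨θ, P, C, hθ, hP, hC, hT⟩ := tubesM_full (k := k) hd hk h h0 (by linarith) hσ2 hq₀
  obtain ⟨B, hB⟩ : ∃ B : ℝ, B = max 1 A := ⟨_, rfl⟩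
  have hB1 : 1 ≤ B := by rw [hB]; exact le_max_left _ _
  have hBA : A ≤ B := by rw [hB]; exact le_max_right _ _
  have hB0 : 0 < B := by linarith
  refine ⟨θ, P, C * B, hθ, hP, mul_pos hC hB0, ?_⟩
  intro δ hδ hδ1 N c e he hsep hM
  have hx : (N : ℝ) = 0 ∨ 1 ≤ (N : ℝ) := by
    rcases Nat.eq_zero_or_pos N with h | h
    · left; exact_mod_cast h
    · right; exact_mod_cast h
  have hx0 : 0 ≤ (N : ℝ) := Nat.cast_nonneg N
  obtain ⟨x, hxN⟩ : ∃ x : ℝ, x = (N : ℝ) := ⟨_, rfl⟩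
  rw [← hxN] at hx hx0 hM ⊢
  obtain ⟨m, hm⟩ : ∃ m : ℝ, m = max 1 (x ^ σ) := ⟨_, rfl⟩
  have hm1 : 1 ≤ m := by rw [hm]; exact le_max_left _ _
  have hm0 : 0 < m := by linarith
  have hxm : x ^ σ ≤ m := by rw [hm]; exact le_max_right _ _
  have hM1 : 1 ≤ B * m := one_le_mul_of_one_le_of_one_le hB1 hm1
  have hM0 : 0 < B * m := by linarith
  have hM' : (N : ℝ) ^ (1 - (k : ℝ) / d) ≤ B * m ∨
      CncT k δ (B * m) e (univ : Finset (Fin N)) := by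
    rcases hM with hM | hM
    · left
      rw [← hM, ← hxN]
      calc x ^ σ ≤ m := hxm
        _ = 1 * m := (one_mul m).symm
        _ ≤ B * m := mul_le_mul_of_nonneg_right hB1 hm0.le
    · right
      intro i hi r hr
      refine le_trans (hM i hi r hr) ?_
      have h3 : A * x ^ σ ≤ B * m := by
        calc A * x ^ σ ≤ B * x ^ σ := mul_le_mul_of_nonneg_right hBA (Real.rpow_nonneg hx0 _)
          _ ≤ B * m := mul_le_mul_of_nonneg_left hxm hB0.le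
      refine mul_le_mul_of_nonneg_right h3 ?_
      have : 0 ≤ r / δ := div_nonneg (by linarith) hδ.le
      positivity
  obtain ⟨⟨G, hG, g1, g2, g3, -⟩, g4, g5⟩ := hT δ hδ hδ1 N c e he hsep (B * m) hM1 hM'
  rw [← hxN] at g1 g2 g3 g4 g5
  have hU : (C * B)⁻¹ * x ^ (1 - σ - ε) ≤ C⁻¹ * (x ^ (1 - ε₁) / (B * m)) := by
    have h3 : x ^ (1 - σ - ε) ≤ x ^ (1 - ε₁) / m := by
      rw [hm]
      exact pw_union hx h1 hσ hε1
    calc (C * B)⁻¹ * x ^ (1 - σ - ε) ≤ (C * B)⁻¹ * (x ^ (1 - ε₁) / m) :=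
          mul_le_mul_of_nonneg_left h3 (by positivity)
      _ = C⁻¹ * (x ^ (1 - ε₁) / (B * m)) := by
          field_simp
  have hδd : 0 < δ ^ d := by positivity
  refine ⟨⟨G, hG, g1, ?_, ?_⟩, ?_, ?_⟩
  · intro y hy
    refine le_trans (g2 y hy) ?_
    have h3 : x ^ ε₁ * m ≤ x ^ (σ + ε) := by
      rw [hm]
      exact pw_mult hx h0 h1 hσ
    calc C * (x ^ ε₁ * (B * m)) = C * B * (x ^ ε₁ * m) := by ring
      _ ≤ C * B * x ^ (σ + ε) := mul_le_mul_of_nonneg_left h3 (by positivity)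
  · intro q hq
    have hq0 : 0 < q := by linarith
    have hq1 : 1 / q ≤ 1 := by
      rw [div_le_one hq0]
      linarith
    refine le_trans (g3 q (by linarith)) (ENNReal.ofReal_le_ofReal ?_)
    have h3 : x ^ (1 / q + ε₁) * m ^ (1 - 1 / q) ≤ x ^ (1 - 1 / (q * d)) := by
      rw [hm]
      exact pw_lq hx hd0 h0 hσ hσ2 hq₀1 hq h2
    have h4 : (B * m) ^ (1 - 1 / q) ≤ B * m ^ (1 - 1 / q) := by
      rw [Real.mul_rpow hB0.le hm0.le]
      refine mul_le_mul_of_nonneg_right ?_ (Real.rpow_nonneg hm0.le _)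
      calc B ^ (1 - 1 / q) ≤ B ^ (1 : ℝ) := by
            refine Real.rpow_le_rpow_of_exponent_le hB1 ?_
            have : 0 < 1 / q := by positivity
            linarith
        _ = B := Real.rpow_one B
    have hx1 : 0 ≤ x ^ (1 / q + ε₁) := Real.rpow_nonneg hx0 _
    calc C * (δ ^ ((d : ℝ) / q) * (x ^ (1 / q + ε₁) * (B * m) ^ (1 - 1 / q)))
        ≤ C * (δ ^ ((d : ℝ) / q) * (x ^ (1 / q + ε₁) * (B * m ^ (1 - 1 / q)))) := by gcongr
      _ = C * B * (δ ^ ((d : ℝ) / q) * (x ^ (1 / q + ε₁) * m ^ (1 - 1 / q))) := by ring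
      _ ≤ C * B * (δ ^ ((d : ℝ) / q) * x ^ (1 - 1 / (q * d))) := by gcongr
  · refine le_trans (ENNReal.ofReal_le_ofReal ?_) g4
    calc (C * B)⁻¹ * (x ^ (1 - σ - ε) * δ ^ d) = ((C * B)⁻¹ * x ^ (1 - σ - ε)) * δ ^ d := by ring
      _ ≤ (C⁻¹ * (x ^ (1 - ε₁) / (B * m))) * δ ^ d := mul_le_mul_of_nonneg_right hU hδd.le
      _ = C⁻¹ * (x ^ (1 - ε₁) * δ ^ d / (B * m)) := by ring
  · intro lam hl hl1 X hX hXT
    refine le_trans (ENNReal.ofReal_le_ofReal ?_) (g5 lam hl hl1 X hX hXT)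
    have hlP : 0 < lam ^ P := Real.rpow_pos_of_pos hl P
    calc (C * B)⁻¹ * lam ^ P * (x ^ (1 - σ - ε) * δ ^ d)
        = ((C * B)⁻¹ * x ^ (1 - σ - ε)) * (lam ^ P * δ ^ d) := by ring
      _ ≤ (C⁻¹ * (x ^ (1 - ε₁) / (B * m))) * (lam ^ P * δ ^ d) :=
          mul_le_mul_of_nonneg_right hU (by positivity)
      _ = C⁻¹ * lam ^ P * (x ^ (1 - ε₁) * δ ^ d / (B * m)) := by ring

end Pool.GP
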