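import Pool.Agent.H94.GP.QOne

/-!
# The inequality of Q1 for families with few directions in every ball, from the maximal entropy
inequality in a smaller dimension
-/

set_option autoImplicit false

open MeasureTheory ENNReal
open scoped RealInnerProductSpace

namespace Pool.GP

open Pool.Agent.H53.Kak Pool.Agent.H53.Dns

variable {d k : ℕ}

lemma loss_nonneg {q : ℝ} (h : ∃ C : ℝ, Loss k q 0 C) : ∃ C : ℝ, 0 ≤ C ∧ Loss k q 0 C := by
  obtain ⟨C, hC⟩ := h
  refine ⟨max C 0, le_max_right _ _, ?_⟩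
  intro δ hδ hδ1 ι S c e hF
  refine (hC δ hδ hδ1 ι S c e hF).trans (ENNReal.ofReal_le_ofReal ?_)
  have := le_max_left C 0
  gcongr

/-- The inequality of Q1 for families of tubes of `ℝ ^ (d + 1)`. -/
theorem q1_fin (hk : 0 < k) (hkd : k ≤ d)
    (hL : ∀ q₁ : ℝ, 1 + 1 / (k : ℝ) < q₁ → ∃ C : ℝ, 0 ≤ C ∧ Loss k q₁ 0 C)
    {σ A : ℝ} (hσ : 0 ≤ σ) (hσ1 : σ = 0 ∨ σ < 1 - (k : ℝ) / d) {q : ENNReal}
    (hq : ENNReal.ofReal (1 + 1 / ((d : ℝ) * (1 - σ))) < q) :
    ∃ C : ℝ, ∀ δ : ℝ, 0 < δ → δ < 1 →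
      ∀ (N : ℕ) (c e : Fin N → E d),
        (∀ i, ‖e i‖ = 1) → (∀ i j, i ≠ j → δ ≤ ‖e i - e j‖) →
        (d = k ∨ CncT k δ (A * (N : ℝ) ^ σ) e (Finset.univ : Finset (Fin N))) →
        eLpNorm (fun x => ∑ i, (tube δ (c i) (e i)).indicator (fun _ => (1 : ℝ)) x) q volume ≤
          ENNReal.ofReal (C * (δ ^ ((d : ℝ) / q.toReal) *
            (N : ℝ) ^ (1 - 1 / (q.toReal * d)))) := by
  have hk0 : (0 : ℝ) < k := by exact_mod_cast hk
  have hd : 0 < d := by omega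
  have hd0 : (0 : ℝ) < d := by exact_mod_cast hd
  by_cases htop : q = ⊤
  · obtain ⟨C, hC⟩ := Pool.KFIN.q1_top d
    refine ⟨C, ?_⟩
    intro δ hδ hδ1 N c e he1 he2 _
    rw [htop]
    exact hC δ hδ hδ1 N c e he1 he2
  have hkd' : 0 < (k : ℝ) / d := by positivity
  have hσ2 : 0 < 1 - σ := by
    rcases hσ1 with h | h
    · rw [h]; norm_num
    · linarith
  have hq' : 1 + 1 / ((d : ℝ) * (1 - σ)) < q.toReal := by
    have h1 := (ENNReal.toReal_lt_toReal ENNReal.ofReal_ne_top htop).mpr hq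
    rwa [ENNReal.toReal_ofReal (by positivity)] at h1
  have hmu : ∀ (N : ℕ) (c e : Fin N → E d) (δ : ℝ),
      (fun x => ∑ i, (tube δ (c i) (e i)).indicator (fun _ => (1 : ℝ)) x) =
        fun x => ((mu δ c e Finset.univ x : ℕ) : ℝ) := by
    intro N c e δ
    funext x
    rw [← sum_indicator_eq]
  rcases eq_or_lt_of_le hkd with hkd2 | hkd2
  · -- the same dimension
    have hσ0 : σ = 0 := by
      rcases hσ1 with h | h
      · exact h
      · exfalso
        rw [hkd2, div_self hd0.ne'] at h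
        linarith
    rw [hσ0, sub_zero, mul_one] at hq'
    obtain ⟨C, hC, hLoss⟩ := hL q.toReal (by rw [hkd2]; exact hq')
    refine ⟨C, ?_⟩
    intro δ hδ hδ1 N c e he1 he2 _
    rw [hkd2] at hLoss
    have h1 := hLoss δ hδ hδ1 (Fin N) Finset.univ c e
      ⟨fun i _ => he1 i, fun i _ j _ hij => he2 i j hij⟩
    rw [Finset.card_univ, Fintype.card_fin] at h1
    rw [neg_zero, Real.rpow_zero, mul_one, ENNReal.ofReal_toReal htop] at h1
    rw [hmu]
    exact h1
  · have hσ3 : σ < 1 - (k : ℝ) / d := by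
      rcases hσ1 with h | h
      · rw [h, sub_pos, div_lt_one hd0]
        exact_mod_cast hkd2
      · exact h
    obtain ⟨B, hB⟩ := q1M (σ := σ) (A := A) hk hkd hL hσ hσ3 hq'
    refine ⟨B, ?_⟩
    intro δ hδ hδ1 N c e he1 he2 hM
    have hM' : CncT k δ (A * (N : ℝ) ^ σ) e (Finset.univ : Finset (Fin N)) := by
      rcases hM with h | h
      · omega
      · exact h
    have h1 := hB δ hδ hδ1 (Fin N) Finset.univ c e
      ⟨fun i _ => he1 i, fun i _ j _ hij => he2 i j hij⟩ (by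
        rw [Finset.card_univ, Fintype.card_fin]
        exact hM')
    rw [Finset.card_univ, Fintype.card_fin, ENNReal.ofReal_toReal htop] at h1
    rw [hmu]
    exact h1

/-- The hypothesis of `q1_fin` from the maximal entropy inequality. -/
theorem loss_of_MB (hk : 1 ≤ k) (h : Pool.KFIN.MB k (1 + (k : ℝ))) (q₁ : ℝ)
    (hq₁ : 1 + 1 / (k : ℝ) < q₁) : ∃ C : ℝ, 0 ≤ C ∧ Loss k q₁ 0 C :=
  loss_nonneg (Pool.KFIN.lossless_of_MB hk h hq₁)

end Pool.GP
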