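import Pool.Agent.H53.Kak.WCells

/-!
# A discrete Frostman lemma
-/

set_option autoImplicit false

open MeasureTheory Set Metric

open scoped ENNReal NNReal

namespace Pool.GP

open Pool.Agent.H53.Kak

/-- The ancestor of a cell. -/
def anc {n : ℕ} (j : ℕ) (z : Fin n → ℤ) : Fin n → ℤ := fun i => z i / 2 ^ j

lemma anc_zero {n : ℕ} (z : Fin n → ℤ) : anc 0 z = z := by
  funext i
  simp [anc]

lemma anc_anc {n : ℕ} {a b : ℕ} (hab : a ≤ b) {z z' : Fin n → ℤ} (h : anc a z = anc a z') :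
    anc b z = anc b z' := by
  funext i
  have h1 : z i / 2 ^ a = z' i / 2 ^ a := congrFun h i
  have e : (2 : ℤ) ^ b = 2 ^ a * 2 ^ (b - a) := by rw [← pow_add, Nat.add_sub_cancel' hab]
  show z i / 2 ^ b = z' i / 2 ^ b
  rw [e, ← Int.ediv_ediv_of_nonneg (by positivity), ← Int.ediv_ediv_of_nonneg (by positivity),
    h1]

/-- **The discrete Frostman lemma.** -/
theorem frost {n : ℕ} (Z : Finset (Fin n → ℤ)) {t : ℝ} (ht : 0 < t) :
    ∃ (P : Finset (Fin n → ℤ)) (J : (Fin n → ℤ) → ℕ), P ⊆ Z ∧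
      (∀ (j : ℕ) (w : Fin n → ℤ), ((P.filter fun z => anc j z = w).card : ℝ) ≤
        ((2 : ℝ) ^ j) ^ t) ∧
      ∑ c ∈ Z.image (fun z => ((J z, anc (J z) z) : ℕ × (Fin n → ℤ))), ((2 : ℝ) ^ c.1) ^ t ≤
        2 * P.card := by
  classical
  obtain ⟨Good, hGood⟩ : ∃ Good : Finset (Fin n → ℤ) → Prop, ∀ P, Good P ↔
      ∀ (j : ℕ) (w : Fin n → ℤ), ((P.filter fun z => anc j z = w).card : ℝ) ≤
        ((2 : ℝ) ^ j) ^ t := ⟨_, fun _ => Iff.rfl⟩
  have hone : ∀ j : ℕ, (1 : ℝ) ≤ ((2 : ℝ) ^ j) ^ t := fun j =>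
    Real.one_le_rpow (one_le_pow₀ (by norm_num)) ht.le
  have hempty : Good ∅ := by
    rw [hGood]
    intro j w
    rw [Finset.filter_empty, Finset.card_empty, Nat.cast_zero]
    linarith [hone j]
  obtain ⟨P, hP, hmax⟩ := Finset.exists_max_image (Z.powerset.filter Good) Finset.card
    ⟨∅, Finset.mem_filter.mpr ⟨Finset.empty_mem_powerset _, hempty⟩⟩
  obtain ⟨hPZ, hPG⟩ := Finset.mem_filter.mp hP
  rw [Finset.mem_powerset] at hPZ
  have hPG' := (hGood P).mp hPG
  -- saturated cubes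
  obtain ⟨Sat, hSat⟩ : ∃ Sat : (Fin n → ℤ) → ℕ → Prop, ∀ z j, Sat z j ↔
      ((2 : ℝ) ^ j) ^ t ≤ 2 * ((P.filter fun y => anc j y = anc j z).card : ℝ) :=
    ⟨_, fun _ _ => Iff.rfl⟩
  have hex : ∀ z ∈ Z, ∃ j, Sat z j := by
    intro z hz
    by_cases hzP : z ∈ P
    · refine ⟨0, ?_⟩
      rw [hSat, pow_zero, Real.one_rpow]
      have h1 : 1 ≤ (P.filter fun y => anc 0 y = anc 0 z).card :=
        Finset.card_pos.mpr ⟨z, Finset.mem_filter.mpr ⟨hzP, rfl⟩⟩
      have h2 : (1 : ℝ) ≤ ((P.filter fun y => anc 0 y = anc 0 z).card : ℝ) := by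
        exact_mod_cast h1
      linarith
    · have h1 : ¬ Good (insert z P) := by
        intro hg
        have h2 := hmax (insert z P) (Finset.mem_filter.mpr
          ⟨Finset.mem_powerset.mpr (Finset.insert_subset hz hPZ), hg⟩)
        rw [Finset.card_insert_of_notMem hzP] at h2
        omega
      rw [hGood] at h1
      push Not at h1
      obtain ⟨j, w, hjw⟩ := h1
      refine ⟨j, ?_⟩
      rw [hSat]
      have h2 : anc j z = w := by
        by_contra hne
        rw [Finset.filter_insert, if_neg hne] at hjw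
        exact absurd (hPG' j w) (not_le.mpr hjw)
      rw [Finset.filter_insert, if_pos h2, Finset.card_insert_of_notMem
        (fun h => hzP (Finset.mem_filter.mp h).1)] at hjw
      rw [h2]
      push_cast at hjw
      have h3 := hone j
      have h4 : 0 < (P.filter fun y => anc j y = w).card := by
        by_contra h0
        have h5 : (P.filter fun y => anc j y = w).card = 0 := by omega
        rw [h5] at hjw
        push_cast at hjw
        linarith
      have h6 : (1 : ℝ) ≤ ((P.filter fun y => anc j y = w).card : ℝ) := by exact_mod_cast h4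
      linarith
  have hbd : ∃ B : ℕ, ∀ z j, Sat z j → j < B := by
    obtain ⟨r, hr⟩ : ∃ r : ℝ, r = (2 : ℝ) ^ t := ⟨_, rfl⟩
    have hr1 : 1 < r := by rw [hr]; exact Real.one_lt_rpow (by norm_num) ht
    obtain ⟨B, hB⟩ := pow_unbounded_of_one_lt (2 * (P.card : ℝ)) hr1
    refine ⟨B, fun z j hj => ?_⟩
    rw [hSat] at hj
    by_contra hle
    push Not at hle
    have h1 : ((2 : ℝ) ^ j) ^ t = r ^ j := by
      rw [hr, ← Real.rpow_natCast, ← Real.rpow_natCast, ← Real.rpow_mul (by norm_num),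
        ← Real.rpow_mul (by norm_num), mul_comm]
    have h2 : r ^ B ≤ r ^ j := pow_le_pow_right₀ hr1.le hle
    have h3 : ((P.filter fun y => anc j y = anc j z).card : ℝ) ≤ P.card := by
      exact_mod_cast Finset.card_le_card (Finset.filter_subset _ _)
    rw [h1] at hj
    linarith
  obtain ⟨B, hB⟩ := hbd
  have hJ : ∀ z ∈ Z, ∃ j, Sat z j ∧ ∀ i, Sat z i → i ≤ j := by
    intro z hz
    obtain ⟨j₀, hj₀⟩ := hex z hz
    obtain ⟨j, hj, hjmax⟩ := Finset.exists_max_image ((Finset.range B).filter fun j => Sat z j) id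
      ⟨j₀, Finset.mem_filter.mpr ⟨Finset.mem_range.mpr (hB z j₀ hj₀), hj₀⟩⟩
    exact ⟨j, (Finset.mem_filter.mp hj).2, fun i hi =>
      hjmax i (Finset.mem_filter.mpr ⟨Finset.mem_range.mpr (hB z i hi), hi⟩)⟩
  choose! J hJ1 hJ2 using hJ
  refine ⟨P, J, hPZ, hPG', ?_⟩
  obtain ⟨I, hI⟩ : ∃ I, I = Z.image (fun z => ((J z, anc (J z) z) : ℕ × (Fin n → ℤ))) :=
    ⟨_, rfl⟩
  rw [← hI]
  have h1 : ∀ c ∈ I, ((2 : ℝ) ^ c.1) ^ t ≤ 2 * ((P.filter fun y => anc c.1 y = c.2).card : ℝ) := by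
    intro c hc
    rw [hI] at hc
    obtain ⟨z, hz, rfl⟩ := Finset.mem_image.mp hc
    exact (hSat _ _).mp (hJ1 z hz)
  have hsame : ∀ z₁ ∈ Z, ∀ z₂ ∈ Z, ∀ y, anc (J z₁) y = anc (J z₁) z₁ →
      anc (J z₂) y = anc (J z₂) z₂ → J z₁ ≤ J z₂ → J z₁ = J z₂ := by
    intro z₁ hz₁ z₂ hz₂ y hy1 hy2 hle
    have h2 : anc (J z₂) y = anc (J z₂) z₁ := anc_anc hle hy1
    have h3 : Sat z₁ (J z₂) := by
      rw [hSat, ← h2, hy2]
      exact (hSat _ _).mp (hJ1 z₂ hz₂)
    exact le_antisymm hle (hJ2 z₁ hz₁ _ h3)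
  have hdisj : (I : Set (ℕ × (Fin n → ℤ))).PairwiseDisjoint
      fun c => P.filter fun y => anc c.1 y = c.2 := by
    intro c hc c' hc' hne
    rw [Function.onFun, Finset.disjoint_left]
    intro y hy hy'
    rw [hI] at hc hc'
    obtain ⟨z, hz, rfl⟩ := Finset.mem_image.mp (Finset.mem_coe.mp hc)
    obtain ⟨z', hz', rfl⟩ := Finset.mem_image.mp (Finset.mem_coe.mp hc')
    have k1 := (Finset.mem_filter.mp hy).2
    have k2 := (Finset.mem_filter.mp hy').2
    simp only at k1 k2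
    apply hne
    rcases le_total (J z) (J z') with hle | hle
    · have := hsame z hz z' hz' y k1 k2 hle
      rw [← this] at k2 ⊢
      rw [← k1, ← k2]
    · have := hsame z' hz' z hz y k2 k1 hle
      rw [← this] at k1 ⊢
      rw [← k1, ← k2]
  calc ∑ c ∈ I, ((2 : ℝ) ^ c.1) ^ t ≤
        ∑ c ∈ I, 2 * ((P.filter fun y => anc c.1 y = c.2).card : ℝ) := Finset.sum_le_sum h1
    _ = 2 * (((I.biUnion fun c => P.filter fun y => anc c.1 y = c.2).card : ℕ) : ℝ) := by
        rw [Finset.card_biUnion hdisj, ← Finset.mul_sum]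
        push_cast
        rfl
    _ ≤ 2 * P.card := by
        have : (I.biUnion fun c => P.filter fun y => anc c.1 y = c.2) ⊆ P := by
          intro y hy
          obtain ⟨c, -, hyc⟩ := Finset.mem_biUnion.mp hy
          exact (Finset.mem_filter.mp hyc).1
        have h2 : (((I.biUnion fun c => P.filter fun y => anc c.1 y = c.2).card : ℕ) : ℝ) ≤
          P.card := by exact_mod_cast Finset.card_le_card this
        linarith

/-! ### The Hausdorff content -/

/-- The Hausdorff content. -/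
noncomputable def cont (d : ℕ) (t : ℝ) : OuterMeasure (E d) :=
  OuterMeasure.boundedBy fun A => ediam A ^ t

lemma cont_le {d : ℕ} {t : ℝ} (A : Set (E d)) : cont d t A ≤ ediam A ^ t :=
  OuterMeasure.boundedBy_le A

/-- A set of positive Hausdorff measure has positive content. -/
lemma cont_pos {d : ℕ} {t : ℝ} (ht : 0 < t) (Ω : Set (E d)) (h : μH[t] Ω ≠ 0) :
    cont d t Ω ≠ 0 := by
  intro h0
  apply h
  rw [Measure.hausdorffMeasure_apply]
  refine le_antisymm ?_ zero_le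
  refine iSup₂_le fun r hr => ?_
  refine ENNReal.le_of_forall_pos_le_add ?_
  intro η hη' _
  have hη : (0 : ℝ≥0∞) < η := by exact_mod_cast hη'
  rw [zero_add]
  have hr' : 0 < r ^ t := ENNReal.rpow_pos_of_nonneg hr ht.le
  obtain ⟨m, hm⟩ : ∃ m : ℝ≥0∞, m = min (η : ℝ≥0∞) (r ^ t) := ⟨_, rfl⟩
  have hm0 : 0 < m := by rw [hm]; exact lt_min hη hr'
  have h1 : cont d t Ω < m := by rw [h0]; exact hm0
  rw [cont, OuterMeasure.boundedBy_apply, iInf_lt_iff] at h1
  obtain ⟨T, hT⟩ := h1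
  rw [iInf_lt_iff] at hT
  obtain ⟨hcov, hT⟩ := hT
  have hdiam : ∀ n, ediam (T n) ≤ r := by
    intro n
    rcases (T n).eq_empty_or_nonempty with h2 | h2
    · rw [h2, ediam_empty]
      exact zero_le
    · have h3 : ediam (T n) ^ t ≤ r ^ t := by
        have h4 : (⨆ _ : (T n).Nonempty, ediam (T n) ^ t) ≤ m := (ENNReal.le_tsum n).trans hT.le
        rw [iSup_pos h2] at h4
        refine h4.trans ?_
        rw [hm]
        exact min_le_right _ _
      exact (ENNReal.rpow_le_rpow_iff ht).mp h3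
  refine le_trans ?_ (hT.le.trans (by rw [hm]; exact min_le_left _ _))
  exact iInf_le_of_le T (iInf_le_of_le hcov (iInf_le _ hdiam))

/-! ### Separated points of a bounded set -/

/-- The cell of side `r` of a point. -/
noncomputable def cel {d : ℕ} (r : ℝ) (x : E d) : Fin (d + 1) → ℤ := fun i => ⌊x i / r⌋

lemma cel_near {d : ℕ} {r : ℝ} (hr : 0 < r) {j : ℕ} {x y : E d}
    (h : anc j (cel r x) = anc j (cel r y)) : ‖x - y‖ ≤ ((d : ℝ) + 1) * (2 ^ j * r) := by
  refine norm_le_of_coord (by positivity) fun i => ?_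
  have h1 : ⌊x i / r⌋ / 2 ^ j = ⌊y i / r⌋ / 2 ^ j := congrFun h i
  have hp : (0 : ℤ) < 2 ^ j := by positivity
  have h2 := Int.emod_add_mul_ediv ⌊x i / r⌋ (2 ^ j)
  have h3 := Int.emod_add_mul_ediv ⌊y i / r⌋ (2 ^ j)
  have h4 := Int.emod_nonneg ⌊x i / r⌋ hp.ne'
  have h5 := Int.emod_lt_of_pos ⌊x i / r⌋ hp
  have h6 := Int.emod_nonneg ⌊y i / r⌋ hp.ne'
  have h7 := Int.emod_lt_of_pos ⌊y i / r⌋ hp
  rw [h1] at h2
  have h8 : ⌊x i / r⌋ - ⌊y i / r⌋ + 1 ≤ 2 ^ j := by omega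
  have h9 : -(2 ^ j) + 1 ≤ ⌊x i / r⌋ - ⌊y i / r⌋ := by omega
  have h8' : (⌊x i / r⌋ : ℝ) - ⌊y i / r⌋ + 1 ≤ 2 ^ j := by exact_mod_cast h8
  have h9' : -(2 ^ j : ℝ) + 1 ≤ (⌊x i / r⌋ : ℝ) - ⌊y i / r⌋ := by exact_mod_cast h9
  have k1 := Int.floor_le (x i / r)
  have k2 := Int.lt_floor_add_one (x i / r)
  have k3 := Int.floor_le (y i / r)
  have k4 := Int.lt_floor_add_one (y i / r)
  have h10 : |x i / r - y i / r| ≤ 2 ^ j := by
    rw [abs_le]
    constructor <;> linarith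
  rw [← sub_div, abs_div, abs_of_pos hr, div_le_iff₀ hr] at h10
  rw [PiLp.sub_apply]
  exact h10

/-- The constant in the concentration bound. -/
noncomputable def Cf (d : ℕ) : ℝ := 3 ^ (d + 1)

/-- **Separated points which are not concentrated.** -/
theorem frost_set {d : ℕ} (Ω : Set (E d)) (hΩ : ∀ x ∈ Ω, ‖x‖ ≤ 1) {r t α : ℝ} (hr : 0 < r)
    (ht : 0 < t) (hα : ENNReal.ofReal α ≤ cont d t Ω) :
    ∃ (P : Finset (Fin (d + 1) → ℤ)) (x : (Fin (d + 1) → ℤ) → E d), (∀ z ∈ P, x z ∈ Ω) ∧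
      (∀ z ∈ P, ∀ z' ∈ P, z ≠ z' → r ≤ ‖x z - x z'‖) ∧
      (∀ z ∈ P, ∀ ρ : ℝ, r ≤ ρ → (({z' | z' ∈ P ∧ ‖x z' - x z‖ ≤ ρ} : Set _).ncard : ℝ) ≤
        Cf d * (4 * (ρ / r)) ^ t) ∧
      α ≤ 2 ^ (d + 2) * (((d : ℝ) + 1) * r) ^ t * P.card := by
  classical
  obtain ⟨Z, hZ⟩ : ∃ Z : Finset (Fin (d + 1) → ℤ), Z =
      (Fintype.piFinset fun _ => Finset.Icc ⌊-1 / r⌋ ⌊1 / r⌋).filter
        (fun z => ∃ x ∈ Ω, cel r x = z) := ⟨_, rfl⟩
  have hcelZ : ∀ x ∈ Ω, cel r x ∈ Z := by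
    intro x hx
    rw [hZ, Finset.mem_filter, Fintype.mem_piFinset]
    refine ⟨fun i => ?_, x, hx, rfl⟩
    have h1 : |x i| ≤ 1 := by
      have := PiLp.norm_apply_le x i
      rw [Real.norm_eq_abs] at this
      exact this.trans (hΩ x hx)
    rw [abs_le] at h1
    rw [Finset.mem_Icc]
    exact ⟨Int.floor_le_floor (div_le_div_of_nonneg_right h1.1 hr.le),
      Int.floor_le_floor (div_le_div_of_nonneg_right h1.2 hr.le)⟩
  obtain ⟨P₀, J, hPZ, hP1, hP2⟩ := frost Z ht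
  obtain ⟨I, hI⟩ : ∃ I, I = Z.image (fun z => ((J z, anc (J z) z) : ℕ × (Fin (d + 1) → ℤ))) :=
    ⟨_, rfl⟩
  rw [← hI] at hP2
  -- the cover
  have hcov : Ω ⊆ ⋃ c ∈ I, {x : E d | anc c.1 (cel r x) = c.2} := by
    intro x hx
    refine Set.mem_iUnion₂.mpr ⟨(J (cel r x), anc (J (cel r x)) (cel r x)), ?_, rfl⟩
    rw [hI]
    exact Finset.mem_image.mpr ⟨cel r x, hcelZ x hx, rfl⟩
  have hdiam : ∀ c : ℕ × (Fin (d + 1) → ℤ), cont d t {x : E d | anc c.1 (cel r x) = c.2} ≤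
      ENNReal.ofReal ((((d : ℝ) + 1) * r) ^ t * ((2 : ℝ) ^ c.1) ^ t) := by
    intro c
    refine (cont_le _).trans ?_
    rw [← Real.mul_rpow (by positivity) (by positivity),
      ← ENNReal.ofReal_rpow_of_nonneg (by positivity) ht.le]
    refine ENNReal.rpow_le_rpow ?_ ht.le
    refine ediam_le fun x hx y hy => ?_
    rw [edist_dist, dist_eq_norm]
    refine ENNReal.ofReal_le_ofReal ?_
    refine (cel_near hr (Eq.trans hx hy.symm)).trans (le_of_eq (by ring))
  have hα2 : α ≤ 2 * (((d : ℝ) + 1) * r) ^ t * P₀.card := by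
    have h1 : ENNReal.ofReal α ≤ ENNReal.ofReal ((((d : ℝ) + 1) * r) ^ t *
        ∑ c ∈ I, ((2 : ℝ) ^ c.1) ^ t) := by
      refine hα.trans ((measure_mono hcov).trans ((measure_biUnion_finset_le _ _).trans ?_))
      rw [Finset.mul_sum, ENNReal.ofReal_sum_of_nonneg (fun _ _ => by positivity)]
      exact Finset.sum_le_sum fun c _ => hdiam c
    have h2 : α ≤ (((d : ℝ) + 1) * r) ^ t * ∑ c ∈ I, ((2 : ℝ) ^ c.1) ^ t := by
      by_contra hcon
      push Not at hcon
      have h3 : 0 ≤ (((d : ℝ) + 1) * r) ^ t * ∑ c ∈ I, ((2 : ℝ) ^ c.1) ^ t := by positivity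
      have h4 := (ENNReal.ofReal_le_ofReal_iff h3).mp h1
      linarith
    calc α ≤ (((d : ℝ) + 1) * r) ^ t * ∑ c ∈ I, ((2 : ℝ) ^ c.1) ^ t := h2
      _ ≤ (((d : ℝ) + 1) * r) ^ t * (2 * P₀.card) := by gcongr
      _ = _ := by ring
  -- parity classes
  have hmaps : ∀ z ∈ P₀, (fun i => z i % 2) ∈ Fintype.piFinset (fun _ : Fin (d + 1) =>
      ({0, 1} : Finset ℤ)) := by
    intro z _
    rw [Fintype.mem_piFinset]
    intro i
    rw [Finset.mem_insert, Finset.mem_singleton]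
    omega
  have hcardT : (Fintype.piFinset (fun _ : Fin (d + 1) => ({0, 1} : Finset ℤ))).card =
      2 ^ (d + 1) := by
    rw [Fintype.card_piFinset]; simp
  obtain ⟨y, hy, hy2⟩ := Finset.exists_le_card_fiber_of_nsmul_le_card_of_maps_to
    (b := (P₀.card : ℝ) / 2 ^ (d + 1)) hmaps
    (Finset.card_pos.mp (by rw [hcardT]; positivity))
    (by rw [hcardT, nsmul_eq_mul]; push_cast; rw [mul_div_cancel₀ _ (by positivity)])
  obtain ⟨P, hP⟩ : ∃ P, P = P₀.filter (fun z => (fun i => z i % 2) = y) := ⟨_, rfl⟩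
  rw [← hP] at hy2
  have hPP₀ : P ⊆ P₀ := by rw [hP]; exact Finset.filter_subset _ _
  have hex : ∀ z ∈ P, ∃ x ∈ Ω, cel r x = z := by
    intro z hz
    have := hPZ (hPP₀ hz)
    rw [hZ] at this
    exact (Finset.mem_filter.mp this).2
  choose! x hx1 hx2 using hex
  refine ⟨P, x, hx1, ?_, ?_, ?_⟩
  · intro z hz z' hz' hne
    obtain ⟨i, hi⟩ := Function.ne_iff.mp hne
    have hp : z i % 2 = z' i % 2 := by
      rw [hP] at hz hz'
      have e1 := congrFun (Finset.mem_filter.mp hz).2 i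
      have e2 := congrFun (Finset.mem_filter.mp hz').2 i
      rw [e1, e2]
    have h2 : 2 ≤ |z i - z' i| := by
      rcases abs_cases (z i - z' i) with h | h <;> omega
    have h3 : ⌊x z i / r⌋ = z i := congrFun (hx2 z hz) i
    have h4 : ⌊x z' i / r⌋ = z' i := congrFun (hx2 z' hz') i
    rw [Int.floor_eq_iff] at h3 h4
    have h5 : (2 : ℝ) ≤ |(z i : ℝ) - z' i| := by exact_mod_cast h2
    have h6 : 1 ≤ |x z i / r - x z' i / r| := by
      rcases abs_cases ((z i : ℝ) - z' i) with h | h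
      · rw [h.1] at h5
        refine le_trans ?_ (le_abs_self _)
        linarith
      · rw [h.1] at h5
        refine le_trans ?_ (neg_le_abs _)
        linarith
    rw [← sub_div, abs_div, abs_of_pos hr, le_div_iff₀ hr, one_mul] at h6
    refine h6.trans ?_
    have := PiLp.norm_apply_le (x z - x z') i
    rwa [Real.norm_eq_abs, PiLp.sub_apply] at this
  · intro z hz ρ hρ
    have hρ0 : 0 < ρ := by linarith
    have hρr : 1 ≤ ρ / r := (one_le_div hr).mpr hρ
    obtain ⟨m, hm1, hm2⟩ := exists_nat_pow_near (x := 2 * (ρ / r)) (y := 2) (by linarith)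
      (by norm_num)
    obtain ⟨S, hS⟩ : ∃ S : Finset (Fin (d + 1) → ℤ), S = P.filter fun z' => ‖x z' - x z‖ ≤ ρ :=
      ⟨_, rfl⟩
    have hS' : ({z' | z' ∈ P ∧ ‖x z' - x z‖ ≤ ρ} : Set (Fin (d + 1) → ℤ)) = S := by
      ext z'
      rw [hS]
      simp
    rw [hS', Set.ncard_coe_finset]
    have hnear : ∀ z' ∈ S, ∀ i, |z' i - z i| ≤ 2 ^ (m + 1) := by
      intro z' hz' i
      rw [hS] at hz'
      obtain ⟨hz'P, hz'n⟩ := Finset.mem_filter.mp hz'
      have h3 : ⌊x z i / r⌋ = z i := congrFun (hx2 z hz) i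
      have h4 : ⌊x z' i / r⌋ = z' i := congrFun (hx2 z' hz'P) i
      rw [Int.floor_eq_iff] at h3 h4
      have h5 : |x z' i - x z i| ≤ ρ := by
        have := PiLp.norm_apply_le (x z' - x z) i
        rw [Real.norm_eq_abs, PiLp.sub_apply] at this
        exact this.trans hz'n
      have h6 : |x z' i / r - x z i / r| ≤ ρ / r := by
        rw [← sub_div, abs_div, abs_of_pos hr]
        exact div_le_div_of_nonneg_right h5 hr.le
      rw [abs_le] at h6
      have h7 : |((z' i - z i : ℤ) : ℝ)| ≤ ((2 ^ (m + 1) : ℤ) : ℝ) := by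
        push_cast
        rw [abs_le]
        constructor <;> linarith
      have h8 : ((|z' i - z i| : ℤ) : ℝ) ≤ ((2 ^ (m + 1) : ℤ) : ℝ) := by
        rw [Int.cast_abs]; exact h7
      exact Int.cast_le.mp h8
    obtain ⟨B, hB⟩ : ∃ B : Finset (Fin (d + 1) → ℤ), B = Fintype.piFinset fun i =>
      Finset.Icc (anc (m + 1) z i - 1) (anc (m + 1) z i + 1) := ⟨_, rfl⟩
    have hBcard : B.card = 3 ^ (d + 1) := by
      rw [hB, Fintype.card_piFinset]
      have h2 : ∀ i, (Finset.Icc (anc (m + 1) z i - 1) (anc (m + 1) z i + 1)).card = 3 := by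
        intro i
        rw [Int.card_Icc]
        omega
      simp only [h2, Finset.prod_const, Finset.card_univ, Fintype.card_fin]
    have hSB : S ⊆ B.biUnion fun w => P₀.filter fun z' => anc (m + 1) z' = w := by
      intro z' hz'
      rw [Finset.mem_biUnion]
      refine ⟨anc (m + 1) z', ?_, ?_⟩
      · rw [hB, Fintype.mem_piFinset]
        intro i
        have h1 := hnear z' hz' i
        have hp : (0 : ℤ) < 2 ^ (m + 1) := by positivity
        have h2 := Int.emod_add_mul_ediv (z' i) (2 ^ (m + 1))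
        have h3 := Int.emod_add_mul_ediv (z i) (2 ^ (m + 1))
        have h4 := Int.emod_nonneg (z' i) hp.ne'
        have h5 := Int.emod_lt_of_pos (z' i) hp
        have h6 := Int.emod_nonneg (z i) hp.ne'
        have h7 := Int.emod_lt_of_pos (z i) hp
        rw [abs_le] at h1
        have h8 : 2 ^ (m + 1) * (z' i / 2 ^ (m + 1) - z i / 2 ^ (m + 1)) <
            2 ^ (m + 1) * 2 := by nlinarith
        have h9 : 2 ^ (m + 1) * (-2) < 2 ^ (m + 1) * (z' i / 2 ^ (m + 1) - z i / 2 ^ (m + 1)) := by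
          nlinarith
        have h10 := lt_of_mul_lt_mul_left h8 hp.le
        have h11 := lt_of_mul_lt_mul_left h9 hp.le
        rw [Finset.mem_Icc]
        unfold anc
        omega
      · rw [Finset.mem_filter]
        refine ⟨hPP₀ ?_, rfl⟩
        rw [hS] at hz'
        exact (Finset.mem_filter.mp hz').1
    have h1 : (S.card : ℝ) ≤ 3 ^ (d + 1) * ((2 : ℝ) ^ (m + 1)) ^ t := by
      calc (S.card : ℝ) ≤ ((B.biUnion fun w => P₀.filter fun z' => anc (m + 1) z' = w).card : ℝ) := by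
            exact_mod_cast Finset.card_le_card hSB
        _ ≤ ((∑ w ∈ B, (P₀.filter fun z' => anc (m + 1) z' = w).card : ℕ) : ℝ) := by
            exact_mod_cast Finset.card_biUnion_le
        _ = ∑ w ∈ B, ((P₀.filter fun z' => anc (m + 1) z' = w).card : ℝ) := by push_cast; rfl
        _ ≤ ∑ _w ∈ B, ((2 : ℝ) ^ (m + 1)) ^ t := Finset.sum_le_sum fun w _ => hP1 _ w
        _ = _ := by
            rw [Finset.sum_const, hBcard, nsmul_eq_mul]
            push_cast
            ring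
    refine h1.trans ?_
    unfold Cf
    have h2 : (2 : ℝ) ^ (m + 1) ≤ 4 * (ρ / r) := by
      rw [pow_succ]
      linarith
    gcongr
  · rw [div_le_iff₀ (by positivity)] at hy2
    calc α ≤ 2 * (((d : ℝ) + 1) * r) ^ t * P₀.card := hα2
      _ ≤ 2 * (((d : ℝ) + 1) * r) ^ t * (P.card * 2 ^ (d + 1)) := by gcongr
      _ = _ := by ring

end Pool.GP
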