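import Pool.Agent.H94.GP.Dns
import Pool.Agent.H94.GP.Frost
import Pool.Agent.H55.Dense.HDim

/-!
# Hausdorff dimension of sets with unit segments in a given set of directions

The proof of the main theorem follows `Pool.Agent.H55.Dense.HDim`.
-/

set_option autoImplicit false

open MeasureTheory Set Metric

open scoped RealInnerProductSpace ENNReal NNReal

namespace Pool.GP

open Pool.Agent.H53.Kak
open Pool.Agent.H55.HDim (wt wt_pos tsum_wt_le eventually_small exists_scale om om_pos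
  volume_closedBall_eq tube_mass cover_of_zero)

/-- Pigeonhole for countable covers, for outer measures. -/
lemma exists_scaleO {X : Type*} (μ : OuterMeasure X) (Q : ℕ → Set X) (c : ℝ)
    (hc : 0 ≤ c) (S : Set X) (hS : S ⊆ ⋃ k, Q k) (hμ : ENNReal.ofReal (c / 4) < μ S) :
    ∃ k, ENNReal.ofReal (c * wt k) ≤ μ (Q k) := by
  by_contra hcon
  push Not at hcon
  have h1 : μ S ≤ ENNReal.ofReal (c / 4) :=
    (measure_mono hS).trans ((measure_iUnion_le _).trans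
      ((ENNReal.tsum_le_tsum fun k => (hcon k).le).trans (tsum_wt_le c hc)))
  exact absurd h1 (not_le.mpr hμ)

/-- A set which contains a segment has dimension at least one. -/
lemma one_le_dimH {d : ℕ} {K : Set (E d)} {x e : E d} (he : ‖e‖ = 1)
    (h : ∀ t : ℝ, 0 ≤ t → t ≤ 1 → x + t • e ∈ K) : 1 ≤ dimH K := by
  have hiso : Isometry fun t : ℝ => x + t • e := by
    refine Isometry.of_dist_eq fun a b => ?_
    rw [dist_eq_norm, add_sub_add_left_eq_sub, ← sub_smul, norm_smul, he, mul_one]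
    rfl
  have h1 : dimH ((fun t : ℝ => x + t • e) '' Set.Icc (0 : ℝ) 1) = 1 := by
    rw [hiso.dimH_image]
    rw [Real.dimH_of_nonempty_interior (s := Set.Icc (0 : ℝ) 1)]
    · simp
    · rw [interior_Icc]
      exact ⟨1 / 2, by norm_num, by norm_num⟩
  rw [← h1]
  refine dimH_mono ?_
  rintro y ⟨t, ht, rfl⟩
  exact h t ht.1 ht.2

/-- **Hausdorff dimension.** -/
theorem le_dimH_of_densM {d m : ℕ} (h : DensM d m) (Ω : Set (E d)) (hΩ : ∀ e ∈ Ω, ‖e‖ = 1)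
    (hne : Ω.Nonempty) (K : Set (E d))
    (hK : ∀ e ∈ Ω, ∃ x : E d, ∀ t : ℝ, 0 ≤ t → t ≤ 1 → x + t • e ∈ K) :
    min (dimH Ω) (m : ℝ≥0∞) + 1 ≤ dimH K := by
  classical
  have hone : 1 ≤ dimH K := by
    obtain ⟨e, he⟩ := hne
    obtain ⟨x, hx⟩ := hK e he
    exact one_le_dimH (hΩ e he) hx
  by_contra hcon
  push Not at hcon
  obtain ⟨s, hs1, hs2⟩ := ENNReal.lt_iff_exists_nnreal_btwn.mp hcon
  have hs1' : (1 : ℝ) < s := by
    have : (1 : ℝ≥0∞) < s := lt_of_le_of_lt hone hs1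
    exact_mod_cast this
  have hs0 : 0 < (s : ℝ) := by linarith
  have hs3 : (s : ℝ≥0∞) - 1 < min (dimH Ω) (m : ℝ≥0∞) := by
    refine ENNReal.sub_lt_of_lt_add ?_ hs2
    exact_mod_cast hs1'.le
  obtain ⟨t, ht1, ht2⟩ := ENNReal.lt_iff_exists_nnreal_btwn.mp hs3
  have ht3 : (s : ℝ) - 1 < t := by
    have h1 : (s : ℝ≥0∞) < t + 1 := by
      rcases le_or_gt (1 : ℝ≥0∞) s with h2 | h2
      · exact (ENNReal.sub_lt_iff_lt_right ENNReal.one_ne_top h2).mp ht1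
      · exfalso
        have : (s : ℝ≥0) < 1 := by exact_mod_cast h2
        have : (s : ℝ) < 1 := by exact_mod_cast this
        linarith
    have h3 : (s : ℝ) < t + 1 := by exact_mod_cast h1
    linarith
  have ht0 : 0 < (t : ℝ) := by linarith
  have htm : (t : ℝ) < m := by
    have : (t : ℝ≥0∞) < m := lt_of_lt_of_le ht2 (min_le_right _ _)
    exact_mod_cast this
  have htΩ : (t : ℝ≥0∞) < dimH Ω := lt_of_lt_of_le ht2 (min_le_left _ _)
  have hcont : cont d t Ω ≠ 0 := by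
    refine cont_pos ht0 Ω ?_
    have := hausdorffMeasure_of_lt_dimH htΩ
    rw [this]
    exact ENNReal.top_ne_zero
  obtain ⟨a, ha0, ha1⟩ : ∃ a : ℝ, 0 < a ∧ ENNReal.ofReal (a / 4) < cont d t Ω := by
    obtain ⟨r, hr1, hr2⟩ := ENNReal.lt_iff_exists_nnreal_btwn.mp (pos_iff_ne_zero.mpr hcont)
    refine ⟨4 * r, ?_, ?_⟩
    · have : (0 : ℝ≥0∞) < r := hr1
      have : (0 : ℝ) < r := by exact_mod_cast this
      linarith
    · rw [mul_div_cancel_left₀ _ (by norm_num), ENNReal.ofReal_coe_nnreal]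
      exact hr2
  have hzero : μH[(s : ℝ)] K = 0 := hausdorffMeasure_of_dimH_lt hs1
  obtain ⟨γ, hγ⟩ : ∃ γ : ℝ, γ = ((t : ℝ) - (s - 1)) / 2 := ⟨_, rfl⟩
  have hγ0 : 0 < γ := by rw [hγ]; linarith
  obtain ⟨ε, hε⟩ : ∃ ε : ℝ, ε = γ / t := ⟨_, rfl⟩
  have hε0 : 0 < ε := by rw [hε]; positivity
  have hε1 : ε < 1 := by
    rw [hε, div_lt_one ht0, hγ]
    linarith
  have htε : (t : ℝ) * ε = γ := by rw [hε]; field_simp
  obtain ⟨c, P, hc0, hP0, hdens⟩ := h ε hε0 hε1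
  have hom := om_pos d
  obtain ⟨κ, hκ⟩ : ∃ κ : ℝ, κ = min 1 (om d / 2 ^ (d + 2)) := ⟨_, rfl⟩
  have hκ0 : 0 < κ := by rw [hκ]; positivity
  have hκ1 : κ ≤ 1 := by rw [hκ]; exact min_le_left _ _
  have hκ2 : κ ≤ om d / 2 ^ (d + 2) := by rw [hκ]; exact min_le_right _ _
  obtain ⟨M, hM⟩ : ∃ M : ℝ, M = Cf d * 4 ^ m := ⟨_, rfl⟩
  have hM0 : 0 < M := by rw [hM]; unfold Cf; positivity
  obtain ⟨c1, hc1⟩ : ∃ c1 : ℝ, c1 = a / (2 ^ (d + 2) * ((d : ℝ) + 1) ^ (t : ℝ)) := ⟨_, rfl⟩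
  have hc1pos : 0 < c1 := by rw [hc1]; positivity
  obtain ⟨C2, hC2⟩ : ∃ C2 : ℝ, C2 = 2 ^ (d + 1) * om d / (c / M * κ ^ P * c1 ^ (1 - ε)) :=
    ⟨_, rfl⟩
  have hC2pos : 0 < C2 := by rw [hC2]; positivity
  obtain ⟨k₁, hk₁⟩ := eventually_small (C := C2) (Q := P + (1 - ε)) hγ0
  obtain ⟨k₀, hk₀⟩ : ∃ k₀ : ℕ, k₀ = max k₁ 1 := ⟨_, rfl⟩
  have hk₀1 : 1 ≤ k₀ := by rw [hk₀]; exact le_max_right _ _
  have hk₀k₁ : k₁ ≤ k₀ := by rw [hk₀]; exact le_max_left _ _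
  have hhalf : (0 : ℝ) < 2⁻¹ := by norm_num
  -- the cover
  obtain ⟨η, hη⟩ : ∃ η : ℝ, η = ((2 : ℝ)⁻¹ ^ k₀) ^ (s : ℝ) := ⟨_, rfl⟩
  have hη0 : 0 < η := by rw [hη]; positivity
  obtain ⟨x, ρ, hρ0, hcov, hsum⟩ := cover_of_zero K hs0 hzero hη0
  have hρη : ∀ n, ρ n ≤ (2 : ℝ)⁻¹ ^ k₀ := by
    intro n
    have h1 : ENNReal.ofReal (ρ n ^ (s : ℝ)) ≤ ENNReal.ofReal η :=
      (ENNReal.le_tsum n).trans hsum
    have h2 := (ENNReal.ofReal_le_ofReal_iff hη0.le).mp h1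
    rw [hη] at h2
    exact (Real.rpow_le_rpow_iff (hρ0 n).le (by positivity) hs0).mp h2
  have hρ1 : ∀ n, ρ n ≤ 1 := fun n =>
    (hρη n).trans (pow_le_one₀ (by norm_num) (by norm_num))
  have hk : ∀ n, ∃ k : ℕ, (2 : ℝ)⁻¹ ^ (k + 1) < ρ n ∧ ρ n ≤ (2 : ℝ)⁻¹ ^ k := fun n =>
    exists_nat_pow_near_of_lt_one (hρ0 n) (hρ1 n) (by norm_num) (by norm_num)
  choose kk hkk1 hkk2 using hk
  have hkk0 : ∀ n, k₀ ≤ kk n := by
    intro n
    by_contra hlt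
    push Not at hlt
    have h1 : (2 : ℝ)⁻¹ ^ k₀ ≤ (2 : ℝ)⁻¹ ^ (kk n + 1) :=
      pow_le_pow_of_le_one (by norm_num) (by norm_num) hlt
    linarith [hρη n, hkk1 n]
  -- segments
  choose! p hp using hK
  obtain ⟨Qs, hQs⟩ : ∃ Qs : E d → ℕ → Set ℝ, Qs = fun w k =>
      {t | (1 / 4 ≤ t ∧ t ≤ 3 / 4) ∧ ∃ n, kk n = k ∧
        dist (p w + t • w) (x n) ≤ (2 : ℝ)⁻¹ ^ k} := ⟨_, rfl⟩
  have hQmem : ∀ w k t, t ∈ Qs w k ↔ ((1 / 4 ≤ t ∧ t ≤ 3 / 4) ∧ ∃ n, kk n = k ∧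
        dist (p w + t • w) (x n) ≤ (2 : ℝ)⁻¹ ^ k) := fun w k t => by rw [hQs]; rfl
  have hscale1 : ∀ w ∈ Ω, ∃ k, ENNReal.ofReal (1 * wt k) ≤ volume (Qs w k) := by
    intro w hw
    refine exists_scale volume (Qs w) 1 zero_le_one (Set.Icc (1 / 4) (3 / 4)) ?_ ?_
    · intro t ht
      have h1 := hp w hw t (by linarith [ht.1]) (by linarith [ht.2])
      obtain ⟨n, hn⟩ := Set.mem_iUnion.mp (hcov h1)
      refine Set.mem_iUnion.mpr ⟨kk n, (hQmem _ _ _).mpr ⟨ht, n, rfl, ?_⟩⟩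
      exact (mem_closedBall.mp hn).trans (hkk2 n)
    · rw [Real.volume_Icc]
      exact (ENNReal.ofReal_lt_ofReal_iff (by norm_num)).mpr (by norm_num)
  obtain ⟨Om, hOm⟩ : ∃ Om : ℕ → Set (E d), Om = fun k =>
      {w | w ∈ Ω ∧ ENNReal.ofReal (1 * wt k) ≤ volume (Qs w k)} := ⟨_, rfl⟩
  have hOmmem : ∀ k w, w ∈ Om k ↔ (w ∈ Ω ∧
      ENNReal.ofReal (1 * wt k) ≤ volume (Qs w k)) := fun k w => by rw [hOm]; rfl
  obtain ⟨k, hkΩ⟩ : ∃ k, ENNReal.ofReal (a * wt k) ≤ cont d t (Om k) := by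
    refine exists_scaleO (cont d t) Om a ha0.le Ω ?_ ha1
    intro w hw
    obtain ⟨k, hk⟩ := hscale1 w hw
    exact Set.mem_iUnion.mpr ⟨k, (hOmmem _ _).mpr ⟨hw, hk⟩⟩
  have hwtk := wt_pos k
  obtain ⟨δ, hδ⟩ : ∃ δ : ℝ, δ = (2 : ℝ)⁻¹ ^ k := ⟨_, rfl⟩
  have hδ0 : 0 < δ := by rw [hδ]; positivity
  -- the separated directions
  obtain ⟨Z, w, hw1, hw2, hw4, hw3⟩ := frost_set (Om k)
    (fun w hw => (hΩ w ((hOmmem _ _).mp hw).1).le) (r := δ) hδ0 ht0 hkΩ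
  have hZpos : 0 < Z.card := by
    by_contra hcon2
    have h1 : Z.card = 0 := by omega
    rw [h1, Nat.cast_zero, mul_zero] at hw3
    have : 0 < a * wt k := by positivity
    linarith
  obtain ⟨z₀, hz₀⟩ := Finset.card_pos.mp hZpos
  have hk0k : k₀ ≤ k := by
    have h1 := ((hOmmem _ _).mp (hw1 z₀ hz₀)).2
    have h2 : 0 < volume (Qs (w z₀) k) :=
      lt_of_lt_of_le (ENNReal.ofReal_pos.mpr (by positivity)) h1
    obtain ⟨t, ht⟩ := nonempty_of_measure_ne_zero h2.ne'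
    obtain ⟨-, n, hn, -⟩ := (hQmem _ _ _).mp ht
    rw [← hn]; exact hkk0 n
  have hδ2 : δ ≤ 1 / 2 := by
    rw [hδ]
    calc (2 : ℝ)⁻¹ ^ k ≤ (2 : ℝ)⁻¹ ^ 1 :=
          pow_le_pow_of_le_one (by norm_num) (by norm_num) (hk₀1.trans hk0k)
      _ = 1 / 2 := by norm_num
  -- the balls of this scale
  have hfin := ENNReal.finset_card_const_le_le_of_tsum_le (a := fun n =>
    ENNReal.ofReal (ρ n ^ (s : ℝ))) ENNReal.ofReal_ne_top hsum
    (ε := ENNReal.ofReal (((2 : ℝ)⁻¹ ^ (k + 1)) ^ (s : ℝ)))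
    (ENNReal.ofReal_pos.mpr (by positivity)).ne'
  obtain ⟨hfin1, hfin2⟩ := hfin
  obtain ⟨F, hF⟩ : ∃ F, F = hfin1.toFinset := ⟨_, rfl⟩
  rw [← hF] at hfin2
  have hFmem : ∀ n, kk n = k → n ∈ F := by
    intro n hn
    rw [hF, Set.Finite.mem_toFinset]
    refine ENNReal.ofReal_le_ofReal (Real.rpow_le_rpow (by positivity) ?_ hs0.le)
    rw [← hn]; exact (hkk1 n).le
  have hFcard : (F.card : ℝ) ≤ δ ^ (-(s : ℝ)) := by
    have h1 : (F.card : ℝ≥0∞) ≤ ENNReal.ofReal (η / ((2 : ℝ)⁻¹ ^ (k + 1)) ^ (s : ℝ)) := by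
      rw [ENNReal.ofReal_div_of_pos (by positivity)]; exact hfin2
    have h2 : (F.card : ℝ) ≤ η / ((2 : ℝ)⁻¹ ^ (k + 1)) ^ (s : ℝ) := by
      rw [← ENNReal.ofReal_natCast] at h1
      exact (ENNReal.ofReal_le_ofReal_iff (by positivity)).mp h1
    refine h2.trans ?_
    rw [hη, ← Real.div_rpow (by positivity) (by positivity), hδ, Real.rpow_neg (by positivity),
      ← Real.inv_rpow (by positivity)]
    refine Real.rpow_le_rpow (by positivity) ?_ hs0.le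
    rw [div_le_iff₀ (by positivity)]
    have e1 : ((2 : ℝ)⁻¹ ^ k)⁻¹ * (2 : ℝ)⁻¹ ^ (k + 1) = 2⁻¹ ^ 1 := by
      rw [pow_succ]; field_simp
    rw [e1]
    exact pow_le_pow_of_le_one (by norm_num) (by norm_num) hk₀1
  -- apply the density bound
  obtain ⟨X, hX⟩ : ∃ X : Set (E d), X = ⋃ n ∈ F, closedBall (x n) (2 * δ) := ⟨_, rfl⟩
  have hXm : MeasurableSet X := by
    rw [hX]; exact Finset.measurableSet_biUnion _ fun _ _ => isClosed_closedBall.measurableSet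
  have hwu : ∀ z ∈ Z, ‖w z‖ = 1 := fun z hz => hΩ _ ((hOmmem _ _).mp (hw1 z hz)).1
  have hfam : Fam δ w Z := ⟨hwu, hw2⟩
  have hcnc : CncT m δ M w Z := by
    intro z hz r hr
    refine (hw4 z hz r hr).trans ?_
    have h1 : 1 ≤ r / δ := (one_le_div hδ0).mpr hr
    have h2 : (4 * (r / δ)) ^ (t : ℝ) ≤ (4 * (r / δ)) ^ m := by
      rw [← Real.rpow_natCast]
      exact Real.rpow_le_rpow_of_exponent_le (by linarith) htm.le
    rw [hM]
    calc Cf d * (4 * (r / δ)) ^ (t : ℝ) ≤ Cf d * (4 * (r / δ)) ^ m := by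
          refine mul_le_mul_of_nonneg_left h2 ?_
          unfold Cf; positivity
      _ = _ := by rw [mul_pow]; ring
  have hmass : ∀ z ∈ Z, ENNReal.ofReal (κ * wt k * δ ^ d) ≤
      volume (X ∩ tube δ (p (w z) + (1 / 2 : ℝ) • w z) (w z)) := by
    intro z hz
    have h1 := ((hOmmem _ _).mp (hw1 z hz)).2
    rw [one_mul] at h1
    have h2 := tube_mass (p := p (w z)) (hwu z hz) hδ0 hδ2 F x (Qs (w z) k)
      (by
        intro t ht
        obtain ⟨ht1, n, hn, ht2⟩ := (hQmem _ _ _).mp ht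
        exact ⟨ht1, n, hFmem n hn, hδ ▸ ht2⟩) h1
    rw [← hX] at h2
    refine le_trans (ENNReal.ofReal_le_ofReal ?_) h2
    have : κ * wt k ≤ wt k * (om d / 2 ^ (d + 2)) := by
      rw [mul_comm]; exact mul_le_mul_of_nonneg_left hκ2 hwtk.le
    exact mul_le_mul_of_nonneg_right this (by positivity)
  have hwt1 : wt k ≤ 1 := by
    unfold wt
    rw [div_le_one (by positivity)]
    nlinarith [Nat.cast_nonneg (α := ℝ) k]
  have hlam1 : κ * wt k ≤ 1 := mul_le_one₀ hκ1 hwtk.le hwt1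
  have hmain := hdens δ hδ0 (by linarith) (Fin (d + 1) → ℤ) Z
    (fun z => p (w z) + (1 / 2 : ℝ) • w z) w hfam M hcnc X hXm
    (κ * wt k) (by positivity) hlam1 hmass
  -- the upper bound
  have hupper : volume X ≤ ENNReal.ofReal (δ ^ (-(s : ℝ)) * ((2 * δ) ^ (d + 1) * om d)) := by
    rw [hX]
    refine (measure_biUnion_finset_le _ _).trans ?_
    have h1 : ∀ n ∈ F, volume (closedBall (x n) (2 * δ)) =
        ENNReal.ofReal ((2 * δ) ^ (d + 1) * om d) := fun n _ =>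
      volume_closedBall_eq _ (by positivity)
    rw [Finset.sum_congr rfl h1, Finset.sum_const, nsmul_eq_mul, ← ENNReal.ofReal_natCast,
      ← ENNReal.ofReal_mul (by positivity)]
    exact ENNReal.ofReal_le_ofReal (mul_le_mul_of_nonneg_right hFcard (by positivity))
  have hfinal := (ENNReal.ofReal_le_ofReal_iff (by positivity)).mp (hmain.trans hupper)
  -- the contradiction
  have hZcard : c1 * wt k * δ ^ (-(t : ℝ)) ≤ Z.card := by
    rw [Real.mul_rpow (by positivity) hδ0.le] at hw3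
    rw [Real.rpow_neg hδ0.le, ← div_eq_mul_inv, div_le_iff₀ (by positivity),
      hc1, div_mul_eq_mul_div, div_le_iff₀ (by positivity)]
    linarith
  have hlow : c * ((κ * wt k) ^ P * δ ^ d * ((c1 * wt k * δ ^ (-(t : ℝ))) ^ (1 - ε) / M)) ≤
      c * ((κ * wt k) ^ P * δ ^ d * ((Z.card : ℝ) ^ (1 - ε) / M)) := by
    have h2 : (c1 * wt k * δ ^ (-(t : ℝ))) ^ (1 - ε) ≤ (Z.card : ℝ) ^ (1 - ε) :=
      Real.rpow_le_rpow (by positivity) hZcard (by linarith)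
    gcongr
  have hcomb := hlow.trans hfinal
  have hkey := hk₁ k (hk₀k₁.trans hk0k)
  rw [← hδ] at hkey
  -- rewrite everything as powers
  have e1 : c * ((κ * wt k) ^ P * δ ^ d * ((c1 * wt k * δ ^ (-(t : ℝ))) ^ (1 - ε) / M)) =
      (c / M * κ ^ P * c1 ^ (1 - ε)) * (wt k ^ (P + (1 - ε))) *
        (δ ^ (d : ℝ) * δ ^ (-(t : ℝ) * (1 - ε))) := by
    rw [Real.mul_rpow hκ0.le hwtk.le, Real.mul_rpow (by positivity) (by positivity),
      Real.mul_rpow hc1pos.le hwtk.le, ← Real.rpow_mul hδ0.le, Real.rpow_add hwtk,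
      Real.rpow_natCast]
    ring
  have e2 : δ ^ (-(s : ℝ)) * ((2 * δ) ^ (d + 1) * om d) =
      (2 ^ (d + 1) * om d) * (δ ^ (-(s : ℝ)) * δ ^ ((d : ℝ) + 1)) := by
    rw [mul_pow]
    have : δ ^ ((d : ℝ) + 1) = δ ^ (d + 1) := by
      rw [← Real.rpow_natCast δ (d + 1)]; push_cast; rfl
    rw [this]; ring
  have e3 : δ ^ (-(s : ℝ)) * δ ^ ((d : ℝ) + 1) =
      (δ ^ (d : ℝ) * δ ^ (-(t : ℝ) * (1 - ε))) * δ ^ γ := by
    rw [← Real.rpow_add hδ0, ← Real.rpow_add hδ0, ← Real.rpow_add hδ0]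
    congr 1
    have e4 : -(t : ℝ) * (1 - ε) = -t + γ := by rw [← htε]; ring
    rw [e4, hγ]; ring
  rw [e1, e2, e3] at hcomb
  have hpos : 0 < δ ^ (d : ℝ) * δ ^ (-(t : ℝ) * (1 - ε)) := by positivity
  have h5 : (c / M * κ ^ P * c1 ^ (1 - ε)) * (wt k ^ (P + (1 - ε))) ≤
      (2 ^ (d + 1) * om d) * δ ^ γ := by
    have h6 : (c / M * κ ^ P * c1 ^ (1 - ε)) * (wt k ^ (P + (1 - ε))) *
        (δ ^ (d : ℝ) * δ ^ (-(t : ℝ) * (1 - ε))) ≤ (2 ^ (d + 1) * om d) * δ ^ γ *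
        (δ ^ (d : ℝ) * δ ^ (-(t : ℝ) * (1 - ε))) := by
      refine hcomb.trans (le_of_eq ?_)
      ring
    exact le_of_mul_le_mul_right h6 hpos
  have h7 : wt k ^ (P + (1 - ε)) ≤ C2 * δ ^ γ := by
    rw [hC2, div_mul_eq_mul_div, le_div_iff₀ (by positivity)]
    linarith
  exact absurd hkey (not_lt.mpr h7)

end Pool.GP
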