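import Pool.Agent.H94.GP.Typ
import Pool.Agent.H94.GP.HD

/-!
# The tube statement for a concentration `M`, with the inequality of Q1
-/

set_option autoImplicit false

namespace Pool.GP

open Finset Real MeasureTheory Filter
open scoped RealInnerProductSpace ENNReal Topology
open Pool.STK (mlt)
open Pool.Agent.H53.Kak (E tube Fam CG CG_pos one_le_CG card_near')

variable {d k : ℕ}

/-- The constant of the general bound for the concentration. -/
noncomputable def Ca (d : ℕ) : ℝ := CG d * 2 ^ d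

lemma one_le_Ca (d : ℕ) : 1 ≤ Ca d := by
  unfold Ca
  exact one_le_mul_of_one_le_of_one_le (one_le_CG d) (one_le_pow₀ (by norm_num))

/-- The concentration of an arbitrary family. -/
lemma cncT_all {ι : Type} (hd : 0 < d) (hk : k ≤ d) {δ : ℝ} (hδ : 0 < δ) {e : ι → E d}
    {S : Finset ι} (hF : Fam δ e S) :
    CncT k δ (Ca d * (S.card : ℝ) ^ (1 - (k : ℝ) / d)) e S := by
  classical
  intro i hi r hr
  have hd0 : (0 : ℝ) < d := by exact_mod_cast hd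
  have hCa := one_le_Ca d
  have hr0 : 0 < r := by linarith
  have hN : (0 : ℝ) < S.card := by exact_mod_cast Finset.card_pos.mpr ⟨i, hi⟩
  obtain ⟨ρ, hρ⟩ : ∃ ρ : ℝ, ρ = r / δ := ⟨_, rfl⟩
  have hρ1 : 1 ≤ ρ := by rw [hρ]; exact (one_le_div hδ).mpr hr
  have hρ0 : 0 < ρ := by linarith
  obtain ⟨T, hT⟩ : ∃ T : Finset ι, T = S.filter fun j => ‖e j - e i‖ ≤ r := ⟨_, rfl⟩
  have hT' : ({j | j ∈ S ∧ ‖e j - e i‖ ≤ r} : Set ι) = T := by
    ext j
    rw [hT]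
    simp
  rw [hT', Set.ncard_coe_finset, ← hρ]
  have h1 : (T.card : ℝ) ≤ S.card := by
    rw [hT]
    exact_mod_cast Finset.card_le_card (Finset.filter_subset _ _)
  have h2 : (T.card : ℝ) ≤ Ca d * ρ ^ d := by
    have h3 := card_near' hδ (hF.mono (S := S) (T := T)
      (by rw [hT]; exact Finset.filter_subset _ _)) (e i) hr0.le
      (fun j hj => by rw [hT] at hj; exact (Finset.mem_filter.mp hj).2)
    refine h3.trans ?_
    have h4 : (r + δ) / δ ≤ 2 * ρ := by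
      rw [hρ, div_le_iff₀ hδ]
      have : 2 * (r / δ) * δ = 2 * r := by field_simp
      rw [this]
      linarith
    have hG := CG_pos d
    calc CG d * ((r + δ) / δ) ^ d ≤ CG d * (2 * ρ) ^ d := by gcongr
      _ = _ := by rw [Ca, mul_pow]; ring
  have hkd : (k : ℝ) / d ≤ 1 := by
    rw [div_le_one hd0]
    exact_mod_cast hk
  rcases le_or_gt (ρ ^ d) (S.card : ℝ) with hcase | hcase
  · -- `ρ ^ d ≤ N`
    have h5 : ρ ^ (d - k) ≤ (S.card : ℝ) ^ (1 - (k : ℝ) / d) := by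
      have e1 : ρ ^ (d - k) = (ρ ^ d) ^ (1 - (k : ℝ) / d) := by
        rw [← Real.rpow_natCast ρ d, ← Real.rpow_mul hρ0.le, ← Real.rpow_natCast]
        congr 1
        rw [Nat.cast_sub hk]
        field_simp
      rw [e1]
      exact Real.rpow_le_rpow (by positivity) hcase (by linarith)
    calc (T.card : ℝ) ≤ Ca d * ρ ^ d := h2
      _ = Ca d * ρ ^ (d - k) * ρ ^ k := by
          rw [mul_assoc, ← pow_add, Nat.sub_add_cancel hk]
      _ ≤ _ := by gcongr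
  · -- `N < ρ ^ d`
    have h5 : (S.card : ℝ) ^ ((k : ℝ) / d) ≤ ρ ^ k := by
      have e1 : ρ ^ k = (ρ ^ d) ^ ((k : ℝ) / d) := by
        rw [← Real.rpow_natCast ρ d, ← Real.rpow_mul hρ0.le, ← Real.rpow_natCast]
        congr 1
        field_simp
      rw [e1]
      exact Real.rpow_le_rpow hN.le hcase.le (by positivity)
    calc (T.card : ℝ) ≤ S.card := h1
      _ = 1 * (S.card : ℝ) ^ (1 - (k : ℝ) / d) * (S.card : ℝ) ^ ((k : ℝ) / d) := by
          rw [one_mul, ← Real.rpow_add hN]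
          simp
      _ ≤ _ := by gcongr

/-- **Typical multiplicities, and the inequality of Q1.** The concentration `M` is arbitrary if
`N ^ (1 - k / d) ≤ M`. -/
theorem tubesM_full (hd : 1 ≤ d) (hk : k ≤ d) (h : DensM d k) {ε σ q₀ : ℝ} (hε : 0 < ε)
    (hε1 : ε < 1) (hσ : σ < 1) (hq₀ : 1 + 1 / ((d : ℝ) * (1 - σ)) < q₀) :
    ∃ θ P C : ℝ, 0 < θ ∧ 0 ≤ P ∧ 0 < C ∧ ∀ δ : ℝ, 0 < δ → δ < 1 →
      ∀ (N : ℕ) (c e : Fin N → E d),
      (∀ i, ‖e i‖ = 1) → (∀ i j, i ≠ j → δ ≤ ‖e i - e j‖) →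
      ∀ M : ℝ, 1 ≤ M → ((N : ℝ) ^ (1 - (k : ℝ) / d) ≤ M ∨
        CncT k δ M e (univ : Finset (Fin N))) →
      (∃ G : Set (E d), MeasurableSet G ∧
        ∑ i, volume (tube δ (c i) (e i) \ G) ≤
          ENNReal.ofReal ((N : ℝ) ^ (-θ)) * ∑ i, volume (tube δ (c i) (e i)) ∧
        (∀ x ∈ G, mlt δ c e x ≤ C * ((N : ℝ) ^ ε * M)) ∧
        (∀ q : ℝ, 1 ≤ q →
          eLpNorm (G.indicator (mlt δ c e)) (ENNReal.ofReal q) volume ≤
            ENNReal.ofReal (C * (δ ^ ((d : ℝ) / q) * ((N : ℝ) ^ (1 / q + ε) *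
              M ^ (1 - 1 / q))))) ∧
        (M ≤ (N : ℝ) ^ σ → ∀ q : ℝ, q₀ ≤ q →
          eLpNorm (G.indicator (mlt δ c e)) (ENNReal.ofReal q) volume ≤
            ENNReal.ofReal (C * (δ ^ ((d : ℝ) / q) * (N : ℝ) ^ (1 - 1 / (q * d)))))) ∧
      ENNReal.ofReal (C⁻¹ * ((N : ℝ) ^ (1 - ε) * δ ^ d / M)) ≤
        volume (⋃ i, tube δ (c i) (e i)) ∧
      (∀ lam : ℝ, 0 < lam → lam ≤ 1 → ∀ X : Set (E d), MeasurableSet X →
        (∀ i, ENNReal.ofReal lam * volume (tube δ (c i) (e i)) ≤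
          volume (X ∩ tube δ (c i) (e i))) →
        ENNReal.ofReal (C⁻¹ * lam ^ P * ((N : ℝ) ^ (1 - ε) * δ ^ d / M)) ≤ volume X) := by
  have hd0 : (0 : ℝ) < d := by exact_mod_cast hd
  have hσ1 : 0 < 1 - σ := by linarith
  have hdσ : 0 < (d : ℝ) * (1 - σ) := by positivity
  have hq₀1 : 1 < q₀ := by
    have : 0 < 1 / ((d : ℝ) * (1 - σ)) := by positivity
    linarith
  have hq₀0 : 0 < q₀ := by linarith
  -- the gap in the exponent
  have hgap : 0 < (1 - σ) - (1 - σ + 1 / d) / q₀ := by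
    rw [sub_pos, div_lt_iff₀ hq₀0]
    have e1 : (1 - σ) * (1 + 1 / ((d : ℝ) * (1 - σ))) = 1 - σ + 1 / d := by
      field_simp
    rw [← e1]
    exact mul_lt_mul_of_pos_left hq₀ hσ1
  obtain ⟨ε₁, hε₁⟩ : ∃ ε₁ : ℝ, ε₁ = min ε ((1 - σ) - (1 - σ + 1 / d) / q₀) := ⟨_, rfl⟩
  have h0 : 0 < ε₁ := by rw [hε₁]; exact lt_min hε hgap
  have h1 : ε₁ ≤ ε := by rw [hε₁]; exact min_le_left _ _
  have h2 : ε₁ ≤ (1 - σ) - (1 - σ + 1 / d) / q₀ := by rw [hε₁]; exact min_le_right _ _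
  obtain ⟨θ, P, C, hθ, hP, hC, hmain⟩ := tubesM_of_densM (k := k) hd h h0 (by linarith)
  have hCa := one_le_Ca d
  have hCa0 : 0 < Ca d := by linarith
  refine ⟨θ, P, C * Ca d, hθ, hP, by positivity, ?_⟩
  intro δ hδ hδ1 N c e hu hsep M hM1 hM
  have hM0 : 0 < M := by linarith
  have hFam : Fam δ e (univ : Finset (Fin N)) :=
    ⟨fun i _ => hu i, fun i _ j _ hij => hsep i j hij⟩
  have hcnc : CncT k δ (Ca d * M) e (univ : Finset (Fin N)) := by
    rcases hM with hM | hM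
    · intro i hi r hr
      have h3 := cncT_all (k := k) hd hk hδ hFam i hi r hr
      refine h3.trans ?_
      rw [Finset.card_univ, Fintype.card_fin]
      have hr0 : 0 < r := by linarith
      gcongr
    · intro i hi r hr
      have hr0 : 0 < r := by linarith
      refine (hM i hi r hr).trans ?_
      calc M * (r / δ) ^ k = 1 * M * (r / δ) ^ k := by ring
        _ ≤ _ := by gcongr
  have hM1' : 1 ≤ Ca d * M := one_le_mul_of_one_le_of_one_le hCa hM1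
  obtain ⟨⟨G, hG, g1, g2, g3⟩, g4, g5⟩ := hmain δ hδ hδ1 N c e hu hsep (Ca d * M) hM1' hcnc
  rcases Nat.eq_zero_or_pos N with hN | hN
  · -- the empty family
    subst hN
    have hz : mlt δ c e = 0 := by
      funext x
      unfold mlt
      simp
    refine ⟨⟨G, hG, g1, ?_, ?_, ?_⟩, ?_, ?_⟩
    · intro x _
      rw [hz, Pi.zero_apply]
      positivity
    · intro q _
      rw [hz, Set.indicator_zero', eLpNorm_zero]
      exact bot_le
    · intro _ q _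
      rw [hz, Set.indicator_zero', eLpNorm_zero]
      exact bot_le
    · rw [Nat.cast_zero, Real.zero_rpow (by linarith), zero_mul, zero_div, mul_zero,
        ENNReal.ofReal_zero]
      exact bot_le
    · intro lam _ _ X _ _
      rw [Nat.cast_zero, Real.zero_rpow (by linarith), zero_mul, zero_div, mul_zero,
        ENNReal.ofReal_zero]
      exact bot_le
  have hN1 : (1 : ℝ) ≤ N := by exact_mod_cast hN
  have hN0 : (0 : ℝ) < N := by linarith
  have hNε : (N : ℝ) ^ ε₁ ≤ (N : ℝ) ^ ε := Real.rpow_le_rpow_of_exponent_le hN1 h1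
  have hNε' : (N : ℝ) ^ (1 - ε) ≤ (N : ℝ) ^ (1 - ε₁) :=
    Real.rpow_le_rpow_of_exponent_le hN1 (by linarith)
  have hgen : ∀ q : ℝ, 1 ≤ q →
      eLpNorm (G.indicator (mlt δ c e)) (ENNReal.ofReal q) volume ≤
        ENNReal.ofReal (C * Ca d * (δ ^ ((d : ℝ) / q) * ((N : ℝ) ^ (1 / q + ε₁) *
          M ^ (1 - 1 / q)))) := by
    intro q hq
    have hq0 : 0 < q := by linarith
    refine (g3 q hq).trans (ENNReal.ofReal_le_ofReal ?_)
    have k1 : 0 < 1 / q := by positivity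
    have k2 : (Ca d) ^ (1 - 1 / q) ≤ Ca d := by
      calc (Ca d) ^ (1 - 1 / q) ≤ (Ca d) ^ (1 : ℝ) :=
            Real.rpow_le_rpow_of_exponent_le hCa (by linarith)
        _ = Ca d := Real.rpow_one _
    rw [Real.mul_rpow hCa0.le hM0.le]
    calc C * (δ ^ ((d : ℝ) / q) * ((N : ℝ) ^ (1 / q + ε₁) *
          ((Ca d) ^ (1 - 1 / q) * M ^ (1 - 1 / q)))) ≤
          C * (δ ^ ((d : ℝ) / q) * ((N : ℝ) ^ (1 / q + ε₁) * (Ca d * M ^ (1 - 1 / q)))) := by
          gcongr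
      _ = _ := by ring
  refine ⟨⟨G, hG, g1, ?_, ?_, ?_⟩, ?_, ?_⟩
  · intro x hx
    refine (g2 x hx).trans ?_
    calc C * ((N : ℝ) ^ ε₁ * (Ca d * M)) = C * Ca d * ((N : ℝ) ^ ε₁ * M) := by ring
      _ ≤ _ := by gcongr
  · intro q hq
    refine (hgen q hq).trans (ENNReal.ofReal_le_ofReal ?_)
    have hq0 : 0 < q := by linarith
    have k3 : (N : ℝ) ^ (1 / q + ε₁) ≤ (N : ℝ) ^ (1 / q + ε) :=
      Real.rpow_le_rpow_of_exponent_le hN1 (by linarith)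
    gcongr
  · intro hMσ q hq
    have hq0 : 0 < q := by linarith
    have hq1 : 1 ≤ q := by linarith
    refine (hgen q hq1).trans (ENNReal.ofReal_le_ofReal ?_)
    have k1 : 1 / q ≤ 1 := by rw [div_le_one hq0]; exact hq1
    have k2 : M ^ (1 - 1 / q) ≤ (N : ℝ) ^ (σ * (1 - 1 / q)) := by
      rw [Real.rpow_mul hN0.le]
      exact Real.rpow_le_rpow hM0.le hMσ (by linarith)
    have k3 : (N : ℝ) ^ (1 / q + ε₁) * (N : ℝ) ^ (σ * (1 - 1 / q)) ≤
        (N : ℝ) ^ (1 - 1 / (q * d)) := by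
      rw [← Real.rpow_add hN0]
      refine Real.rpow_le_rpow_of_exponent_le hN1 ?_
      have h6 : (1 - σ + 1 / (d : ℝ)) / q ≤ (1 - σ + 1 / (d : ℝ)) / q₀ := by gcongr
      have h7 : (1 - σ + 1 / (d : ℝ)) / q = (1 - σ) * (1 / q) + 1 / (q * d) := by
        field_simp
      have h8 : 1 / q + ε₁ + σ * (1 - 1 / q) = 1 - (1 - σ) + (1 - σ) * (1 / q) + ε₁ := by ring
      rw [h8]
      linarith
    calc C * Ca d * (δ ^ ((d : ℝ) / q) * ((N : ℝ) ^ (1 / q + ε₁) * M ^ (1 - 1 / q)))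
        ≤ C * Ca d * (δ ^ ((d : ℝ) / q) * ((N : ℝ) ^ (1 / q + ε₁) *
            (N : ℝ) ^ (σ * (1 - 1 / q)))) := by gcongr
      _ ≤ _ := by gcongr
  · refine le_trans (ENNReal.ofReal_le_ofReal ?_) g4
    rw [mul_inv]
    calc C⁻¹ * (Ca d)⁻¹ * ((N : ℝ) ^ (1 - ε) * δ ^ d / M) ≤
          C⁻¹ * (Ca d)⁻¹ * ((N : ℝ) ^ (1 - ε₁) * δ ^ d / M) := by gcongr
      _ = _ := by field_simp
  · intro lam hlam hlam1 X hX hXv
    refine le_trans (ENNReal.ofReal_le_ofReal ?_) (g5 lam hlam hlam1 X hX hXv)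
    rw [mul_inv]
    calc C⁻¹ * (Ca d)⁻¹ * lam ^ P * ((N : ℝ) ^ (1 - ε) * δ ^ d / M) ≤
          C⁻¹ * (Ca d)⁻¹ * lam ^ P * ((N : ℝ) ^ (1 - ε₁) * δ ^ d / M) := by gcongr
      _ = _ := by field_simp

/-- The density bound for all families. -/
theorem dens_of_densM (hd : 0 < d) (hk : k ≤ d) (hk0 : 0 < k) (h : DensM d k) :
    Pool.Agent.H55.HDim.Dens d ((k : ℝ) / d) := by
  intro ε hε
  have hd0 : (0 : ℝ) < d := by exact_mod_cast hd
  have hk0' : (0 : ℝ) < k := by exact_mod_cast hk0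
  have hCa := one_le_Ca d
  have hCa0 : 0 < Ca d := by linarith
  have hG := one_le_CG d
  -- the loss in `N` is a loss in `δ`
  obtain ⟨ε₁, hε₁⟩ : ∃ ε₁ : ℝ, ε₁ = min (ε / d) (1 / 2) := ⟨_, rfl⟩
  have h0 : 0 < ε₁ := by rw [hε₁]; positivity
  have h1 : ε₁ ≤ ε / d := by rw [hε₁]; exact min_le_left _ _
  have h2 : ε₁ ≤ 1 / 2 := by rw [hε₁]; exact min_le_right _ _
  obtain ⟨c, P, hc, hP, hmain⟩ := h ε₁ h0 (by linarith)
  obtain ⟨C₃, hC₃⟩ : ∃ C₃ : ℝ, C₃ = CG d * 3 ^ d := ⟨_, rfl⟩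
  have hC₃1 : 1 ≤ C₃ := by
    rw [hC₃]
    exact one_le_mul_of_one_le_of_one_le hG (one_le_pow₀ (by norm_num))
  refine ⟨c / (Ca d * C₃), P, by positivity, ?_⟩
  intro δ hδ hδ1 ι S x₀ e hF X hX lam hlam hlam1 hvol
  rcases S.eq_empty_or_nonempty with rfl | hSne
  · rw [Finset.card_empty, Nat.cast_zero, Real.zero_rpow (by positivity), mul_zero, mul_zero,
      ENNReal.ofReal_zero]
    exact bot_le
  have hN0 : (0 : ℝ) < S.card := by exact_mod_cast Finset.card_pos.mpr hSne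
  have hN1 : (1 : ℝ) ≤ S.card := by exact_mod_cast Finset.card_pos.mpr hSne
  refine le_trans (ENNReal.ofReal_le_ofReal ?_)
    (hmain δ hδ hδ1 ι S x₀ e hF _ (cncT_all (k := k) hd hk hδ hF) X hX lam hlam hlam1 hvol)
  have h3 := Pool.Agent.H53.Kak.card_le_all hδ hδ1 hF
  rw [← hC₃] at h3
  have h4 : δ ^ ε / C₃ ≤ (S.card : ℝ) ^ (-ε₁) := by
    have k1 : (C₃ * (δ ^ d)⁻¹) ^ (-ε₁) ≤ (S.card : ℝ) ^ (-ε₁) :=
      Real.rpow_le_rpow_of_nonpos hN0 h3 (by linarith)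
    refine le_trans ?_ k1
    rw [Real.mul_rpow (by positivity) (by positivity), Real.inv_rpow (by positivity),
      Real.rpow_neg (by positivity), Real.rpow_neg (by positivity), inv_inv,
      ← Real.rpow_natCast δ d, ← Real.rpow_mul hδ.le, div_eq_inv_mul]
    have k2 : C₃ ^ ε₁ ≤ C₃ := by
      calc C₃ ^ ε₁ ≤ C₃ ^ (1 : ℝ) := Real.rpow_le_rpow_of_exponent_le hC₃1 (by linarith)
        _ = C₃ := Real.rpow_one _
    have k3 : δ ^ ε ≤ δ ^ ((d : ℝ) * ε₁) := by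
      refine Real.rpow_le_rpow_of_exponent_ge hδ hδ1.le ?_
      rw [le_div_iff₀ hd0] at h1
      linarith
    have k4 : C₃⁻¹ ≤ (C₃ ^ ε₁)⁻¹ := inv_anti₀ (by positivity) k2
    gcongr
  have h5 : (S.card : ℝ) ^ (1 - ε₁) / (Ca d * (S.card : ℝ) ^ (1 - (k : ℝ) / d)) =
      (Ca d)⁻¹ * ((S.card : ℝ) ^ (-ε₁) * (S.card : ℝ) ^ ((k : ℝ) / d)) := by
    rw [← Real.rpow_add hN0, div_mul_eq_div_div, div_eq_mul_inv _ (Ca d),
      mul_comm _ (Ca d)⁻¹, mul_div_assoc, ← Real.rpow_sub hN0]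
    congr 2
    ring
  rw [h5]
  calc c / (Ca d * C₃) * δ ^ ε * (lam ^ P * δ ^ d * (S.card : ℝ) ^ ((k : ℝ) / d)) =
        c * (lam ^ P * δ ^ d * ((Ca d)⁻¹ * (δ ^ ε / C₃ * (S.card : ℝ) ^ ((k : ℝ) / d)))) := by
        field_simp
    _ ≤ _ := by gcongr

end Pool.GP
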