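import Mathlib
import Pool.Agent.H15.PC.AlFin
import Pool.Agent.H37.PC.Fin
import Pool.Agent.H73.PC.BetaT
import Pool.Agent.H83.PC.AllC
import Pool.Agent.H94.GP.QTwo

/-!
# The Kakeya inequality for families of tubes with few directions in every ball
-/

set_option autoImplicit false

open MeasureTheory ENNReal
open scoped RealInnerProductSpace

namespace Pool.GP.CandA

/-- The tube of length `1`, radius `δ`, centre `c` and axis direction `e` in the Euclidean space of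
dimension `n = d + 1`. -/
def tube {d : ℕ} (δ : ℝ) (c e : EuclideanSpace ℝ (Fin (d + 1))) :
    Set (EuclideanSpace ℝ (Fin (d + 1))) :=
  {x | |⟪x - c, e⟫| ≤ 1 / 2 ∧ ‖(x - c) - ⟪x - c, e⟫ • e‖ ≤ δ}

/-- At most `M (r / δ) ^ 2` directions of the family are at distance at most `r` from one of them,
for all `r ≥ δ`. -/
def Spread {d N : ℕ} (δ M : ℝ) (e : Fin N → EuclideanSpace ℝ (Fin (d + 1))) : Prop :=
  ∀ i, ∀ r : ℝ, δ ≤ r → (({j | ‖e j - e i‖ ≤ r} : Set (Fin N)).ncard : ℝ) ≤ M * (r / δ) ^ 2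

/-- Let `n = d + 1 ≥ 3`, `A > 0`, and `σ = 0` or `0 ≤ σ < 1 - 2 / (n - 1)`. For each exponent
`1 + 1 / ((n - 1) (1 - σ)) < q ≤ ∞` there is a constant `C` such that the inequality of Q1 holds
for all `0 < δ < 1` and every finite family of `δ`-tubes of `ℝ ^ n` with `δ`-separated
orientations, of which at most `A N ^ σ (r / δ) ^ 2` are in a ball of radius `r ≥ δ` around one
of them; for `n = 3` this last condition is not needed. For `q = ∞` the exponents of `δ` and `N`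
are `0` and `1`. -/
theorem result (d : ℕ) (hd : 2 ≤ d) (σ A : ℝ) (hσ : 0 ≤ σ) (hσ1 : σ = 0 ∨ σ < 1 - 2 / (d : ℝ))
    (q : ENNReal) (hq : ENNReal.ofReal (1 + 1 / ((d : ℝ) * (1 - σ))) < q) :
    ∃ C : ℝ, ∀ δ : ℝ, 0 < δ → δ < 1 →
      ∀ (N : ℕ) (c e : Fin N → EuclideanSpace ℝ (Fin (d + 1))),
        (∀ i, ‖e i‖ = 1) → (∀ i j, i ≠ j → δ ≤ ‖e i - e j‖) →
        (d = 2 ∨ Spread δ (A * (N : ℝ) ^ σ) e) →
        eLpNorm (fun x => ∑ i, (tube δ (c i) (e i)).indicator (fun _ => (1 : ℝ)) x) q volume ≤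
        ENNReal.ofReal (C * (δ ^ ((d : ℝ) / q.toReal) *
          (N : ℝ) ^ (1 - 1 / (q.toReal * d)))) := by
  have hMB : Pool.KFIN.MB 2 3 := Pool.KMF.mb_three le_rfl
    (Pool.PC.lkg_two le_rfl (Pool.PC.alpha_of Pool.PC.all_S) Pool.PC.beta_thm)
  have hMB' : Pool.KFIN.MB 2 (1 + ((2 : ℕ) : ℝ)) := by
    have e : (1 : ℝ) + ((2 : ℕ) : ℝ) = 3 := by norm_num
    rwa [e]
  obtain ⟨C, hC⟩ := Pool.GP.q1_fin (d := d) (k := 2) (by norm_num) hd
    (Pool.GP.loss_of_MB (by norm_num) hMB') (A := A) hσ (by exact_mod_cast hσ1) hq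
  refine ⟨C, ?_⟩
  intro δ hδ hδ1 N c e he1 he2 hM
  refine hC δ hδ hδ1 N c e he1 he2 ?_
  rcases hM with h | h
  · exact Or.inl h
  · right
    intro i _ r hr
    refine le_trans (le_of_eq ?_) (h i r hr)
    congr 2
    ext j
    simp

end Pool.GP.CandA
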