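import Mathlib
import Pool.Agent.H56.KPM.Thm
import Pool.Agent.H94.GP.SForm

/-!
# The Kakeya problem for families of tubes with few directions in every ball
-/

set_option autoImplicit false

open MeasureTheory ENNReal
open scoped RealInnerProductSpace

namespace Pool.GP.CandB

/-- The tube of length `1`, radius `δ`, centre `c` and axis direction `e` in the Euclidean space of
dimension `n = d + 1`. -/
def tube {d : ℕ} (δ : ℝ) (c e : EuclideanSpace ℝ (Fin (d + 1))) :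
    Set (EuclideanSpace ℝ (Fin (d + 1))) :=
  {x | |⟪x - c, e⟫| ≤ 1 / 2 ∧ ‖(x - c) - ⟪x - c, e⟫ • e‖ ≤ δ}

/-- The number of tubes which contain the point `x`. -/
noncomputable def mult {d N : ℕ} (δ : ℝ) (c e : Fin N → EuclideanSpace ℝ (Fin (d + 1)))
    (x : EuclideanSpace ℝ (Fin (d + 1))) : ℝ :=
  ∑ i, (tube δ (c i) (e i)).indicator (fun _ => (1 : ℝ)) x

/-- At most `M (r / δ) ^ 3` directions of the family are at distance at most `r` from one of them,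
for all `r ≥ δ`. -/
def Spread {d N : ℕ} (δ M : ℝ) (e : Fin N → EuclideanSpace ℝ (Fin (d + 1))) : Prop :=
  ∀ i, ∀ r : ℝ, δ ≤ r → (({j | ‖e j - e i‖ ≤ r} : Set (Fin N)).ncard : ℝ) ≤ M * (r / δ) ^ 3

theorem result (d : ℕ) (hd : 3 ≤ d) :
    (∀ A σ ε q₀ : ℝ, 0 ≤ σ → σ ≤ 1 - 3 / (d : ℝ) → 0 < ε → ε < 1 - σ →
      1 + 1 / ((d : ℝ) * (1 - σ)) < q₀ →
      ∃ θ P C : ℝ, 0 < θ ∧ 0 ≤ P ∧ 0 < C ∧ ∀ δ : ℝ, 0 < δ → δ < 1 →
        ∀ (N : ℕ) (c e : Fin N → EuclideanSpace ℝ (Fin (d + 1))),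
        (∀ i, ‖e i‖ = 1) → (∀ i j, i ≠ j → δ ≤ ‖e i - e j‖) →
        (σ = 1 - 3 / (d : ℝ) ∨ Spread δ (A * (N : ℝ) ^ σ) e) →
        (∃ G : Set (EuclideanSpace ℝ (Fin (d + 1))), MeasurableSet G ∧
          ∑ i, volume (tube δ (c i) (e i) \ G) ≤
            ENNReal.ofReal ((N : ℝ) ^ (-θ)) * ∑ i, volume (tube δ (c i) (e i)) ∧
          (∀ x ∈ G, mult δ c e x ≤ C * (N : ℝ) ^ (σ + ε)) ∧
          (∀ q : ℝ, q₀ ≤ q →
            eLpNorm (G.indicator (mult δ c e)) (ENNReal.ofReal q) volume ≤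
              ENNReal.ofReal (C * (δ ^ ((d : ℝ) / q) * (N : ℝ) ^ (1 - 1 / (q * d)))))) ∧
        ENNReal.ofReal (C⁻¹ * ((N : ℝ) ^ (1 - σ - ε) * δ ^ d)) ≤
          volume (⋃ i, tube δ (c i) (e i)) ∧
        (∀ lam : ℝ, 0 < lam → lam ≤ 1 → ∀ X : Set (EuclideanSpace ℝ (Fin (d + 1))),
          MeasurableSet X →
          (∀ i, ENNReal.ofReal lam * volume (tube δ (c i) (e i)) ≤
            volume (X ∩ tube δ (c i) (e i))) →
          ENNReal.ofReal (C⁻¹ * lam ^ P * ((N : ℝ) ^ (1 - σ - ε) * δ ^ d)) ≤ volume X)) ∧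
    (∀ Ω K : Set (EuclideanSpace ℝ (Fin (d + 1))), Ω.Nonempty → (∀ e ∈ Ω, ‖e‖ = 1) →
      (∀ e ∈ Ω, ∃ x : EuclideanSpace ℝ (Fin (d + 1)), ∀ t : ℝ, 0 ≤ t → t ≤ 1 → x + t • e ∈ K) →
      min (dimH Ω) 3 + 1 ≤ dimH K) ∧
    (∀ K : Set (EuclideanSpace ℝ (Fin (d + 1))),
      (∀ e : EuclideanSpace ℝ (Fin (d + 1)), ‖e‖ = 1 →
        ∃ x : EuclideanSpace ℝ (Fin (d + 1)), ∀ t : ℝ, 0 ≤ t → t ≤ 1 → x + t • e ∈ K) →
      4 ≤ dimH K ∧ (d = 3 → dimH K = 4)) := by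
  have hKP : Pool.KA.KP 3 := Pool.PB.kp3_thm
  have hd0 : 0 < d := by omega
  have hdens : Pool.GP.DensM d 3 := Pool.GP.densM_of_KP hd0 hKP
  refine ⟨?_, ?_, ?_⟩
  · intro A σ ε q₀ hσ hσ1 hε hε1 hq₀
    obtain ⟨θ, P, C, hθ, hP, hC, h⟩ := Pool.GP.tubesS (k := 3) (by omega) (by norm_num) hd hdens A
      hε hσ (by exact_mod_cast hσ1) hε1 hq₀
    refine ⟨θ, P, C, hθ, hP, hC, ?_⟩
    intro δ hδ hδ1 N c e he hsep hM
    refine h δ hδ hδ1 N c e he hsep ?_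
    rcases hM with hM | hM
    · left
      exact_mod_cast hM
    · right
      intro i _ r hr
      refine le_trans (le_of_eq ?_) (hM i r hr)
      congr 2
      ext j
      simp
  · intro Ω K hne hΩ hK
    have h1 := Pool.GP.le_dimH_of_densM hdens Ω hΩ hne K hK
    exact_mod_cast h1
  · intro K hK
    have h1 : 4 ≤ dimH K := by
      have h2 := Pool.Agent.H55.HDim.le_dimH_of_dens (d := d) (b := ((3 : ℕ) : ℝ) / d)
        (by positivity) (Pool.GP.dens_of_densM hd0 hd (by norm_num) hdens) K hK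
      refine le_trans (le_of_eq ?_) h2
      have hd' : (0 : ℝ) < d := by exact_mod_cast hd0
      rw [div_mul_cancel₀ _ hd'.ne']
      norm_num
    refine ⟨h1, fun hd3 => le_antisymm ?_ h1⟩
    subst hd3
    have h1 : dimH K ≤ dimH (Set.univ : Set (EuclideanSpace ℝ (Fin (3 + 1)))) :=
      dimH_mono (Set.subset_univ K)
    rw [Real.dimH_univ_eq_finrank, finrank_euclideanSpace_fin] at h1
    exact_mod_cast h1

end Pool.GP.CandB
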