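import Pool.Agent.H94.GP.CandB

/-!
# The case `n = 4` of theorem B, literally in the form for `ℝ⁴`
-/

set_option autoImplicit false

open MeasureTheory ENNReal
open scoped RealInnerProductSpace

namespace Pool.GP.ChkB

/-- The tube of length `1`, radius `δ`, centre `c` and axis direction `e` in `ℝ⁴`. -/
def tube (δ : ℝ) (c e : EuclideanSpace ℝ (Fin 4)) : Set (EuclideanSpace ℝ (Fin 4)) :=
  {x | |⟪x - c, e⟫| ≤ 1 / 2 ∧ ‖(x - c) - ⟪x - c, e⟫ • e‖ ≤ δ}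

/-- The number of tubes which contain the point `x`. -/
noncomputable def mult {N : ℕ} (δ : ℝ) (c e : Fin N → EuclideanSpace ℝ (Fin 4))
    (x : EuclideanSpace ℝ (Fin 4)) : ℝ :=
  ∑ i, (tube δ (c i) (e i)).indicator (fun _ => (1 : ℝ)) x

theorem four :
    (∀ ε q₀ : ℝ, 0 < ε → ε < 1 → 4 / 3 < q₀ →
      ∃ θ P C : ℝ, 0 < θ ∧ 0 ≤ P ∧ 0 < C ∧ ∀ δ : ℝ, 0 < δ → δ < 1 →
        ∀ (N : ℕ) (c e : Fin N → EuclideanSpace ℝ (Fin 4)),
        (∀ i, ‖e i‖ = 1) → (∀ i j, i ≠ j → δ ≤ ‖e i - e j‖) →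
        (∃ G : Set (EuclideanSpace ℝ (Fin 4)), MeasurableSet G ∧
          ∑ i, volume (tube δ (c i) (e i) \ G) ≤
            ENNReal.ofReal ((N : ℝ) ^ (-θ)) * ∑ i, volume (tube δ (c i) (e i)) ∧
          (∀ x ∈ G, mult δ c e x ≤ C * (N : ℝ) ^ ε) ∧
          (∀ q : ℝ, q₀ ≤ q →
            eLpNorm (G.indicator (mult δ c e)) (ENNReal.ofReal q) volume ≤
              ENNReal.ofReal (C * (δ ^ (3 / q) * (N : ℝ) ^ (1 - 1 / (3 * q)))))) ∧
        ENNReal.ofReal (C⁻¹ * ((N : ℝ) ^ (1 - ε) * δ ^ 3)) ≤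
          volume (⋃ i, tube δ (c i) (e i)) ∧
        (∀ lam : ℝ, 0 < lam → lam ≤ 1 → ∀ X : Set (EuclideanSpace ℝ (Fin 4)),
          MeasurableSet X →
          (∀ i, ENNReal.ofReal lam * volume (tube δ (c i) (e i)) ≤
            volume (X ∩ tube δ (c i) (e i))) →
          ENNReal.ofReal (C⁻¹ * lam ^ P * ((N : ℝ) ^ (1 - ε) * δ ^ 3)) ≤ volume X)) ∧
    (∀ K : Set (EuclideanSpace ℝ (Fin 4)),
      (∀ e : EuclideanSpace ℝ (Fin 4), ‖e‖ = 1 →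
        ∃ x : EuclideanSpace ℝ (Fin 4), ∀ t : ℝ, 0 ≤ t → t ≤ 1 → x + t • e ∈ K) →
      dimH K = 4) := by
  obtain ⟨h1, -, h3⟩ := CandB.result 3 le_rfl
  refine ⟨?_, fun K hK => (h3 K hK).2 rfl⟩
  intro ε q₀ hε hε1 hq₀
  obtain ⟨θ, P, C, hθ, hP, hC, h⟩ := h1 0 0 ε q₀ le_rfl (by norm_num) hε (by linarith)
    (by norm_num; linarith)
  refine ⟨θ, P, C, hθ, hP, hC, ?_⟩
  intro δ hδ hδ1 N c e he hsep
  obtain ⟨⟨G, hG, g1, g2, g3⟩, g4, g5⟩ := h δ hδ hδ1 N c e he hsep (Or.inl (by norm_num))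
  rw [sub_zero] at g4
  refine ⟨⟨G, hG, g1, ?_, ?_⟩, g4, ?_⟩
  · intro x hx
    have := g2 x hx
    rw [zero_add] at this
    exact this
  · intro q hq
    have := g3 q hq
    have e1 : q * ((3 : ℕ) : ℝ) = 3 * q := by push_cast; ring
    rw [e1] at this
    exact this
  · intro lam hl hl1 X hX hXT
    have := g5 lam hl hl1 X hX hXT
    rw [sub_zero] at this
    exact this

end Pool.GP.ChkB
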