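import Pool.Agent.H94.GP.Coll
import Pool.Agent.H73.KFIN.Less

/-!
# The counting inequality for families with few velocities in every box
-/

set_option autoImplicit false

namespace Pool.GP

open Finset
open Pool.Agent.H32.Dense
open Pool.Agent.H53.Dns (cells)
open Pool.KFIN (CountN card_box)

variable {d k : ℕ}

/-- The counting inequality for a finite set of lines. -/
lemma countN_finset {ε P c : ℝ} (h : CountN k ε P c) {ι : Type} (m : ℕ) (L : Finset ι)
    (u : ι → Fin k → ℝ) (v : ι → Fin k → ℤ) (K : ι → Finset ℤ) {κ : ℝ} (hκ : 0 < κ)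
    (hinj : Set.InjOn v L) (hv : ∀ i ∈ L, ∀ l, |v i l| ≤ 2 ^ m)
    (hK : ∀ i ∈ L, K i ⊆ Finset.Ico 0 (2 ^ m : ℤ)) (hcard : ∀ i ∈ L, κ * 2 ^ m ≤ (K i).card) :
    c * (2 ^ m * κ ^ P * (L.card : ℝ) ^ (1 - ε)) ≤
      ∑ j ∈ Finset.Ico 0 (2 ^ m : ℤ), ((cells m L u v K j).card : ℝ) := by
  classical
  obtain ⟨φ, hφL, hφinj⟩ : ∃ φ : Fin L.card → ι, (∀ x, φ x ∈ L) ∧ Function.Injective φ :=
    ⟨fun x => (L.equivFin.symm x : ι), fun x => (L.equivFin.symm x).2,
      fun x y hxy => L.equivFin.symm.injective (Subtype.ext hxy)⟩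
  refine (h m L.card (fun x => u (φ x)) (fun x => v (φ x)) (fun x => K (φ x)) κ hκ
    (fun x y hxy => hφinj (hinj (Finset.mem_coe.mpr (hφL x)) (Finset.mem_coe.mpr (hφL y)) hxy))
    (fun x l => hv _ (hφL x) l) (fun x => hK _ (hφL x)) (fun x => hcard _ (hφL x))).trans ?_
  apply Finset.sum_le_sum
  intro j _
  have : ((univ.filter fun x : Fin L.card => j ∈ K (φ x)).image fun x =>
      rd (pos (2 ^ m) (u (φ x)) (v (φ x)) j)) ⊆ cells m L u v K j := by
    intro z hz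
    obtain ⟨x, hx, rfl⟩ := Finset.mem_image.mp hz
    exact Finset.mem_image.mpr ⟨φ x, Finset.mem_filter.mpr ⟨hφL x, (Finset.mem_filter.mp hx).2⟩,
      rfl⟩
  exact_mod_cast Finset.card_le_card this

/-- The projection of the base point. -/
noncomputable def prr (Q : ℕ) (a : Fin k → Fin d → Fin Q) (x : Fin d → ℝ) (l : Fin k) : ℝ :=
  (∑ r, ((a l r : ℕ) : ℝ) * x r) / ((d : ℝ) * Q)

lemma prr_sub (Q : ℕ) (a : Fin k → Fin d → Fin Q) (x y : Fin d → ℝ) (l : Fin k) :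
    prr Q a x l - prr Q a y l = prr Q a (fun r => x r - y r) l := by
  unfold prr
  rw [← sub_div, ← Finset.sum_sub_distrib]
  congr 1
  exact Finset.sum_congr rfl fun r _ => by ring

lemma abs_prr_le {Q : ℕ} (hQ : 0 < Q) (hd : 0 < d) (a : Fin k → Fin d → Fin Q) {x : Fin d → ℝ}
    {R : ℝ} (hx : ∀ r, |x r| ≤ R) (l : Fin k) : |prr Q a x l| ≤ R := by
  have hQr : (0 : ℝ) < Q := by exact_mod_cast hQ
  have hdr : (0 : ℝ) < d := by exact_mod_cast hd
  unfold prr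
  rw [abs_div, abs_of_pos (by positivity : (0 : ℝ) < (d : ℝ) * Q), div_le_iff₀ (by positivity)]
  calc |∑ r, ((a l r : ℕ) : ℝ) * x r| ≤ ∑ r, |((a l r : ℕ) : ℝ) * x r| :=
        Finset.abs_sum_le_sum_abs _ _
    _ ≤ ∑ _r : Fin d, (Q : ℝ) * R := by
        refine Finset.sum_le_sum fun r _ => ?_
        rw [abs_mul, abs_of_nonneg (Nat.cast_nonneg _)]
        have h1 : ((a l r : ℕ) : ℝ) ≤ Q := by exact_mod_cast (a l r).isLt.le
        have h2 := hx r
        gcongr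
    _ = R * ((d : ℝ) * Q) := by
        rw [Finset.sum_const, Finset.card_univ, Fintype.card_fin, nsmul_eq_mul]; ring

/-- The integer part of the projection. -/
lemma prj_near {Q : ℕ} (hQ : 0 < Q) (hd : 0 < d) (a : Fin k → Fin d → Fin Q) (x : Fin d → ℤ)
    (l : Fin k) : 0 ≤ prr Q a (fun r => (x r : ℝ)) l - (prj Q a x l : ℝ) ∧
      prr Q a (fun r => (x r : ℝ)) l - (prj Q a x l : ℝ) < 1 := by
  have hdQ : (0 : ℤ) < (d : ℤ) * Q := by positivity
  have hdQr : (0 : ℝ) < (d : ℝ) * Q := by exact_mod_cast hdQ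
  have h1 := Int.emod_add_mul_ediv (row Q (a l) x) ((d : ℤ) * Q)
  have h2 := Int.emod_nonneg (row Q (a l) x) hdQ.ne'
  have h3 := Int.emod_lt_of_pos (row Q (a l) x) hdQ
  have h4 : prr Q a (fun r => (x r : ℝ)) l = (row Q (a l) x : ℝ) / ((d : ℝ) * Q) := by
    unfold prr row
    push_cast
    rfl
  have h5 : ((row Q (a l) x % ((d : ℤ) * Q) : ℤ) : ℝ) + ((d : ℝ) * Q) * (prj Q a x l : ℝ) =
      (row Q (a l) x : ℝ) := by
    have := congrArg (fun z : ℤ => (z : ℝ)) h1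
    push_cast at this
    rw [← this]
    rfl
  have h6 : (0 : ℝ) ≤ ((row Q (a l) x % ((d : ℤ) * Q) : ℤ) : ℝ) := by exact_mod_cast h2
  have h7 : ((row Q (a l) x % ((d : ℤ) * Q) : ℤ) : ℝ) < (d : ℝ) * Q := by exact_mod_cast h3
  rw [h4, ← h5, add_div, mul_div_cancel_left₀ _ hdQr.ne', add_sub_cancel_right]
  exact ⟨by positivity, (div_lt_one hdQr).mpr h7⟩

lemma abs_prj_le {Q m : ℕ} (hQ : 0 < Q) (hd : 0 < d) (a : Fin k → Fin d → Fin Q)
    {x : Fin d → ℤ} (hx : ∀ r, |x r| ≤ 2 ^ m) (l : Fin k) : |prj Q a x l| ≤ 2 ^ m := by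
  have h1 := abs_prr_le hQ hd a (x := fun r => (x r : ℝ)) (R := 2 ^ m) (by
    intro r
    have := hx r
    have h2 : ((|x r| : ℤ) : ℝ) ≤ ((2 ^ m : ℤ) : ℝ) := Int.cast_le.mpr this
    rw [Int.cast_abs] at h2
    push_cast at h2
    exact h2) l
  have h2 := prj_near hQ hd a x l
  rw [abs_le] at h1 ⊢
  constructor
  · have h3 : (-(2 ^ m) : ℝ) - 1 < (prj Q a x l : ℝ) := by linarith
    have h4 : (((-(2 ^ m) : ℤ) - 1 : ℤ) : ℝ) < ((prj Q a x l : ℤ) : ℝ) := by
      push_cast; exact h3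
    have h5 := Int.cast_lt.mp h4
    omega
  · have h3 : (prj Q a x l : ℝ) ≤ 2 ^ m := by linarith
    exact_mod_cast h3

/-- The cells of the projected lines. -/
lemma proj_cells {ι : Type} {Q m : ℕ} (hQ : 0 < Q) (hd : 0 < d) (a : Fin k → Fin d → Fin Q)
    (L L' : Finset ι) (hL : L' ⊆ L) (u : ι → Fin d → ℝ) (v : ι → Fin d → ℤ)
    (A : ι → Finset ℤ) {j : ℤ} (hj0 : 0 ≤ j) (hj1 : j ≤ 2 ^ m) :
    (cells m L' (fun i => prr Q a (u i)) (fun i => prj Q a (v i)) A j).card ≤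
      5 ^ k * (cells m L u v A j).card := by
  classical
  obtain ⟨C, hC⟩ : ∃ C, C = cells m L' (fun i => prr Q a (u i)) (fun i => prj Q a (v i)) A j :=
    ⟨_, rfl⟩
  have hrep : ∀ x ∈ C, ∃ i ∈ L', j ∈ A i ∧
      rd (pos (2 ^ m) (prr Q a (u i)) (prj Q a (v i)) j) = x := by
    intro x hx
    rw [hC] at hx
    obtain ⟨i, hi, h⟩ := Finset.mem_image.mp hx
    exact ⟨i, (Finset.mem_filter.mp hi).1, (Finset.mem_filter.mp hi).2, h⟩
  rw [← hC]
  by_cases hCe : C = ∅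
  · rw [hCe, Finset.card_empty]
    positivity
  obtain ⟨x₁, hx₁⟩ := Finset.nonempty_iff_ne_empty.mpr hCe
  obtain ⟨i₁, -⟩ := hrep x₁ hx₁
  have : Nonempty ι := ⟨i₁⟩
  choose! f hfL hfA hfx using hrep
  have hW : (0 : ℝ) < 2 ^ m := by positivity
  have hj0' : (0 : ℝ) ≤ j := by exact_mod_cast hj0
  have hj1' : (j : ℝ) ≤ 2 ^ m := by exact_mod_cast hj1
  refine Finset.card_le_mul_card_image_of_maps_to
    (f := fun x => rd (pos (2 ^ m) (u (f x)) (v (f x)) j)) ?_ (5 ^ k) ?_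
  · intro x hx
    exact Finset.mem_image.mpr ⟨f x, Finset.mem_filter.mpr ⟨hL (hfL x hx), hfA x hx⟩, rfl⟩
  · intro b _
    rcases (Finset.filter (fun x => rd (pos (2 ^ m) (u (f x)) (v (f x)) j) = b)
      C).eq_empty_or_nonempty with h0 | ⟨x₀, hx₀⟩
    · rw [h0, Finset.card_empty]
      positivity
    · refine (card_box _ x₀ 2 ?_).trans (le_of_eq (by norm_num))
      intro x hx l
      obtain ⟨hxC, hxb⟩ := Finset.mem_filter.mp hx
      obtain ⟨hyC, hyb⟩ := Finset.mem_filter.mp hx₀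
      have k3 := congrFun (hfx x hxC) l
      have k4 := congrFun (hfx x₀ hyC) l
      have k5 : ⌊pos (2 ^ m) (prr Q a (u (f x))) (prj Q a (v (f x))) j l⌋ = x l := k3
      have k6 : ⌊pos (2 ^ m) (prr Q a (u (f x₀))) (prj Q a (v (f x₀))) j l⌋ = x₀ l := k4
      have hsub : ∀ r, |pos (2 ^ m) (u (f x)) (v (f x)) j r -
          pos (2 ^ m) (u (f x₀)) (v (f x₀)) j r| ≤ 1 := by
        intro r
        have k1 := congrFun (hxb.trans hyb.symm) r
        have k2 : ⌊pos (2 ^ m) (u (f x)) (v (f x)) j r⌋ =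
          ⌊pos (2 ^ m) (u (f x₀)) (v (f x₀)) j r⌋ := k1
        exact (Int.abs_sub_lt_one_of_floor_eq_floor k2).le
      have hid : ∀ i : ι, prr Q a (pos (2 ^ m) (u i) (v i) j) l -
          pos (2 ^ m) (prr Q a (u i)) (prj Q a (v i)) j l =
          (j : ℝ) / 2 ^ m * (prr Q a (fun r => (v i r : ℝ)) l - (prj Q a (v i) l : ℝ)) := by
        intro i
        have e1 : prr Q a (pos (2 ^ m) (u i) (v i) j) l = prr Q a (u i) l +
            (j : ℝ) / 2 ^ m * prr Q a (fun r => (v i r : ℝ)) l := by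
          unfold prr pos
          rw [← mul_div_assoc, ← add_div, Finset.mul_sum, ← Finset.sum_add_distrib]
          congr 1
          refine Finset.sum_congr rfl fun r _ => ?_
          push_cast
          ring
        rw [e1]
        unfold pos
        push_cast
        ring
      have hfrac : ∀ i : ι, 0 ≤ (j : ℝ) / 2 ^ m *
          (prr Q a (fun r => (v i r : ℝ)) l - (prj Q a (v i) l : ℝ)) ∧
          (j : ℝ) / 2 ^ m * (prr Q a (fun r => (v i r : ℝ)) l - (prj Q a (v i) l : ℝ)) ≤ 1 := by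
        intro i
        have h1 := prj_near hQ hd a (v i) l
        have h2 : (j : ℝ) / 2 ^ m ≤ 1 := (div_le_one hW).mpr hj1'
        have h3 : 0 ≤ (j : ℝ) / 2 ^ m := by positivity
        exact ⟨mul_nonneg h3 h1.1, mul_le_one₀ h2 h1.1 h1.2.le⟩
      have h1 := abs_prr_le hQ hd a hsub l
      rw [← prr_sub] at h1
      have h2 := hid (f x)
      have h3 := hid (f x₀)
      have h4 := hfrac (f x)
      have h5 := hfrac (f x₀)
      rw [abs_le] at h1
      rw [← k5, ← k6]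
      have g1 := Int.floor_le (pos (2 ^ m) (prr Q a (u (f x))) (prj Q a (v (f x))) j l)
      have g2 := Int.lt_floor_add_one (pos (2 ^ m) (prr Q a (u (f x))) (prj Q a (v (f x))) j l)
      have g3 := Int.floor_le (pos (2 ^ m) (prr Q a (u (f x₀))) (prj Q a (v (f x₀))) j l)
      have g4 := Int.lt_floor_add_one (pos (2 ^ m) (prr Q a (u (f x₀))) (prj Q a (v (f x₀))) j l)
      have g5 : ((⌊pos (2 ^ m) (prr Q a (u (f x))) (prj Q a (v (f x))) j l⌋ -
        ⌊pos (2 ^ m) (prr Q a (u (f x₀))) (prj Q a (v (f x₀))) j l⌋ : ℤ) : ℝ) < 3 := by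
        push_cast; linarith
      have g6 : (-3 : ℝ) < ((⌊pos (2 ^ m) (prr Q a (u (f x))) (prj Q a (v (f x))) j l⌋ -
        ⌊pos (2 ^ m) (prr Q a (u (f x₀))) (prj Q a (v (f x₀))) j l⌋ : ℤ) : ℝ) := by
        push_cast; linarith
      have g7 := Int.cast_lt.mp (show ((⌊pos (2 ^ m) (prr Q a (u (f x))) (prj Q a (v (f x))) j l⌋ -
        ⌊pos (2 ^ m) (prr Q a (u (f x₀))) (prj Q a (v (f x₀))) j l⌋ : ℤ) : ℝ) < ((3 : ℤ) : ℝ) by
        exact_mod_cast g5)
      have g8 := Int.cast_lt.mp (show ((-3 : ℤ) : ℝ) <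
        ((⌊pos (2 ^ m) (prr Q a (u (f x))) (prj Q a (v (f x))) j l⌋ -
        ⌊pos (2 ^ m) (prr Q a (u (f x₀))) (prj Q a (v (f x₀))) j l⌋ : ℤ) : ℝ) by
        exact_mod_cast g6)
      rw [abs_le]
      push_cast
      constructor <;> omega

/-- A constant. -/
noncomputable def Cq (d k : ℕ) (ε : ℝ) : ℝ := 1 + (2 * (d : ℝ) + 1) ^ k * (1 + 1 / ε)

lemma one_le_Cq (d k : ℕ) {ε : ℝ} (hε : 0 < ε) : 1 ≤ Cq d k ε := by
  unfold Cq
  have : 0 ≤ (2 * (d : ℝ) + 1) ^ k * (1 + 1 / ε) := by positivity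
  linarith

lemma Cp_le {ε M : ℝ} (hε : 0 < ε) (hM : 1 ≤ M) {N : ℕ} (hN : 1 ≤ N) :
    Cp d k N M ≤ Cq d k ε * M * (N : ℝ) ^ ε := by
  have hNr : (1 : ℝ) ≤ N := by exact_mod_cast hN
  have h1 : ((harmonic N : ℚ) : ℝ) ≤ 1 + Real.log N := harmonic_le_one_add_log N
  have h2 : Real.log N ≤ (N : ℝ) ^ ε / ε := Real.log_le_rpow_div (by linarith) hε
  have h3 : 1 ≤ (N : ℝ) ^ ε := Real.one_le_rpow hNr hε.le
  have h4 : ((harmonic N : ℚ) : ℝ) ≤ (1 + 1 / ε) * (N : ℝ) ^ ε := by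
    calc ((harmonic N : ℚ) : ℝ) ≤ 1 + (N : ℝ) ^ ε / ε := by linarith
      _ ≤ (N : ℝ) ^ ε + (N : ℝ) ^ ε / ε := by linarith
      _ = _ := by ring
  have h5 : 1 ≤ M * (N : ℝ) ^ ε := one_le_mul_of_one_le_of_one_le hM h3
  unfold Cp Cq
  have hM0 : 0 ≤ M := by linarith
  calc 1 + (2 * (d : ℝ) + 1) ^ k * M * ((harmonic N : ℚ) : ℝ)
      ≤ M * (N : ℝ) ^ ε + (2 * (d : ℝ) + 1) ^ k * M * ((1 + 1 / ε) * (N : ℝ) ^ ε) := by
        gcongr
    _ = _ := by ring

/-- The counting inequality for families with few velocities in every box. -/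
def CountM (d k : ℕ) (ε P c : ℝ) : Prop :=
  ∀ (m N : ℕ) (u : Fin N → Fin d → ℝ) (v : Fin N → Fin d → ℤ) (A : Fin N → Finset ℤ)
    (κ M : ℝ), 0 < κ → Function.Injective v → Cnc k M (univ.image v) →
    (∀ i l, |v i l| ≤ 2 ^ m) → (∀ i, A i ⊆ Finset.Ico 0 (2 ^ m : ℤ)) →
    (∀ i, κ * 2 ^ m ≤ (A i).card) →
    c * (2 ^ m * κ ^ P * ((N : ℝ) ^ (1 - ε) / M)) ≤
      ∑ j ∈ Finset.Ico 0 (2 ^ m : ℤ),
        (((univ.filter fun i => j ∈ A i).image fun i => rd (pos (2 ^ m) (u i) (v i) j)).card : ℝ)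

/-- **The counting inequality by projection.** -/
theorem countM_of_countN (hd : 0 < d) {ε P c : ℝ} (hε : 0 < ε) (hε1 : 2 * ε < 1) (hc : 0 < c)
    (h : CountN k ε P c) : CountM d k (2 * ε) P (c / (5 ^ k * Cq d k ε)) := by
  classical
  intro m N u v A κ M hκ hinj hM hv hA hcard
  obtain ⟨Sg, hSg⟩ : ∃ s : ℝ, s = ∑ j ∈ Finset.Ico 0 (2 ^ m : ℤ),
    ((cells m univ u v A j).card : ℝ) := ⟨_, rfl⟩
  have hSg' : (∑ j ∈ Finset.Ico 0 (2 ^ m : ℤ),
        (((univ.filter fun i => j ∈ A i).image fun i =>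
          rd (pos (2 ^ m) (u i) (v i) j)).card : ℝ)) = Sg := hSg.symm
  rw [hSg']
  have hCq := one_le_Cq d k hε
  have hCq0 : 0 < Cq d k ε := by linarith
  rcases Nat.eq_zero_or_pos N with hN | hN
  · subst hN
    have hSg0 : 0 ≤ Sg := by rw [hSg]; exact Finset.sum_nonneg fun _ _ => Nat.cast_nonneg _
    rw [Nat.cast_zero, Real.zero_rpow (by linarith), zero_div, mul_zero, mul_zero]
    exact hSg0
  have hNr : (1 : ℝ) ≤ N := by exact_mod_cast hN
  have hN0 : (0 : ℝ) < N := by linarith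
  obtain ⟨V, hV⟩ : ∃ V : Finset (Fin d → ℤ), V = univ.image v := ⟨_, rfl⟩
  have hVcard : V.card = N := by
    rw [hV, Finset.card_image_of_injective _ hinj, Finset.card_univ, Fintype.card_fin]
  rw [← hV] at hM
  have hVne : V.Nonempty := by rw [← Finset.card_pos, hVcard]; exact hN
  have hM1 : 1 ≤ M := hM.one_le hVne
  have hM0 : 0 < M := by linarith
  obtain ⟨Q, hQ⟩ : ∃ Q : ℕ, Q = 2 ^ (m + 1) := ⟨_, rfl⟩
  have hQ0 : 0 < Q := by rw [hQ]; positivity
  obtain ⟨a, V', hV'V, hV'inj, hV'card⟩ := exists_proj hQ0 hM (by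
    intro x hx y hy
    rw [hV] at hx hy
    obtain ⟨i, -, rfl⟩ := Finset.mem_image.mp hx
    obtain ⟨i', -, rfl⟩ := Finset.mem_image.mp hy
    refine nrm_le fun r => ?_
    have h1 := abs_le.mp (hv i r)
    have h2 := abs_le.mp (hv i' r)
    have h3 : ((v i r - v i' r).natAbs : ℤ) ≤ (Q : ℤ) := by
      rw [Int.natCast_natAbs, hQ, abs_le]
      push_cast
      rw [pow_succ]
      constructor <;> linarith [h1.1, h1.2, h2.1, h2.2]
    exact_mod_cast h3)
  rw [hVcard] at hV'card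
  obtain ⟨L', hL'⟩ : ∃ L' : Finset (Fin N), L' = univ.filter fun i => v i ∈ V' := ⟨_, rfl⟩
  have hL'card : L'.card = V'.card := by
    have h1 : L'.image v = V' := by
      ext x
      constructor
      · intro hx
        obtain ⟨i, hi, rfl⟩ := Finset.mem_image.mp hx
        rw [hL'] at hi
        exact (Finset.mem_filter.mp hi).2
      · intro hx
        have := hV'V hx
        rw [hV] at this
        obtain ⟨i, -, rfl⟩ := Finset.mem_image.mp this
        rw [hL']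
        exact Finset.mem_image.mpr ⟨i, Finset.mem_filter.mpr ⟨Finset.mem_univ i, hx⟩, rfl⟩
    rw [← h1, Finset.card_image_of_injective _ hinj]
  have hcnt := countN_finset h m L' (fun i => prr Q a (u i)) (fun i => prj Q a (v i)) A hκ
    (by
      intro i hi i' hi' hii
      rw [hL'] at hi hi'
      have h1 := (Finset.mem_filter.mp (Finset.mem_coe.mp hi)).2
      have h2 := (Finset.mem_filter.mp (Finset.mem_coe.mp hi')).2
      exact hinj (hV'inj (Finset.mem_coe.mpr h1) (Finset.mem_coe.mpr h2) hii))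
    (fun i _ l => abs_prj_le hQ0 hd a (hv i) l) (fun i _ => hA i) (fun i _ => hcard i)
  have hcells : ∑ j ∈ Finset.Ico 0 (2 ^ m : ℤ), ((cells m L' (fun i => prr Q a (u i))
      (fun i => prj Q a (v i)) A j).card : ℝ) ≤ 5 ^ k * Sg := by
    rw [hSg, Finset.mul_sum]
    refine Finset.sum_le_sum fun j hj => ?_
    rw [Finset.mem_Ico] at hj
    have := proj_cells hQ0 hd a univ L' (Finset.subset_univ _) u v A hj.1 hj.2.le
    exact_mod_cast this
  have h1 := hcnt.trans hcells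
  have h2 : (N : ℝ) ≤ Cq d k ε * M * (N : ℝ) ^ ε * L'.card := by
    rw [hL'card]
    refine hV'card.trans ?_
    exact mul_le_mul_of_nonneg_right (Cp_le hε hM1 hN) (Nat.cast_nonneg _)
  have hCM : 1 ≤ Cq d k ε * M := one_le_mul_of_one_le_of_one_le hCq hM1
  have hCM0 : 0 < Cq d k ε * M := by linarith
  have h3 : (N : ℝ) ^ (1 - 2 * ε) / (Cq d k ε * M) ≤ (L'.card : ℝ) ^ (1 - ε) := by
    have k1 : (N : ℝ) ^ (1 - ε) / (Cq d k ε * M) ≤ L'.card := by
      rw [div_le_iff₀ hCM0]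
      have k2 : (N : ℝ) ^ (1 - ε) * (N : ℝ) ^ ε = N := by
        rw [← Real.rpow_add hN0]; simp
      have k3 : 0 < (N : ℝ) ^ ε := by positivity
      refine le_of_mul_le_mul_right ?_ k3
      rw [k2]
      linarith
    calc (N : ℝ) ^ (1 - 2 * ε) / (Cq d k ε * M) ≤
          ((N : ℝ) ^ (1 - ε)) ^ (1 - ε) / (Cq d k ε * M) ^ (1 - ε) := by
          refine div_le_div₀ (by positivity) ?_ (by positivity) ?_
          · rw [← Real.rpow_mul hN0.le]
            refine Real.rpow_le_rpow_of_exponent_le hNr ?_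
            nlinarith
          · calc (Cq d k ε * M) ^ (1 - ε) ≤ (Cq d k ε * M) ^ (1 : ℝ) :=
                  Real.rpow_le_rpow_of_exponent_le hCM (by linarith)
              _ = _ := Real.rpow_one _
      _ = ((N : ℝ) ^ (1 - ε) / (Cq d k ε * M)) ^ (1 - ε) := by
          rw [Real.div_rpow (by positivity) hCM0.le]
      _ ≤ _ := Real.rpow_le_rpow (by positivity) k1 (by linarith)
  have h5 : (0 : ℝ) < 5 ^ k := by positivity
  calc c / (5 ^ k * Cq d k ε) * (2 ^ m * κ ^ P * ((N : ℝ) ^ (1 - 2 * ε) / M))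
      = (c * (2 ^ m * κ ^ P * ((N : ℝ) ^ (1 - 2 * ε) / (Cq d k ε * M)))) / 5 ^ k := by
        field_simp
    _ ≤ (c * (2 ^ m * κ ^ P * (L'.card : ℝ) ^ (1 - ε))) / 5 ^ k := by gcongr
    _ ≤ (5 ^ k * Sg) / 5 ^ k := by gcongr
    _ = Sg := by field_simp

/-- The counting inequality for families with few velocities in every box follows from the entropy
inequality in the smaller dimension. -/
theorem countM_of_KP (hd : 0 < d) (h : Pool.KA.KP k) {ε : ℝ} (hε : 0 < ε) (hε1 : ε < 1) :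
    ∃ P c : ℝ, 1 + (k : ℝ) ≤ P ∧ 0 < c ∧ CountM d k ε P c := by
  obtain ⟨P, c, hP, hc, hcount⟩ := Pool.KFIN.countN_of_KP h (ε := ε / 2) (by linarith)
    (by linarith)
  have h1 := countM_of_countN hd (ε := ε / 2) (by linarith) (by linarith) hc hcount
  have h2 : 2 * (ε / 2) = ε := by ring
  rw [h2] at h1
  have h3 := one_le_Cq d k (ε := ε / 2) (by linarith)
  exact ⟨P, _, hP, by positivity, h1⟩

end Pool.GP
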