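import Mathlib

/-!
# Generic projections of finite sets of integer vectors

A random integer matrix, divided by a large number and rounded, is injective on a large subset of
a finite set `V` of `ℤᵈ` with few points in every box (relative to the dimension `k` of the
target).
-/

set_option autoImplicit false

namespace Pool.GP

open Finset

variable {d k : ℕ}

/-- A linear form with coefficients in `{0, …, Q - 1}`. -/
def row (Q : ℕ) (a : Fin d → Fin Q) (x : Fin d → ℤ) : ℤ := ∑ j, ((a j : ℕ) : ℤ) * x j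

/-- The rounded projection. -/
def prj (Q : ℕ) (a : Fin k → Fin d → Fin Q) (x : Fin d → ℤ) : Fin k → ℤ :=
  fun l => row Q (a l) x / ((d : ℤ) * Q)

/-- The distance in the maximum norm. -/
def nrm (x y : Fin d → ℤ) : ℕ := univ.sup fun j => (x j - y j).natAbs

lemma le_nrm (x y : Fin d → ℤ) (j : Fin d) : (x j - y j).natAbs ≤ nrm x y :=
  Finset.le_sup (f := fun j => (x j - y j).natAbs) (mem_univ j)

lemma nrm_le {x y : Fin d → ℤ} {r : ℕ} (h : ∀ j, (x j - y j).natAbs ≤ r) : nrm x y ≤ r :=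
  Finset.sup_le fun j _ => h j

lemma nrm_comm (x y : Fin d → ℤ) : nrm x y = nrm y x := by
  unfold nrm
  congr 1
  funext j
  rw [← Int.natAbs_neg, neg_sub]

lemma exists_nrm {x y : Fin d → ℤ} (hne : x ≠ y) :
    ∃ j, (x j - y j).natAbs = nrm x y ∧ x j - y j ≠ 0 := by
  obtain ⟨j₀, hj₀⟩ := Function.ne_iff.mp hne
  obtain ⟨j, -, hj⟩ := Finset.exists_max_image univ (fun j => (x j - y j).natAbs) ⟨j₀, mem_univ _⟩
  have h1 : (x j - y j).natAbs = nrm x y :=
    le_antisymm (le_nrm x y j) (nrm_le fun i => hj i (mem_univ i))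
  refine ⟨j, h1, ?_⟩
  intro h0
  have h2 := hj j₀ (mem_univ _)
  rw [h0] at h2
  simp only [Int.natAbs_zero, Nat.le_zero, Int.natAbs_eq_zero] at h2
  exact hj₀ (sub_eq_zero.mp h2)

lemma nrm_pos {x y : Fin d → ℤ} (hne : x ≠ y) : 1 ≤ nrm x y := by
  obtain ⟨j, h1, h2⟩ := exists_nrm hne
  rw [← h1]
  exact Nat.one_le_iff_ne_zero.mpr (Int.natAbs_ne_zero.mpr h2)

lemma row_sub (Q : ℕ) (a : Fin d → Fin Q) (x y : Fin d → ℤ) :
    row Q a x - row Q a y = row Q a (fun j => x j - y j) := by
  unfold row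
  rw [← Finset.sum_sub_distrib]
  exact Finset.sum_congr rfl fun j _ => by ring

lemma lt_of_div_eq {x y c : ℤ} (hc : 0 < c) (h : x / c = y / c) : |x - y| < c := by
  have h1 := Int.emod_add_mul_ediv x c
  have h2 := Int.emod_add_mul_ediv y c
  have h3 := Int.emod_nonneg x hc.ne'
  have h4 := Int.emod_lt_of_pos x hc
  have h5 := Int.emod_nonneg y hc.ne'
  have h6 := Int.emod_lt_of_pos y hc
  have h7 : x - y = x % c - y % c := by
    rw [h] at h1
    linarith
  rw [h7, abs_lt]
  constructor <;> linarith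

/-- Few linear forms are small at a given vector. -/
lemma card_row {Q : ℕ} (w : Fin d → ℤ) (j₀ : Fin d) (hw : w j₀ ≠ 0)
    (hwQ : (w j₀).natAbs ≤ Q) :
    (univ.filter fun a : Fin d → Fin Q => |row Q a w| < (d : ℤ) * Q).card * (w j₀).natAbs ≤
      (2 * d + 1) * Q ^ d := by
  classical
  obtain ⟨W, hW⟩ : ∃ W, W = (w j₀).natAbs := ⟨_, rfl⟩
  have hW0 : 0 < W := hW ▸ Int.natAbs_pos.mpr hw
  obtain ⟨S, hS⟩ : ∃ S, S = univ.filter fun a : Fin d → Fin Q => |row Q a w| < (d : ℤ) * Q :=
    ⟨_, rfl⟩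
  obtain ⟨n, hn⟩ : ∃ n, n = 2 * (d * Q) / W + 1 := ⟨_, rfl⟩
  have hfib : ∀ b ∈ S.image (fun a : Fin d → Fin Q => fun j : {j // j ≠ j₀} => a j),
      (S.filter fun a => (fun j : {j // j ≠ j₀} => a j) = b).card ≤ n := by
    intro b hb
    obtain ⟨T, hT⟩ : ∃ T, T = S.filter fun a => (fun j : {j // j ≠ j₀} => a j) = b := ⟨_, rfl⟩
    rw [← hT]
    have hTne : T.Nonempty := by
      obtain ⟨a, ha, hab⟩ := Finset.mem_image.mp hb
      exact ⟨a, by rw [hT, mem_filter]; exact ⟨ha, hab⟩⟩
    obtain ⟨a₀, ha₀, hmin⟩ := Finset.exists_min_image T (fun a => (a j₀ : ℕ)) hTne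
    have hkey : ∀ a ∈ T, (a j₀ : ℕ) ∈ Finset.Icc (a₀ j₀ : ℕ) ((a₀ j₀ : ℕ) + 2 * (d * Q) / W) := by
      intro a ha
      rw [mem_Icc]
      refine ⟨hmin a ha, ?_⟩
      have h1 : |row Q a w| < (d : ℤ) * Q := by
        have : a ∈ S := by rw [hT] at ha; exact (mem_filter.mp ha).1
        rw [hS] at this
        exact (mem_filter.mp this).2
      have h2 : |row Q a₀ w| < (d : ℤ) * Q := by
        have : a₀ ∈ S := by rw [hT] at ha₀; exact (mem_filter.mp ha₀).1
        rw [hS] at this
        exact (mem_filter.mp this).2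
      have h3 : row Q a w - row Q a₀ w = (((a j₀ : ℕ) : ℤ) - ((a₀ j₀ : ℕ) : ℤ)) * w j₀ := by
        unfold row
        rw [← Finset.sum_sub_distrib, ← Finset.add_sum_erase _ _ (mem_univ j₀)]
        have h4 : ∑ j ∈ univ.erase j₀, (((a j : ℕ) : ℤ) * w j - ((a₀ j : ℕ) : ℤ) * w j) = 0 := by
          refine Finset.sum_eq_zero fun j hj => ?_
          have hj' : j ≠ j₀ := (Finset.mem_erase.mp hj).1
          have e1 : a j = b ⟨j, hj'⟩ := by
            have := (mem_filter.mp (hT ▸ ha)).2
            exact congrFun this ⟨j, hj'⟩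
          have e2 : a₀ j = b ⟨j, hj'⟩ := by
            have := (mem_filter.mp (hT ▸ ha₀)).2
            exact congrFun this ⟨j, hj'⟩
          rw [e1, e2, sub_self]
        rw [h4, add_zero]
        ring
      have h5 : |(((a j₀ : ℕ) : ℤ) - ((a₀ j₀ : ℕ) : ℤ)) * w j₀| < 2 * ((d : ℤ) * Q) := by
        rw [← h3]
        have := abs_sub (row Q a w) (row Q a₀ w)
        linarith
      rw [abs_mul] at h5
      have h6 : (((a j₀ : ℕ) : ℤ) - ((a₀ j₀ : ℕ) : ℤ)) * W < 2 * ((d : ℤ) * Q) := by
        have h7 := le_abs_self (((a j₀ : ℕ) : ℤ) - ((a₀ j₀ : ℕ) : ℤ))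
        have h8 : (W : ℤ) = |w j₀| := by rw [hW, Int.natCast_natAbs]
        rw [h8]
        exact lt_of_le_of_lt (mul_le_mul_of_nonneg_right h7 (abs_nonneg _)) h5
      have h9 : ((a j₀ : ℕ) - (a₀ j₀ : ℕ)) ≤ 2 * (d * Q) / W := by
        rw [Nat.le_div_iff_mul_le hW0]
        have h10 := hmin a ha
        zify [h10]
        linarith
      have h10 := hmin a ha
      omega
    have hinj : Set.InjOn (fun a : Fin d → Fin Q => (a j₀ : ℕ)) T := by
      intro a ha a' ha' haa
      funext j
      by_cases hj : j = j₀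
      · subst hj
        exact Fin.val_injective haa
      · have e1 := (mem_filter.mp (hT ▸ (Finset.mem_coe.mp ha))).2
        have e2 := (mem_filter.mp (hT ▸ (Finset.mem_coe.mp ha'))).2
        have e3 := congrFun (e1.trans e2.symm) ⟨j, hj⟩
        exact e3
    have hc := Finset.card_le_card_of_injOn (fun a : Fin d → Fin Q => (a j₀ : ℕ)) hkey hinj
    rw [Nat.card_Icc] at hc
    omega
  have h1 := Finset.card_le_mul_card_image S n hfib
  have h2 : (S.image (fun a : Fin d → Fin Q => fun j : {j // j ≠ j₀} => a j)).card ≤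
      Q ^ (d - 1) := by
    refine (Finset.card_le_univ _).trans (le_of_eq ?_)
    rw [Fintype.card_fun, Fintype.card_fin, Fintype.card_subtype_compl, Fintype.card_fin,
      Fintype.card_subtype_eq]
  have hd : 0 < d := j₀.pos
  have h3 : n * W ≤ (2 * d + 1) * Q := by
    rw [hn, add_mul, one_mul]
    have h4 := Nat.div_mul_le_self (2 * (d * Q)) W
    have h5 : W ≤ Q := hW ▸ hwQ
    nlinarith
  rw [← hS, ← hW]
  calc S.card * W ≤ n * (S.image (fun a : Fin d → Fin Q =>
          fun j : {j // j ≠ j₀} => a j)).card * W := Nat.mul_le_mul_right _ h1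
    _ ≤ n * Q ^ (d - 1) * W := by gcongr
    _ = n * W * Q ^ (d - 1) := by ring
    _ ≤ (2 * d + 1) * Q * Q ^ (d - 1) := Nat.mul_le_mul_right _ h3
    _ = (2 * d + 1) * Q ^ d := by
        rw [mul_assoc, ← pow_succ', Nat.sub_add_cancel hd]

/-- Few matrices identify two given vectors. -/
lemma card_coll {Q : ℕ} (hQ : 0 < Q) {x y : Fin d → ℤ} (hne : x ≠ y) (hxy : nrm x y ≤ Q) :
    (univ.filter fun a : Fin k → Fin d → Fin Q => prj Q a x = prj Q a y).card * nrm x y ^ k ≤
      ((2 * d + 1) * Q ^ d) ^ k := by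
  classical
  obtain ⟨j₀, h1, h2⟩ := exists_nrm hne
  have hd : 0 < d := j₀.pos
  have hsub : (univ.filter fun a : Fin k → Fin d → Fin Q => prj Q a x = prj Q a y) ⊆
      Fintype.piFinset fun _ : Fin k => univ.filter fun a : Fin d → Fin Q =>
        |row Q a (fun j => x j - y j)| < (d : ℤ) * Q := by
    intro a ha
    rw [Fintype.mem_piFinset]
    intro l
    rw [mem_filter]
    refine ⟨mem_univ _, ?_⟩
    rw [← row_sub]
    refine lt_of_div_eq (by positivity) ?_
    exact congrFun (mem_filter.mp ha).2 l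
  have h3 := Finset.card_le_card hsub
  rw [Fintype.card_piFinset, Finset.prod_const, Finset.card_univ, Fintype.card_fin] at h3
  have h4 := card_row (fun j => x j - y j) j₀ h2 (h1 ▸ hxy)
  simp only [h1] at h4
  calc _ ≤ (univ.filter fun a : Fin d → Fin Q =>
        |row Q a (fun j => x j - y j)| < (d : ℤ) * Q).card ^ k * nrm x y ^ k :=
        Nat.mul_le_mul_right _ h3
    _ = ((univ.filter fun a : Fin d → Fin Q =>
        |row Q a (fun j => x j - y j)| < (d : ℤ) * Q).card * nrm x y) ^ k := by rw [mul_pow]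
    _ ≤ _ := Nat.pow_le_pow_left h4 k

/-- A function with `#{f ≥ t} ≤ M / t` has a sum of at most `M (1 + log n)`. -/
lemma harm_sum {α : Type*} [DecidableEq α] {M : ℝ} :
    ∀ (n : ℕ) (s : Finset α) (f : α → ℝ), s.card = n → (∀ z ∈ s, 0 ≤ f z) →
    (∀ z ∈ s, ((s.filter fun y => f z ≤ f y).card : ℝ) * f z ≤ M) →
    ∑ z ∈ s, f z ≤ M * (harmonic n : ℝ) := by
  intro n
  induction n with
  | zero =>
    intro s f hs _ _
    rw [Finset.card_eq_zero.mp hs]
    simp
  | succ n ih =>
    intro s f hs hf h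
    have hne : s.Nonempty := by
      rw [← Finset.card_pos, hs]; omega
    obtain ⟨z, hz, hmin⟩ := Finset.exists_min_image s f hne
    have h1 : ((n : ℝ) + 1) * f z ≤ M := by
      have h2 := h z hz
      have h3 : (s.filter fun y => f z ≤ f y) = s :=
        Finset.filter_true_of_mem fun y hy => hmin y hy
      rw [h3, hs] at h2
      push_cast at h2
      exact h2
    have h4 := ih (s.erase z) f (by rw [Finset.card_erase_of_mem hz, hs]; rfl)
      (fun x hx => hf x (Finset.mem_erase.mp hx).2) (by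
      intro x hx
      have hx' := (Finset.mem_erase.mp hx).2
      refine le_trans ?_ (h x hx')
      have : ((s.erase z).filter fun y => f x ≤ f y).card ≤ (s.filter fun y => f x ≤ f y).card :=
        Finset.card_le_card (Finset.filter_subset_filter _ (Finset.erase_subset _ _))
      have h5 : (((s.erase z).filter fun y => f x ≤ f y).card : ℝ) ≤
        (s.filter fun y => f x ≤ f y).card := by exact_mod_cast this
      exact mul_le_mul_of_nonneg_right h5 (hf x hx'))
    rw [← Finset.add_sum_erase s f hz, harmonic_succ]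
    have h5 : f z ≤ M * ((n : ℝ) + 1)⁻¹ := by
      rw [← div_eq_mul_inv, le_div_iff₀ (by positivity)]
      linarith
    push_cast
    linarith

/-- Few elements of `V` in every box. -/
def Cnc (k : ℕ) (M : ℝ) (V : Finset (Fin d → ℤ)) : Prop :=
  ∀ x ∈ V, ∀ r : ℕ, 1 ≤ r → ((V.filter fun y => nrm y x ≤ r).card : ℝ) ≤ M * (r : ℝ) ^ k

lemma Cnc.mono {M : ℝ} {V V' : Finset (Fin d → ℤ)} (h : Cnc k M V) (hV : V' ⊆ V) :
    Cnc k M V' := by
  intro x hx r hr
  refine le_trans ?_ (h x (hV hx) r hr)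
  exact_mod_cast Finset.card_le_card (Finset.filter_subset_filter _ hV)

lemma Cnc.one_le {M : ℝ} {V : Finset (Fin d → ℤ)} (h : Cnc k M V) (hV : V.Nonempty) :
    1 ≤ M := by
  obtain ⟨x, hx⟩ := hV
  have h1 := h x hx 1 le_rfl
  rw [Nat.cast_one, one_pow, mul_one] at h1
  refine le_trans ?_ h1
  have : 1 ≤ (V.filter fun y => nrm y x ≤ 1).card := by
    rw [Nat.one_le_iff_ne_zero, Finset.card_ne_zero]
    refine ⟨x, mem_filter.mpr ⟨hx, nrm_le fun j => ?_⟩⟩
    simp
  exact_mod_cast this

/-- The sum of the probabilities of collision with a given vector. -/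
lemma sum_nrm {M : ℝ} {V : Finset (Fin d → ℤ)} (h : Cnc k M V) {x : Fin d → ℤ} (hx : x ∈ V) :
    ∑ y ∈ V.erase x, ((nrm y x : ℝ) ^ k)⁻¹ ≤ M * (harmonic V.card : ℝ) := by
  classical
  have hM : 1 ≤ M := h.one_le ⟨x, hx⟩
  refine (harm_sum (M := M) (V.erase x).card (V.erase x) (fun y => ((nrm y x : ℝ) ^ k)⁻¹) rfl
    (fun z _ => by positivity) ?_).trans ?_
  · intro z hz
    have hz' := Finset.mem_erase.mp hz
    have h1 : 1 ≤ nrm z x := nrm_pos hz'.1
    have h1' : (0 : ℝ) < nrm z x := by exact_mod_cast h1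
    have h2 : (((V.erase x).filter fun y => ((nrm z x : ℝ) ^ k)⁻¹ ≤ ((nrm y x : ℝ) ^ k)⁻¹).card
        : ℝ) ≤ M * (nrm z x : ℝ) ^ k := by
      rcases Nat.eq_zero_or_pos k with hk | hk
      · -- target of dimension 0
        subst hk
        have h3 := h x hx (V.sup fun y => nrm y x) ?_
        · refine le_trans ?_ (h3.trans (le_of_eq (by simp)))
          have : ((V.erase x).filter fun y => ((nrm z x : ℝ) ^ 0)⁻¹ ≤ ((nrm y x : ℝ) ^ 0)⁻¹) ⊆
              V.filter fun y => nrm y x ≤ V.sup fun y => nrm y x := by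
            intro y hy
            rw [mem_filter, Finset.mem_erase] at hy
            exact mem_filter.mpr ⟨hy.1.2, Finset.le_sup (f := fun y => nrm y x) hy.1.2⟩
          exact_mod_cast Finset.card_le_card this
        · exact h1.trans (Finset.le_sup (f := fun y => nrm y x) hz'.2)
      · refine le_trans ?_ (h x hx (nrm z x) h1)
        have : ((V.erase x).filter fun y => ((nrm z x : ℝ) ^ k)⁻¹ ≤ ((nrm y x : ℝ) ^ k)⁻¹) ⊆
            V.filter fun y => nrm y x ≤ nrm z x := by
          intro y hy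
          rw [mem_filter, Finset.mem_erase] at hy
          refine mem_filter.mpr ⟨hy.1.2, ?_⟩
          have h4 : (0 : ℝ) < nrm y x := by exact_mod_cast nrm_pos hy.1.1
          have h5 := (inv_le_inv₀ (by positivity) (by positivity)).mp hy.2
          have h6 := (pow_le_pow_iff_left₀ h4.le h1'.le (by omega)).mp h5
          exact_mod_cast h6
        exact_mod_cast Finset.card_le_card this
    calc _ ≤ M * (nrm z x : ℝ) ^ k * ((nrm z x : ℝ) ^ k)⁻¹ :=
          mul_le_mul_of_nonneg_right h2 (by positivity)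
      _ = M := by rw [mul_assoc, mul_inv_cancel₀ (by positivity), mul_one]
  · refine mul_le_mul_of_nonneg_left ?_ (by linarith)
    have h3 : (V.erase x).card ≤ V.card := Finset.card_le_card (Finset.erase_subset _ _)
    have h4 : harmonic (V.erase x).card ≤ harmonic V.card := by
      unfold harmonic
      exact Finset.sum_le_sum_of_subset_of_nonneg (Finset.range_mono h3)
        (fun i _ _ => by positivity)
    exact_mod_cast h4

/-- The constant of the projection lemma. -/
noncomputable def Cp (d k n : ℕ) (M : ℝ) : ℝ := 1 + (2 * (d : ℝ) + 1) ^ k * M * (harmonic n : ℝ)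

/-- Some matrix has few collisions. -/
lemma exists_mat {Q : ℕ} (hQ : 0 < Q) {M : ℝ} {V : Finset (Fin d → ℤ)} (h : Cnc k M V)
    (hV : ∀ x ∈ V, ∀ y ∈ V, nrm x y ≤ Q) :
    ∃ a : Fin k → Fin d → Fin Q, (((V ×ˢ V).filter fun p => prj Q a p.1 = prj Q a p.2).card : ℝ) ≤
      Cp d k V.card M * V.card := by
  classical
  by_contra hcon
  push Not at hcon
  obtain ⟨N, hN⟩ : ∃ N : ℝ, N = ((Q : ℝ) ^ d) ^ k := ⟨_, rfl⟩
  have hQr : (0 : ℝ) < Q := by exact_mod_cast hQ
  have hN0 : 0 < N := by rw [hN]; positivity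
  have hcardT : ((univ : Finset (Fin k → Fin d → Fin Q)).card : ℝ) = N := by
    rw [Finset.card_univ, Fintype.card_fun, Fintype.card_fun, Fintype.card_fin, Fintype.card_fin,
      Fintype.card_fin, hN]
    push_cast
    rfl
  have h1 : N * (Cp d k V.card M * V.card) <
      ∑ a : Fin k → Fin d → Fin Q,
        (((V ×ˢ V).filter fun p => prj Q a p.1 = prj Q a p.2).card : ℝ) := by
    have hne : (univ : Finset (Fin k → Fin d → Fin Q)).Nonempty := by
      rw [← Finset.card_pos]
      have : (0 : ℝ) < ((univ : Finset (Fin k → Fin d → Fin Q)).card : ℝ) := by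
        rw [hcardT]; exact hN0
      exact_mod_cast this
    have := Finset.sum_lt_sum_of_nonempty hne (fun a _ => hcon a)
    rwa [Finset.sum_const, nsmul_eq_mul, hcardT] at this
  have h2 : ∑ a : Fin k → Fin d → Fin Q,
      (((V ×ˢ V).filter fun p => prj Q a p.1 = prj Q a p.2).card : ℝ) =
      ∑ p ∈ V ×ˢ V, ((univ.filter fun a : Fin k → Fin d → Fin Q =>
        prj Q a p.1 = prj Q a p.2).card : ℝ) := by
    simp_rw [Finset.card_filter]
    push_cast
    rw [Finset.sum_comm]
  have h3 : ∑ p ∈ V ×ˢ V, ((univ.filter fun a : Fin k → Fin d → Fin Q =>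
        prj Q a p.1 = prj Q a p.2).card : ℝ) ≤ N * (Cp d k V.card M * V.card) := by
    rw [Finset.sum_product_right]
    have h4 : ∀ x ∈ V, ∑ y ∈ V, ((univ.filter fun a : Fin k → Fin d → Fin Q =>
        prj Q a y = prj Q a x).card : ℝ) ≤ N * Cp d k V.card M := by
      intro x hx
      rw [← Finset.add_sum_erase _ _ hx]
      have h5 : ((univ.filter fun a : Fin k → Fin d → Fin Q =>
          prj Q a x = prj Q a x).card : ℝ) = N := by
        rw [Finset.filter_true_of_mem (fun _ _ => rfl), hcardT]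
      have h6 : ∑ y ∈ V.erase x, ((univ.filter fun a : Fin k → Fin d → Fin Q =>
          prj Q a y = prj Q a x).card : ℝ) ≤
          ∑ y ∈ V.erase x, (2 * (d : ℝ) + 1) ^ k * N * ((nrm y x : ℝ) ^ k)⁻¹ := by
        refine Finset.sum_le_sum fun y hy => ?_
        have hy' := Finset.mem_erase.mp hy
        have h7 := card_coll (k := k) hQ hy'.1 (hV y hy'.2 x hx)
        have h8 : (0 : ℝ) < (nrm y x : ℝ) ^ k := by
          have : (0 : ℝ) < nrm y x := by exact_mod_cast nrm_pos hy'.1
          positivity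
        rw [← div_eq_mul_inv, le_div_iff₀ h8, hN]
        have h9 : (((univ.filter fun a : Fin k → Fin d → Fin Q =>
          prj Q a y = prj Q a x).card * nrm y x ^ k : ℕ) : ℝ) ≤
          ((((2 * d + 1) * Q ^ d) ^ k : ℕ) : ℝ) := by exact_mod_cast h7
        push_cast at h9
        rw [mul_pow] at h9
        exact h9
      rw [h5]
      have h7 := sum_nrm h hx
      rw [← Finset.mul_sum] at h6
      calc N + ∑ y ∈ V.erase x, ((univ.filter fun a : Fin k → Fin d → Fin Q =>
          prj Q a y = prj Q a x).card : ℝ)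
          ≤ N + (2 * (d : ℝ) + 1) ^ k * N * (M * (harmonic V.card : ℝ)) := by
            refine add_le_add le_rfl (h6.trans ?_)
            exact mul_le_mul_of_nonneg_left h7 (by positivity)
        _ = N * Cp d k V.card M := by unfold Cp; ring
    calc _ ≤ ∑ _x ∈ V, N * Cp d k V.card M := Finset.sum_le_sum h4
      _ = N * (Cp d k V.card M * V.card) := by
          rw [Finset.sum_const, nsmul_eq_mul]; ring
  rw [h2] at h1
  exact absurd h3 (not_le.mpr h1)

/-- **The projection lemma.** -/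
theorem exists_proj {Q : ℕ} (hQ : 0 < Q) {M : ℝ} {V : Finset (Fin d → ℤ)} (h : Cnc k M V)
    (hV : ∀ x ∈ V, ∀ y ∈ V, nrm x y ≤ Q) :
    ∃ (a : Fin k → Fin d → Fin Q) (V' : Finset (Fin d → ℤ)), V' ⊆ V ∧
      Set.InjOn (prj Q a) V' ∧ (V.card : ℝ) ≤ Cp d k V.card M * V'.card := by
  classical
  obtain ⟨a, ha⟩ := exists_mat hQ h hV
  rcases V.eq_empty_or_nonempty with hVe | hVne
  · refine ⟨a, ∅, Finset.empty_subset _, by simp, ?_⟩
    simp [hVe]
  obtain ⟨I, hI⟩ : ∃ I, I = V.image (prj Q a) := ⟨_, rfl⟩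
  have hrep : ∀ z ∈ I, ∃ x ∈ V, prj Q a x = z := fun z hz => by
    rw [hI] at hz
    exact Finset.mem_image.mp hz
  choose! g hg1 hg2 using hrep
  have hginj : Set.InjOn g I := by
    intro z hz z' hz' hzz
    rw [← hg2 z hz, ← hg2 z' hz', hzz]
  refine ⟨a, I.image g, ?_, ?_, ?_⟩
  · intro x hx
    obtain ⟨z, hz, rfl⟩ := Finset.mem_image.mp hx
    exact hg1 z hz
  · intro x hx x' hx' hxx
    obtain ⟨z, hz, rfl⟩ := Finset.mem_image.mp (Finset.mem_coe.mp hx)
    obtain ⟨z', hz', rfl⟩ := Finset.mem_image.mp (Finset.mem_coe.mp hx')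
    rw [hg2 z hz, hg2 z' hz'] at hxx
    rw [hxx]
  · rw [Finset.card_image_of_injOn hginj]
    have h1 : (V.card : ℝ) = ∑ z ∈ I, ((V.filter fun x => prj Q a x = z).card : ℝ) := by
      have := Finset.card_eq_sum_card_fiberwise (s := V) (t := I) (f := prj Q a)
        (fun x hx => by
          rw [hI]
          exact Finset.mem_coe.mpr (Finset.mem_image_of_mem _ hx))
      exact_mod_cast this
    have h2 : (((V ×ˢ V).filter fun p => prj Q a p.1 = prj Q a p.2).card : ℝ) =
        ∑ z ∈ I, ((V.filter fun x => prj Q a x = z).card : ℝ) ^ 2 := by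
      have h3 : ((V ×ˢ V).filter fun p => prj Q a p.1 = prj Q a p.2).card =
          ∑ z ∈ I, (((V ×ˢ V).filter fun p => prj Q a p.1 = prj Q a p.2).filter
            fun p => prj Q a p.1 = z).card := by
        refine Finset.card_eq_sum_card_fiberwise fun p hp => ?_
        rw [hI]
        have := (mem_filter.mp (Finset.mem_coe.mp hp)).1
        exact Finset.mem_coe.mpr (Finset.mem_image_of_mem _ (Finset.mem_product.mp this).1)
      rw [h3]
      push_cast
      refine Finset.sum_congr rfl fun z _ => ?_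
      rw [sq, ← Nat.cast_mul, ← Finset.card_product]
      congr 2
      ext p
      simp only [mem_filter, Finset.mem_product]
      constructor
      · rintro ⟨⟨⟨h4, h5⟩, h6⟩, h7⟩
        exact ⟨⟨h4, h7⟩, h5, h6 ▸ h7⟩
      · rintro ⟨⟨h4, h5⟩, h6, h7⟩
        exact ⟨⟨⟨h4, h6⟩, h5.trans h7.symm⟩, h5⟩
    have h3 : (V.card : ℝ) ^ 2 ≤ I.card * (Cp d k V.card M * V.card) := by
      rw [h1]
      refine (sq_sum_le_card_mul_sum_sq).trans ?_
      rw [← h2, ← h1]
      exact mul_le_mul_of_nonneg_left ha (Nat.cast_nonneg _)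
    have h4 : (0 : ℝ) < V.card := by exact_mod_cast Finset.card_pos.mpr hVne
    have h5 : (V.card : ℝ) * V.card ≤ Cp d k V.card M * I.card * V.card := by
      calc (V.card : ℝ) * V.card = (V.card : ℝ) ^ 2 := by ring
        _ ≤ _ := h3
        _ = _ := by ring
    exact le_of_mul_le_mul_right h5 h4

end Pool.GP
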