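import Pool.Agent.H94.GP.Tub
import Pool.Agent.H73.KFIN.Typ
import Pool.Agent.H73.KFIN.Final1

/-!
# Density bounds for families of tubes with few directions in every ball

The proofs follow `Pool.Agent.H73.KFIN.FinalN`.
-/

set_option autoImplicit false

namespace Pool.GP

open Finset Real MeasureTheory Filter
open scoped RealInnerProductSpace ENNReal Topology
open Pool.STK (mlt)
open Pool.Agent.H53.Kak (E tube Fam)
open Pool.Agent.H32.Dense Pool.Agent.H53.Dns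

variable {d k : ℕ}

/-- Density bound for tubes with a small power of the number of tubes as the only loss. -/
theorem densM_of_countM {ε P c₀ : ℝ} (hε : 0 < ε) (hε1 : ε < 1) (hP : 1 ≤ P) (hc : 0 < c₀)
    (h : CountM d k ε P c₀) :
    ∃ c : ℝ, 0 < c ∧ ∀ δ : ℝ, 0 < δ → δ < 1 → ∀ (ι : Type) (S : Finset ι)
    (x₀ e : ι → E d), Fam δ e S → ∀ M : ℝ, CncT k δ M e S → ∀ (X : Set (E d)),
    MeasurableSet X → ∀ lam : ℝ, 0 < lam → lam ≤ 1 →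
    (∀ i ∈ S, ENNReal.ofReal (lam * δ ^ d) ≤ volume (X ∩ tube δ (x₀ i) (e i))) →
    ENNReal.ofReal (c * (lam ^ (P + 1) * δ ^ d * ((S.card : ℝ) ^ (1 - ε) / M))) ≤ volume X := by
  classical
  obtain ⟨c₀', hc₀'⟩ : ∃ c : ℝ, c = c₀ / (8 * ((d : ℝ) + 1)) ^ k := ⟨_, rfl⟩
  have hc' : 0 < c₀' := by rw [hc₀']; positivity
  have hd0 : (0 : ℝ) ≤ d := Nat.cast_nonneg d
  have hCv := Cv_pos d
  have hCw := one_le_Cw d
  have hCw0 : 0 < Cw d := by linarith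
  have hη0 : 0 < 1 / (P + 1) := by positivity
  obtain ⟨m₀, hm₀⟩ : ∃ m₀ : ℕ, 10 * Cv d < 2 ^ m₀ := pow_unbounded_of_one_lt _ (by norm_num)
  obtain ⟨A₁, hA₁⟩ : ∃ A₁ : ℝ, A₁ = m₀ + 1 + 2 / (1 / (P + 1)) := ⟨_, rfl⟩
  have hA₁0 : 0 < A₁ := by rw [hA₁]; positivity
  obtain ⟨c₁, hc₁⟩ : ∃ c₁ : ℝ, c₁ = c₀' * (Cv d / 4) * (16 * Cv d) ^ (-P) * (Cw d)⁻¹ *
    (2 * ((d : ℝ) + 1))⁻¹ := ⟨_, rfl⟩
  have hc₁0 : 0 < c₁ := by rw [hc₁]; positivity
  refine ⟨c₁ * (A₁ ^ (P + 1))⁻¹ / 2 / 11 ^ d, by positivity, ?_⟩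
  intro δ hδ hδ1 ι S c e hF D hD X hX lam hlam hlam1 hvol
  rcases S.eq_empty_or_nonempty with rfl | hSne
  · rw [Finset.card_empty, Nat.cast_zero, Real.zero_rpow (by linarith), zero_div, mul_zero,
      mul_zero, ENNReal.ofReal_zero]
    exact bot_le
  have hD1 : 1 ≤ D := hD.one_le hδ hSne
  have hD0 : 0 < D := by linarith
  have hl2 : 0 < lam / 2 := by positivity
  have hl21 : lam / 2 < 1 := by linarith
  obtain ⟨S₁, hS1, hS2⟩ := Pool.Agent.H53.Kak.num_levels hl2 hl21 hη0 m₀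
  rw [← hA₁] at hS2
  have hlinv : 1 < (lam / 2)⁻¹ := (one_lt_inv₀ hl2).mpr hl21
  have hS₁ : 0 < S₁ := by
    rcases Nat.eq_zero_or_pos S₁ with h0 | h0
    · rw [h0, pow_zero] at hS1
      have : (1 : ℝ) ≤ 2 ^ m₀ := one_le_pow₀ (by norm_num)
      nlinarith
    · exact h0
  have hS : 5 * (Cv d * (1 / 2) ^ S₁) ≤ lam / 2 := by
    have h1 : 10 * Cv d * (lam / 2)⁻¹ ≤ 2 ^ S₁ := by
      refine le_trans ?_ hS1.le
      gcongr
    have h2 : 10 * Cv d ≤ lam / 2 * 2 ^ S₁ := by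
      calc 10 * Cv d = lam / 2 * (10 * Cv d * (lam / 2)⁻¹) := by field_simp
        _ ≤ _ := by gcongr
    rw [one_div, inv_pow]
    have h3 : 5 * (Cv d * ((2 : ℝ) ^ S₁)⁻¹) ≤ lam / 2 / 2 := by
      rw [← div_eq_mul_inv, ← mul_div_assoc, div_le_iff₀ (by positivity)]
      linarith
    linarith
  have hS₁r : (0 : ℝ) < S₁ := by exact_mod_cast hS₁
  have h11 : (0 : ℝ) < 11 ^ d := by positivity
  have hb : 0 < 1 - ε := by linarith
  have ha : (1 : ℝ) ≤ 1 / (1 - ε) := by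
    rw [one_le_div hb]; linarith
  obtain ⟨M, hM⟩ : ∃ M : ℝ, M = lam ^ P * δ ^ d * (S.card : ℝ) ^ (1 - ε) := ⟨_, rfl⟩
  have hM0 : 0 ≤ M := by rw [hM]; positivity
  -- for every positive loss in `δ`
  have hall : ∀ t : ℝ, 0 < t → ENNReal.ofReal (c₁ / D * ((S₁ : ℝ) ^ (P + 1))⁻¹ * δ ^ t * M) ≤
      ((11 ^ d : ℕ) : ℝ≥0∞) * volume X := by
    intro t ht
    have hmain := restr_mainH (H := Cnc k ((8 * ((d : ℝ) + 1)) ^ k * D))
      (fun V V' hV hc => hc.mono hV)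
      (a := 1 / (1 - ε)) (P := P) (ε := t) (c₀ := c₀' / D) ha hP ht (by positivity) (by
      intro m N u v A κ hκ hinj hHv hv hA hcard
      refine le_trans ?_ (h m N u v A κ _ hκ hinj hHv hv hA hcard)
      rw [one_div_one_div]
      have h1 : ((2 : ℝ) ^ m) ^ (-t) ≤ 1 :=
        Real.rpow_le_one_of_one_le_of_nonpos (one_le_pow₀ (by norm_num)) (by linarith)
      calc c₀' / D * ((2 : ℝ) ^ m) ^ (-t) * (2 ^ m * κ ^ P * (N : ℝ) ^ (1 - ε)) ≤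
            c₀' / D * 1 * (2 ^ m * κ ^ P * (N : ℝ) ^ (1 - ε)) := by gcongr
        _ = _ := by rw [hc₀']; field_simp) hδ hδ1 S hSne c e hF
      (fun k' L m hLS hmx hsgn hm => cnc_of_tubes hδ hF.unit hD k' L m hLS hmx hsgn hm)
      hX hlam hvol hS₁ hS
    rw [one_div_one_div, ← hM] at hmain
    refine le_trans (ENNReal.ofReal_le_ofReal (le_of_eq ?_)) hmain
    rw [hc₁]
    ring
  have hlim : ENNReal.ofReal (c₁ / D * ((S₁ : ℝ) ^ (P + 1))⁻¹ * M) ≤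
      ((11 ^ d : ℕ) : ℝ≥0∞) * volume X := by
    have hcont : Continuous fun t : ℝ =>
        ENNReal.ofReal (c₁ / D * ((S₁ : ℝ) ^ (P + 1))⁻¹ * δ ^ t * M) :=
      ENNReal.continuous_ofReal.comp
        (((Real.continuous_const_rpow hδ.ne').const_mul _).mul_const M)
    have ht := (hcont.tendsto 0).mono_left (nhdsWithin_le_nhds (s := Set.Ioi (0 : ℝ)))
    rw [Real.rpow_zero, mul_one] at ht
    refine le_of_tendsto ht ?_
    filter_upwards [self_mem_nhdsWithin] with t ht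
    exact hall t ht
  have h2 : (S₁ : ℝ) ^ (P + 1) ≤ A₁ ^ (P + 1) * (lam / 2)⁻¹ := by
    calc (S₁ : ℝ) ^ (P + 1) ≤ (A₁ * (lam / 2) ^ (-(1 / (P + 1)))) ^ (P + 1) := by gcongr
      _ = A₁ ^ (P + 1) * (lam / 2)⁻¹ := by
          rw [Real.mul_rpow hA₁0.le (by positivity), ← Real.rpow_mul hl2.le]
          have : -(1 / (P + 1)) * (P + 1) = -1 := by field_simp
          rw [this, Real.rpow_neg_one]
  have h3 : (A₁ ^ (P + 1))⁻¹ * (lam / 2) ≤ ((S₁ : ℝ) ^ (P + 1))⁻¹ := by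
    have h5 : (A₁ ^ (P + 1) * (lam / 2)⁻¹)⁻¹ ≤ ((S₁ : ℝ) ^ (P + 1))⁻¹ :=
      inv_anti₀ (by positivity) h2
    rwa [mul_inv, inv_inv] at h5
  have h6 : ENNReal.ofReal (c₁ * (A₁ ^ (P + 1))⁻¹ / 2 / 11 ^ d *
      (lam ^ (P + 1) * δ ^ d * ((S.card : ℝ) ^ (1 - ε) / D))) *
      ((11 ^ d : ℕ) : ℝ≥0∞) ≤ ((11 ^ d : ℕ) : ℝ≥0∞) * volume X := by
    refine le_trans ?_ hlim
    have h7 : ((11 ^ d : ℕ) : ℝ≥0∞) = ENNReal.ofReal (11 ^ d) := by
      rw [← ENNReal.ofReal_natCast]; push_cast; rfl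
    rw [h7, ← ENNReal.ofReal_mul (by positivity)]
    apply ENNReal.ofReal_le_ofReal
    have h8 : lam ^ (P + 1) = lam ^ P * lam := by
      rw [Real.rpow_add hlam, Real.rpow_one]
    calc c₁ * (A₁ ^ (P + 1))⁻¹ / 2 / 11 ^ d *
          (lam ^ (P + 1) * δ ^ d * ((S.card : ℝ) ^ (1 - ε) / D)) * 11 ^ d
        = c₁ / D * ((A₁ ^ (P + 1))⁻¹ * (lam / 2)) * M := by
          rw [h8, hM]; field_simp
      _ ≤ c₁ / D * ((S₁ : ℝ) ^ (P + 1))⁻¹ * M := by gcongr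
  rw [mul_comm] at h6
  have h8 : ((11 ^ d : ℕ) : ℝ≥0∞) ≠ 0 := by
    have : (11 ^ d : ℕ) ≠ 0 := by positivity
    exact_mod_cast this
  exact (ENNReal.mul_le_mul_iff_right h8 (ENNReal.natCast_ne_top _)).mp h6

/-- Density bounds for families of tubes with few directions in every ball. -/
def DensM (d k : ℕ) : Prop :=
  ∀ ε : ℝ, 0 < ε → ε < 1 → ∃ c P : ℝ, 0 < c ∧ 0 ≤ P ∧ ∀ δ : ℝ, 0 < δ → δ < 1 →
    ∀ (ι : Type) (S : Finset ι) (x₀ e : ι → E d), Fam δ e S → ∀ M : ℝ, CncT k δ M e S →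
    ∀ (X : Set (E d)), MeasurableSet X → ∀ lam : ℝ, 0 < lam → lam ≤ 1 →
    (∀ i ∈ S, ENNReal.ofReal (lam * δ ^ d) ≤ volume (X ∩ tube δ (x₀ i) (e i))) →
    ENNReal.ofReal (c * (lam ^ P * δ ^ d * ((S.card : ℝ) ^ (1 - ε) / M))) ≤ volume X

/-- **Density bounds by projection.** -/
theorem densM_of_KP (hd : 0 < d) (h : Pool.KA.KP k) : DensM d k := by
  intro ε hε hε1
  have hk0 : (0 : ℝ) ≤ k := Nat.cast_nonneg k
  obtain ⟨P, c₀, hP1, hc, hcount⟩ := countM_of_KP (d := d) hd h hε hε1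
  obtain ⟨c, hc0, hmain⟩ := densM_of_countM hε hε1 (by linarith) hc hcount
  exact ⟨c, P + 1, hc0, by linarith, hmain⟩

end Pool.GP
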