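import Pool.Agent.H94.GP.Tub
import Pool.Agent.H53.Kak.Norm
import Pool.Agent.H55.Dense.HDim

/-!
# Projections of tubes

The projection of a tube of `ℝ ^ (d + 1)` to `ℝ ^ (k + 1)` is contained in a bounded number of tubes.
-/

set_option autoImplicit false

open MeasureTheory ENNReal
open scoped RealInnerProductSpace

namespace Pool.GP

open Pool.Agent.H53.Kak Pool.Agent.H53.Dns
open Pool.Agent.H55.HDim (om om_pos volume_closedBall_eq volume_ball_eq)

variable {d k : ℕ} {ι : Type}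

/-- The projection to `ℝ ^ (k + 1)`; the coordinate `κ` is preserved. -/
noncomputable def prE (κ : Fin (d + 1)) (Q : ℕ) (a : Fin k → Fin d → Fin Q) (x : E d) : E k :=
  WithLp.toLp 2 (Fin.cons (x κ) (fun l => prr Q a (fun r => x (κ.succAbove r)) l) :
    Fin (k + 1) → ℝ)

lemma prE_zero (κ : Fin (d + 1)) (Q : ℕ) (a : Fin k → Fin d → Fin Q) (x : E d) :
    prE κ Q a x 0 = x κ := rfl

lemma prE_succ (κ : Fin (d + 1)) (Q : ℕ) (a : Fin k → Fin d → Fin Q) (x : E d) (l : Fin k) :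
    prE κ Q a x l.succ = prr Q a (fun r => x (κ.succAbove r)) l := rfl

lemma prE_sub (κ : Fin (d + 1)) (Q : ℕ) (a : Fin k → Fin d → Fin Q) (x y : E d) :
    prE κ Q a (x - y) = prE κ Q a x - prE κ Q a y := by
  ext i
  refine Fin.cases ?_ (fun l => ?_) i
  · rw [PiLp.sub_apply, prE_zero, prE_zero, prE_zero, PiLp.sub_apply]
  · rw [PiLp.sub_apply, prE_succ, prE_succ, prE_succ, prr_sub]
    rfl

lemma prE_smul (κ : Fin (d + 1)) (Q : ℕ) (a : Fin k → Fin d → Fin Q) (t : ℝ) (x : E d) :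
    prE κ Q a (t • x) = t • prE κ Q a x := by
  ext i
  refine Fin.cases ?_ (fun l => ?_) i
  · rw [PiLp.smul_apply, prE_zero, prE_zero, PiLp.smul_apply]
  · rw [PiLp.smul_apply, prE_succ, prE_succ, smul_eq_mul]
    unfold prr
    simp only [PiLp.smul_apply, smul_eq_mul]
    rw [mul_div_assoc', Finset.mul_sum]
    congr 1
    exact Finset.sum_congr rfl fun r _ => by ring

lemma norm_prE_le {κ : Fin (d + 1)} {Q : ℕ} (hQ : 0 < Q) (hd : 0 < d)
    (a : Fin k → Fin d → Fin Q) (x : E d) : ‖prE κ Q a x‖ ≤ ((k : ℝ) + 1) * ‖x‖ := by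
  refine norm_le_of_coord (norm_nonneg x) fun i => ?_
  refine Fin.cases ?_ (fun l => ?_) i
  · rw [prE_zero]
    exact coord_le x κ
  · rw [prE_succ]
    exact abs_prr_le hQ hd a (fun r => coord_le x (κ.succAbove r)) l

lemma le_norm_prE {κ : Fin (d + 1)} {Q : ℕ} (a : Fin k → Fin d → Fin Q) (x : E d) :
    |x κ| ≤ ‖prE κ Q a x‖ := by
  have := coord_le (prE κ Q a x) 0
  rwa [prE_zero] at this

/-- The direction of the projected tube. -/
noncomputable def prD (κ : Fin (d + 1)) (Q : ℕ) (a : Fin k → Fin d → Fin Q) (e : E d) : E k :=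
  (‖prE κ Q a e‖)⁻¹ • prE κ Q a e

lemma prE_pos {κ : Fin (d + 1)} {Q : ℕ} (a : Fin k → Fin d → Fin Q) {e : E d} (h : Mx κ e)
    (he : ‖e‖ = 1) : 0 < ‖prE κ Q a e‖ :=
  lt_of_lt_of_le (abs_pos.mpr (h.ne he)) (le_norm_prE a e)

lemma norm_prD {κ : Fin (d + 1)} {Q : ℕ} (a : Fin k → Fin d → Fin Q) {e : E d} (h : Mx κ e)
    (he : ‖e‖ = 1) : ‖prD κ Q a e‖ = 1 := by
  have h1 := prE_pos a h he
  rw [prD, norm_smul, norm_inv, norm_norm, inv_mul_cancel₀ h1.ne']

lemma prE_eq {κ : Fin (d + 1)} {Q : ℕ} (a : Fin k → Fin d → Fin Q) {e : E d} (h : Mx κ e)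
    (he : ‖e‖ = 1) : prE κ Q a e = ‖prE κ Q a e‖ • prD κ Q a e := by
  have h1 := prE_pos a h he
  rw [prD, smul_smul, mul_inv_cancel₀ h1.ne', one_smul]

/-- A point near the axis of a tube. -/
lemma mem_tube_of {η t : ℝ} {c w ω z : E k} (hw : ‖w‖ = 1) (hz : z - c = t • w + ω)
    (ht : |t| ≤ 1 / 4) (hω : ‖ω‖ ≤ η) (hη : η ≤ 1 / 4) : z ∈ tube (2 * η) c w := by
  have hww : ⟪w, w⟫ = (1 : ℝ) := by rw [real_inner_self_eq_norm_sq, hw, one_pow]
  have h1 : ⟪z - c, w⟫ = t + ⟪ω, w⟫ := by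
    rw [hz, inner_add_left, inner_smul_left, hww]
    simp
  have h2 : |⟪ω, w⟫| ≤ η := by
    have := abs_real_inner_le_norm ω w
    rw [hw, mul_one] at this
    exact this.trans hω
  refine ⟨?_, ?_⟩
  · rw [h1]
    calc |t + ⟪ω, w⟫| ≤ |t| + |⟪ω, w⟫| := abs_add_le _ _
      _ ≤ 1 / 2 := by linarith
  · rw [h1, hz]
    have h3 : t • w + ω - (t + ⟪ω, w⟫) • w = ω - ⟪ω, w⟫ • w := by
      rw [add_smul]; abel
    rw [h3]
    have h4 : ‖⟪ω, w⟫ • w‖ ≤ η := by rw [norm_smul, hw, mul_one]; exact h2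
    have := norm_sub_le ω (⟪ω, w⟫ • w)
    linarith

/-- A point near the axis of a long tube is in one of the tubes along the axis. -/
lemma mem_tubes {η s : ℝ} {c w ω z : E k} (hw : ‖w‖ = 1) (hz : z - c = s • w + ω)
    (hs : |s| ≤ (k : ℝ) + 1) (hω : ‖ω‖ ≤ η) (hη : η ≤ 1 / 4) :
    ∃ m ∈ Finset.Icc (-(2 * (k : ℤ) + 3)) (2 * (k : ℤ) + 3),
      z ∈ tube (2 * η) (c + ((m : ℝ) / 2) • w) w := by
  have h1 := abs_sub_round (2 * s)
  obtain ⟨m, hm⟩ : ∃ m : ℤ, m = round (2 * s) := ⟨_, rfl⟩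
  rw [← hm] at h1
  rw [abs_le] at h1 hs
  refine ⟨m, ?_, ?_⟩
  · rw [Finset.mem_Icc]
    constructor
    · have h2 : ((-(2 * (k : ℤ) + 3) : ℤ) : ℝ) ≤ (m : ℝ) := by
        push_cast
        linarith
      exact_mod_cast h2
    · have h2 : (m : ℝ) ≤ ((2 * (k : ℤ) + 3 : ℤ) : ℝ) := by
        push_cast
        linarith
      exact_mod_cast h2
  · refine mem_tube_of hw (t := s - (m : ℝ) / 2) (ω := ω) ?_ ?_ hω hη
    · rw [sub_add_eq_sub_sub, hz, sub_smul]
      abel
    · rw [abs_le]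
      constructor <;> linarith

/-- The number of projected tubes which contain a point. -/
noncomputable def muP (κ : Fin (d + 1)) (Q : ℕ) (a : Fin k → Fin d → Fin Q) (r : ℝ)
    (c e : ι → E d) (S : Finset ι) (z : E k) : ℕ :=
  ∑ m ∈ Finset.Icc (-(2 * (k : ℤ) + 3)) (2 * (k : ℤ) + 3),
    mu r (fun i => prE κ Q a (c i) + ((m : ℝ) / 2) • prD κ Q a (e i))
      (fun i => prD κ Q a (e i)) S z

lemma measurable_muE (r : ℝ) (c e : ι → E d) (S : Finset ι) :
    Measurable (fun x => ((mu r c e S x : ℕ) : ℝ≥0∞)) := by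
  have h2 := (measurable_mu r c e S).ennreal_ofReal
  have h3 : (fun x => ((mu r c e S x : ℕ) : ℝ≥0∞)) =
      fun x => ENNReal.ofReal (mu r c e S x : ℝ) := by
    funext x
    rw [ENNReal.ofReal_natCast]
  rw [h3]
  exact h2

lemma measurable_muP (κ : Fin (d + 1)) (Q : ℕ) (a : Fin k → Fin d → Fin Q) (r : ℝ)
    (c e : ι → E d) (S : Finset ι) :
    Measurable (fun z => ((muP κ Q a r c e S z : ℕ) : ℝ≥0∞)) := by
  unfold muP
  push_cast
  exact Finset.measurable_sum _ fun m _ => measurable_muE _ _ _ _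

open Classical in
/-- Domination of the number of tubes by the number of projected tubes. -/
lemma mu_le_muP {κ : Fin (d + 1)} {Q : ℕ} (hQ : 0 < Q) (hd : 0 < d)
    (a : Fin k → Fin d → Fin Q) {δ η : ℝ} (c e : ι → E d) (S : Finset ι)
    (hu : ∀ i ∈ S, ‖e i‖ = 1) (hmx : ∀ i ∈ S, Mx κ (e i)) (hη : η ≤ 1 / 4) {x : E d} {z : E k}
    (hz : ((k : ℝ) + 1) * δ + ‖z - prE κ Q a x‖ ≤ η) :
    mu δ c e S x ≤ muP κ Q a (2 * η) c e S z := by
  have hk0 : (0 : ℝ) ≤ k := Nat.cast_nonneg k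
  have h1 : ∀ i ∈ S.filter (fun j => x ∈ tube δ (c j) (e j)),
      ∃ m ∈ Finset.Icc (-(2 * (k : ℤ) + 3)) (2 * (k : ℤ) + 3),
        z ∈ tube (2 * η) (prE κ Q a (c i) + ((m : ℝ) / 2) • prD κ Q a (e i))
          (prD κ Q a (e i)) := by
    intro i hi
    obtain ⟨hiS, hix⟩ := Finset.mem_filter.mp hi
    obtain ⟨s, w, h2, h3, h4, -⟩ := tube_decomp hix
    refine mem_tubes (s := s * ‖prE κ Q a (e i)‖) (ω := prE κ Q a w + (z - prE κ Q a x))
      (norm_prD a (hmx i hiS) (hu i hiS)) ?_ ?_ ?_ hη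
    · have h5 : prE κ Q a x - prE κ Q a (c i) = s • prE κ Q a (e i) + prE κ Q a w := by
        rw [← prE_sub, ← prE_smul]
        have h6 : w = (x - c i) - s • e i := by rw [h2]; abel
        rw [h6, prE_sub κ Q a (x - c i)]
        abel
      have h7 : z - prE κ Q a (c i) = (prE κ Q a x - prE κ Q a (c i)) + (z - prE κ Q a x) := by
        abel
      rw [h7, h5, mul_smul, ← prE_eq a (hmx i hiS) (hu i hiS)]
      abel
    · have h5 := norm_prE_le (κ := κ) hQ hd a (e i)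
      rw [hu i hiS, mul_one] at h5
      rw [abs_mul, abs_of_nonneg (norm_nonneg _)]
      calc |s| * ‖prE κ Q a (e i)‖ ≤ 1 / 2 * ((k : ℝ) + 1) := by gcongr
        _ ≤ _ := by linarith
    · have h5 := norm_prE_le (κ := κ) hQ hd a w
      have h6 := norm_add_le (prE κ Q a w) (z - prE κ Q a x)
      have h7 : ((k : ℝ) + 1) * ‖w‖ ≤ ((k : ℝ) + 1) * δ := by gcongr
      linarith
  have h2 : S.filter (fun j => x ∈ tube δ (c j) (e j)) ⊆
      (Finset.Icc (-(2 * (k : ℤ) + 3)) (2 * (k : ℤ) + 3)).biUnion fun m =>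
        S.filter fun i => z ∈ tube (2 * η) (prE κ Q a (c i) + ((m : ℝ) / 2) • prD κ Q a (e i))
          (prD κ Q a (e i)) := by
    intro i hi
    obtain ⟨m, hm, hmz⟩ := h1 i hi
    exact Finset.mem_biUnion.mpr ⟨m, hm, Finset.mem_filter.mpr ⟨(Finset.mem_filter.mp hi).1, hmz⟩⟩
  exact (Finset.card_le_card h2).trans Finset.card_biUnion_le

/-- The points of the axis. -/
noncomputable def ax (δ : ℝ) : Finset ℤ := Finset.Icc ⌈-(1 / δ)⌉ ⌊1 / δ⌋

lemma mem_ax {δ : ℝ} (hδ : 0 < δ) {m : ℤ} : m ∈ ax δ ↔ |(m : ℝ) * δ| ≤ 1 := by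
  rw [ax, Finset.mem_Icc, Int.ceil_le, Int.le_floor, abs_le, ← neg_div, div_le_iff₀ hδ,
    le_div_iff₀ hδ]

/-- A tube is covered by balls around the points of the axis. -/
lemma tube_cover {δ : ℝ} (hδ : 0 < δ) (hδ1 : δ ≤ 1) {c e x : E d} (he : ‖e‖ = 1)
    (hx : x ∈ tube δ c e) :
    ∃ m ∈ ax δ, x ∈ Metric.closedBall (c + ((m : ℝ) * δ) • e) (2 * δ) := by
  obtain ⟨s, w, h1, h2, h3, -⟩ := tube_decomp hx
  have h4 := abs_sub_round (s / δ)
  obtain ⟨m, hm⟩ : ∃ m : ℤ, m = round (s / δ) := ⟨_, rfl⟩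
  rw [← hm] at h4
  have h5 : |s - m * δ| ≤ δ / 2 := by
    have e1 : s - m * δ = (s / δ - m) * δ := by field_simp
    rw [e1, abs_mul, abs_of_pos hδ]
    nlinarith
  refine ⟨m, ?_, ?_⟩
  · rw [mem_ax hδ]
    rw [abs_le] at h3 h5 ⊢
    constructor <;> linarith
  · rw [Metric.mem_closedBall, dist_eq_norm]
    have h6 : x - (c + ((m : ℝ) * δ) • e) = (s - m * δ) • e + w := by
      rw [sub_add_eq_sub_sub, h1, sub_smul]
      abel
    rw [h6]
    calc ‖(s - m * δ) • e + w‖ ≤ ‖(s - m * δ) • e‖ + ‖w‖ := norm_add_le _ _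
      _ = |s - m * δ| + ‖w‖ := by rw [norm_smul, he, mul_one, Real.norm_eq_abs]
      _ ≤ 2 * δ := by linarith

/-- Comparison of averages. -/
lemma avg_le {α β : Type*} [MeasurableSpace α] [MeasurableSpace β] (μ : Measure α)
    (ν : Measure β) {B : Set α} {B' : Set β} (hB : MeasurableSet B) (hB' : MeasurableSet B')
    (F : α → ℝ≥0∞) (G : β → ℝ≥0∞) (h : ∀ x ∈ B, ∀ z ∈ B', F x ≤ G z) :
    ν B' * ∫⁻ x in B, F x ∂μ ≤ μ B * ∫⁻ z in B', G z ∂ν := by
  obtain ⟨A, hA⟩ : ∃ A : ℝ≥0∞, A = ⨆ x ∈ B, F x := ⟨_, rfl⟩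
  have h1 : ∫⁻ x in B, F x ∂μ ≤ A * μ B := by
    rw [← setLIntegral_const]
    refine setLIntegral_mono' hB fun x hx => ?_
    rw [hA]
    exact le_iSup₂ (f := fun x (_ : x ∈ B) => F x) x hx
  have h2 : A * ν B' ≤ ∫⁻ z in B', G z ∂ν := by
    rw [← setLIntegral_const]
    refine setLIntegral_mono' hB' fun z hz => ?_
    rw [hA]
    exact iSup₂_le fun x hx => h x hx z hz
  calc ν B' * ∫⁻ x in B, F x ∂μ ≤ ν B' * (A * μ B) := by gcongr
    _ = μ B * (A * ν B') := by ring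
    _ ≤ _ := by gcongr

open Classical in
/-- The number of points of the axis whose projections are near a given point. -/
lemma card_ax {κ : Fin (d + 1)} {Q : ℕ} (a : Fin k → Fin d → Fin Q) {δ : ℝ} (hδ : 0 < δ)
    {c e : E d} (he : ‖e‖ = 1) (hmx : Mx κ e) (z : E k) :
    ((ax δ).filter fun m : ℤ =>
      z ∈ Metric.closedBall (prE κ Q a (c + ((m : ℝ) * δ) • e)) δ).card ≤
      2 * d + 3 := by
  classical
  obtain ⟨T, hT⟩ : ∃ T : Finset ℤ, T = (ax δ).filter fun m : ℤ =>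
    z ∈ Metric.closedBall (prE κ Q a (c + ((m : ℝ) * δ) • e)) δ := ⟨_, rfl⟩
  rw [← hT]
  rcases T.eq_empty_or_nonempty with h0 | h0
  · rw [h0, Finset.card_empty]
    omega
  obtain ⟨m₀, hm₀, hmin⟩ := Finset.exists_min_image T id h0
  have hsub : T ⊆ Finset.Icc m₀ (m₀ + (2 * (d : ℤ) + 2)) := by
    intro m hm
    rw [Finset.mem_Icc]
    refine ⟨hmin m hm, ?_⟩
    have h1 : z ∈ Metric.closedBall (prE κ Q a (c + ((m : ℝ) * δ) • e)) δ := by
      rw [hT] at hm
      exact (Finset.mem_filter.mp hm).2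
    have h2 : z ∈ Metric.closedBall (prE κ Q a (c + ((m₀ : ℝ) * δ) • e)) δ := by
      rw [hT] at hm₀
      exact (Finset.mem_filter.mp hm₀).2
    rw [Metric.mem_closedBall, dist_eq_norm] at h1 h2
    have h3 := coord_le (z - prE κ Q a (c + ((m : ℝ) * δ) • e)) 0
    have h4 := coord_le (z - prE κ Q a (c + ((m₀ : ℝ) * δ) • e)) 0
    rw [PiLp.sub_apply, prE_zero, PiLp.add_apply, PiLp.smul_apply, smul_eq_mul] at h3 h4
    have h5 : |((m : ℝ) - m₀) * δ * e κ| ≤ 2 * δ := by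
      have e1 : ((m : ℝ) - m₀) * δ * e κ = (z 0 - (c κ + (m₀ : ℝ) * δ * e κ)) -
        (z 0 - (c κ + (m : ℝ) * δ * e κ)) := by ring
      rw [e1]
      exact (abs_sub _ _).trans (by linarith)
    have h6 := hmx.pos he
    have h7 : (0 : ℝ) ≤ (m : ℝ) - m₀ := by
      have := hmin m hm
      have h8 : (m₀ : ℝ) ≤ m := by exact_mod_cast this
      linarith
    rw [abs_mul, abs_mul, abs_of_nonneg h7, abs_of_pos hδ] at h5
    have hd1 : (0 : ℝ) < (d : ℝ) + 1 := by positivity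
    have h8 : ((m : ℝ) - m₀) * δ * (1 / ((d : ℝ) + 1)) ≤ 2 * δ := by
      refine le_trans ?_ h5
      gcongr
    have h9 : (m : ℝ) - m₀ ≤ 2 * ((d : ℝ) + 1) := by
      rw [mul_one_div, div_le_iff₀ hd1] at h8
      have h10 : ((m : ℝ) - m₀) * δ ≤ (2 * ((d : ℝ) + 1)) * δ := by linarith
      exact le_of_mul_le_mul_right h10 hδ
    have h10 : (m : ℝ) ≤ ((m₀ + (2 * (d : ℤ) + 2) : ℤ) : ℝ) := by
      push_cast
      linarith
    exact_mod_cast h10
  refine (Finset.card_le_card hsub).trans ?_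
  rw [Int.card_Icc]
  omega

lemma muE_eq (δ : ℝ) (c e : ι → E d) (S : Finset ι) (x : E d) :
    ((mu δ c e S x : ℕ) : ℝ≥0∞) = ∑ i ∈ S, (tube δ (c i) (e i)).indicator (fun _ => 1) x := by
  classical
  rw [mu, Finset.card_filter]
  push_cast
  refine Finset.sum_congr rfl fun i _ => ?_
  rw [Set.indicator_apply]

lemma pow_split (n : ℕ) {q : ℝ} (hq : 1 < q) : (n : ℝ≥0∞) ^ q = n * (n : ℝ≥0∞) ^ (q - 1) := by
  rcases Nat.eq_zero_or_pos n with h | h
  · rw [h, Nat.cast_zero, ENNReal.zero_rpow_of_pos (by linarith), zero_mul]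
  · have h1 : (n : ℝ≥0∞) ≠ 0 := by exact_mod_cast h.ne'
    have h2 := ENNReal.rpow_add 1 (q - 1) h1 (ENNReal.natCast_ne_top n)
    rw [ENNReal.rpow_one] at h2
    rw [← h2]
    congr 1
    ring

/-- **Comparison of the integrals.** -/
theorem transfer {κ : Fin (d + 1)} {Q : ℕ} (hQ : 0 < Q) (hd : 0 < d)
    (a : Fin k → Fin d → Fin Q) {δ η : ℝ} (hδ : 0 < δ) (hδ1 : δ ≤ 1) (c e : ι → E d)
    (S : Finset ι) (hu : ∀ i ∈ S, ‖e i‖ = 1) (hmx : ∀ i ∈ S, Mx κ (e i)) (hη : η ≤ 1 / 4)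
    (hηδ : (3 * (k : ℝ) + 4) * δ ≤ η) {q : ℝ} (hq : 1 < q) :
    ENNReal.ofReal (δ ^ (k + 1) * om k) * ∫⁻ x, ((mu δ c e S x : ℕ) : ℝ≥0∞) ^ q ≤
      ENNReal.ofReal ((2 * δ) ^ (d + 1) * om d) * ((2 * d + 3 : ℕ) *
        ∫⁻ z, ((muP κ Q a (2 * η) c e S z : ℕ) : ℝ≥0∞) ^ q) := by
  classical
  obtain ⟨F, hF⟩ : ∃ F : E d → ℝ≥0∞, F = fun x => ((mu δ c e S x : ℕ) : ℝ≥0∞) := ⟨_, rfl⟩
  obtain ⟨G, hG⟩ : ∃ G : E k → ℝ≥0∞, G = fun z => ((muP κ Q a (2 * η) c e S z : ℕ) : ℝ≥0∞) :=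
    ⟨_, rfl⟩
  have hFm : Measurable F := by rw [hF]; exact measurable_muE _ _ _ _
  have hGm : Measurable G := by rw [hG]; exact measurable_muP _ _ _ _ _ _ _
  have hk0 : (0 : ℝ) ≤ k := Nat.cast_nonneg k
  obtain ⟨p, hp⟩ : ∃ p : ι → ℤ → E d, p = fun (i : ι) (m : ℤ) =>
    c i + ((m : ℝ) * δ) • e i := ⟨_, rfl⟩
  -- the left side
  have h1 : ∫⁻ x, ((mu δ c e S x : ℕ) : ℝ≥0∞) ^ q ≤
      ∑ i ∈ S, ∑ m ∈ ax δ, ∫⁻ x in Metric.closedBall (p i m) (2 * δ), F x ^ (q - 1) := by
    calc ∫⁻ x, ((mu δ c e S x : ℕ) : ℝ≥0∞) ^ q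
        ≤ ∫⁻ x, ∑ i ∈ S, ∑ m ∈ ax δ, (Metric.closedBall (p i m) (2 * δ)).indicator
            (fun x => F x ^ (q - 1)) x := by
          refine lintegral_mono fun x => ?_
          have e1 : ((mu δ c e S x : ℕ) : ℝ≥0∞) ^ q =
              (∑ i ∈ S, (tube δ (c i) (e i)).indicator (fun _ => 1) x) * F x ^ (q - 1) := by
            rw [pow_split _ hq, ← muE_eq, hF]
          rw [e1, Finset.sum_mul]
          refine Finset.sum_le_sum fun i hi => ?_
          by_cases hx : x ∈ tube δ (c i) (e i)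
          · obtain ⟨m, hm, hxm⟩ := tube_cover hδ hδ1 (hu i hi) hx
            rw [Set.indicator_of_mem hx, one_mul]
            have h2 : F x ^ (q - 1) ≤ (Metric.closedBall (p i m) (2 * δ)).indicator
                (fun x => F x ^ (q - 1)) x := by
              rw [Set.indicator_of_mem (by rw [hp]; exact hxm)]
            refine h2.trans ?_
            exact Finset.single_le_sum (f := fun m => (Metric.closedBall (p i m)
                (2 * δ)).indicator (fun x => F x ^ (q - 1)) x) (fun _ _ => zero_le) hm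
          · rw [Set.indicator_of_notMem hx, zero_mul]
            exact zero_le
      _ = ∑ i ∈ S, ∑ m ∈ ax δ, ∫⁻ x in Metric.closedBall (p i m) (2 * δ), F x ^ (q - 1) := by
          have hm1 : ∀ (i : ι) (m : ℤ), Measurable ((Metric.closedBall (p i m) (2 * δ)).indicator
              (fun x => F x ^ (q - 1))) := fun i m =>
            (hFm.pow_const _).indicator Metric.isClosed_closedBall.measurableSet
          rw [lintegral_finsetSum _ (fun i _ => Finset.measurable_sum _ fun m _ => hm1 i m)]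
          refine Finset.sum_congr rfl fun i _ => ?_
          rw [lintegral_finsetSum _ (fun m _ => hm1 i m)]
          refine Finset.sum_congr rfl fun m _ => ?_
          rw [lintegral_indicator Metric.isClosed_closedBall.measurableSet]
  -- comparison of one ball
  have h2 : ∀ i ∈ S, ∀ m ∈ ax δ, ENNReal.ofReal (δ ^ (k + 1) * om k) *
      ∫⁻ x in Metric.closedBall (p i m) (2 * δ), F x ^ (q - 1) ≤
      ENNReal.ofReal ((2 * δ) ^ (d + 1) * om d) *
        ∫⁻ z in Metric.closedBall (prE κ Q a (p i m)) δ, G z ^ (q - 1) := by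
    intro i hi m _
    have h3 := avg_le volume volume (B := Metric.closedBall (p i m) (2 * δ))
      (B' := Metric.closedBall (prE κ Q a (p i m)) δ) Metric.isClosed_closedBall.measurableSet
      Metric.isClosed_closedBall.measurableSet (fun x => F x ^ (q - 1)) (fun z => G z ^ (q - 1))
      (by
        intro x hx z hz
        refine ENNReal.rpow_le_rpow ?_ (by linarith)
        rw [hF, hG]
        show ((mu δ c e S x : ℕ) : ℝ≥0∞) ≤ ((muP κ Q a (2 * η) c e S z : ℕ) : ℝ≥0∞)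
        rw [Metric.mem_closedBall, dist_eq_norm] at hx hz
        have h4 := mu_le_muP (κ := κ) hQ hd a (δ := δ) c e S hu hmx hη (x := x) (z := z) (by
          have h5 : z - prE κ Q a x = (z - prE κ Q a (p i m)) - prE κ Q a (x - p i m) := by
            rw [prE_sub]; abel
          have h6 := norm_sub_le (z - prE κ Q a (p i m)) (prE κ Q a (x - p i m))
          rw [← h5] at h6
          have h7 := norm_prE_le (κ := κ) hQ hd a (x - p i m)
          have h8 : ((k : ℝ) + 1) * ‖x - p i m‖ ≤ ((k : ℝ) + 1) * (2 * δ) := by gcongr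
          linarith)
        exact_mod_cast h4)
    rw [volume_closedBall_eq (p i m) (by positivity : 0 < 2 * δ),
      volume_closedBall_eq (prE κ Q a (p i m)) hδ] at h3
    exact h3
  -- the right side
  have h3 : ∑ i ∈ S, ∑ m ∈ ax δ, ∫⁻ z in Metric.closedBall (prE κ Q a (p i m)) δ,
      G z ^ (q - 1) ≤ (2 * d + 3 : ℕ) * ∫⁻ z, G z ^ q := by
    have hm1 : ∀ (i : ι) (m : ℤ), Measurable ((Metric.closedBall (prE κ Q a (p i m)) δ).indicator
        (fun z => G z ^ (q - 1))) := fun i m =>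
      (hGm.pow_const _).indicator Metric.isClosed_closedBall.measurableSet
    calc ∑ i ∈ S, ∑ m ∈ ax δ, ∫⁻ z in Metric.closedBall (prE κ Q a (p i m)) δ, G z ^ (q - 1)
        = ∫⁻ z, ∑ i ∈ S, ∑ m ∈ ax δ, (Metric.closedBall (prE κ Q a (p i m)) δ).indicator
            (fun z => G z ^ (q - 1)) z := by
          rw [lintegral_finsetSum _ (fun i _ => Finset.measurable_sum _ fun m _ => hm1 i m)]
          refine Finset.sum_congr rfl fun i _ => ?_
          rw [lintegral_finsetSum _ (fun m _ => hm1 i m)]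
          refine Finset.sum_congr rfl fun m _ => ?_
          rw [lintegral_indicator Metric.isClosed_closedBall.measurableSet]
      _ ≤ ∫⁻ z, (2 * d + 3 : ℕ) * G z ^ q := by
          refine lintegral_mono fun z => ?_
          have h4 : ∀ i ∈ S, ∑ m ∈ ax δ, (Metric.closedBall (prE κ Q a (p i m)) δ).indicator
              (fun z => G z ^ (q - 1)) z ≤ (2 * d + 3 : ℕ) *
              ((∑ m ∈ Finset.Icc (-(2 * (k : ℤ) + 3)) (2 * (k : ℤ) + 3),
                if z ∈ tube (2 * η) (prE κ Q a (c i) + ((m : ℝ) / 2) • prD κ Q a (e i))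
                  (prD κ Q a (e i)) then (1 : ℝ≥0∞) else 0) * G z ^ (q - 1)) := by
            intro i hi
            obtain ⟨T, hT⟩ : ∃ T : Finset ℤ, T = (ax δ).filter fun m =>
              z ∈ Metric.closedBall (prE κ Q a (p i m)) δ := ⟨_, rfl⟩
            have h5 : ∑ m ∈ ax δ, (Metric.closedBall (prE κ Q a (p i m)) δ).indicator
                (fun z => G z ^ (q - 1)) z = (T.card : ℝ≥0∞) * G z ^ (q - 1) := by
              simp_rw [Set.indicator_apply]
              rw [← Finset.sum_filter, ← hT, Finset.sum_const, nsmul_eq_mul]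
            rw [h5, ← mul_assoc]
            rcases T.eq_empty_or_nonempty with h0 | h0
            · rw [h0, Finset.card_empty, Nat.cast_zero, zero_mul]
              exact zero_le
            · have h6 : T.card ≤ 2 * d + 3 := by
                rw [hT, hp]
                exact card_ax a hδ (hu i hi) (hmx i hi) z
              obtain ⟨m, hm⟩ := h0
              rw [hT] at hm
              obtain ⟨hm1, hm2⟩ := Finset.mem_filter.mp hm
              rw [Metric.mem_closedBall, dist_eq_norm] at hm2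
              rw [mem_ax hδ] at hm1
              obtain ⟨m', hm', hzm'⟩ := mem_tubes (η := η) (c := prE κ Q a (c i))
                (w := prD κ Q a (e i)) (z := z) (s := ((m : ℝ) * δ) * ‖prE κ Q a (e i)‖)
                (ω := z - prE κ Q a (p i m)) (norm_prD a (hmx i hi) (hu i hi)) (by
                  have h7 : prE κ Q a (p i m) - prE κ Q a (c i) =
                      ((m : ℝ) * δ) • prE κ Q a (e i) := by
                    rw [← prE_sub, ← prE_smul, hp]
                    congr 1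
                    exact add_sub_cancel_left _ _
                  have h8 : z - prE κ Q a (c i) = (prE κ Q a (p i m) - prE κ Q a (c i)) +
                      (z - prE κ Q a (p i m)) := by abel
                  rw [h8, h7, mul_smul ((m : ℝ) * δ) ‖prE κ Q a (e i)‖,
                    ← prE_eq a (hmx i hi) (hu i hi)]) (by
                  have h7 := norm_prE_le (κ := κ) hQ hd a (e i)
                  rw [hu i hi, mul_one] at h7
                  rw [abs_mul, abs_of_nonneg (norm_nonneg (prE κ Q a (e i)))]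
                  calc |(m : ℝ) * δ| * ‖prE κ Q a (e i)‖ ≤ 1 * ((k : ℝ) + 1) := by gcongr
                    _ = _ := one_mul _) (by
                  have : δ ≤ (3 * (k : ℝ) + 4) * δ := by nlinarith
                  linarith) hη
              have h9 : (1 : ℝ≥0∞) ≤ ∑ m ∈ Finset.Icc (-(2 * (k : ℤ) + 3)) (2 * (k : ℤ) + 3),
                  if z ∈ tube (2 * η) (prE κ Q a (c i) + ((m : ℝ) / 2) • prD κ Q a (e i))
                  (prD κ Q a (e i)) then (1 : ℝ≥0∞) else 0 := by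
                have h10 := Finset.single_le_sum (f := fun m : ℤ =>
                  if z ∈ tube (2 * η) (prE κ Q a (c i) + ((m : ℝ) / 2) • prD κ Q a (e i))
                  (prD κ Q a (e i)) then (1 : ℝ≥0∞) else 0) (fun _ _ => zero_le) hm'
                simp only [if_pos hzm'] at h10
                exact h10
              have h11 : (T.card : ℝ≥0∞) ≤ ((2 * d + 3 : ℕ) : ℝ≥0∞) * 1 := by
                rw [mul_one]
                exact_mod_cast h6
              refine mul_le_mul_left ?_ _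
              exact h11.trans (mul_le_mul_right h9 _)
          refine (Finset.sum_le_sum h4).trans (le_of_eq ?_)
          have h12 : ((muP κ Q a (2 * η) c e S z : ℕ) : ℝ≥0∞) = ∑ i ∈ S,
              ∑ m ∈ Finset.Icc (-(2 * (k : ℤ) + 3)) (2 * (k : ℤ) + 3),
                if z ∈ tube (2 * η) (prE κ Q a (c i) + ((m : ℝ) / 2) • prD κ Q a (e i))
                  (prD κ Q a (e i)) then (1 : ℝ≥0∞) else 0 := by
            rw [Finset.sum_comm, muP]
            push_cast
            refine Finset.sum_congr rfl fun m _ => ?_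
            rw [mu, Finset.card_filter]
            push_cast
            rfl
          rw [← Finset.mul_sum, ← Finset.sum_mul, ← h12, hG, pow_split _ hq]
      _ = _ := by rw [lintegral_const_mul _ (hGm.pow_const _)]
  calc ENNReal.ofReal (δ ^ (k + 1) * om k) * ∫⁻ x, ((mu δ c e S x : ℕ) : ℝ≥0∞) ^ q
      ≤ ENNReal.ofReal (δ ^ (k + 1) * om k) * ∑ i ∈ S, ∑ m ∈ ax δ,
          ∫⁻ x in Metric.closedBall (p i m) (2 * δ), F x ^ (q - 1) := by gcongr
    _ ≤ ENNReal.ofReal ((2 * δ) ^ (d + 1) * om d) * ∑ i ∈ S, ∑ m ∈ ax δ,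
          ∫⁻ z in Metric.closedBall (prE κ Q a (p i m)) δ, G z ^ (q - 1) := by
        rw [Finset.mul_sum, Finset.mul_sum]
        refine Finset.sum_le_sum fun i hi => ?_
        rw [Finset.mul_sum, Finset.mul_sum]
        exact Finset.sum_le_sum fun m hm => h2 i hi m hm
    _ ≤ ENNReal.ofReal ((2 * δ) ^ (d + 1) * om d) * ((2 * d + 3 : ℕ) * ∫⁻ z, G z ^ q) := by
        gcongr
    _ = _ := by rw [hG]

end Pool.GP
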