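import Pool.Agent.H94.GP.Step
import Pool.Agent.H94.GP.All
import Pool.Agent.H73.KQ1.Q1

/-!
# The inequality of Q1 for families with few directions in every ball
-/

set_option autoImplicit false

open MeasureTheory ENNReal
open scoped RealInnerProductSpace

namespace Pool.GP

open Pool.Agent.H53.Kak Pool.Agent.H53.Dns

variable {d k : ℕ} {ι : Type}

/-- An elementary inequality for the interpolation. -/
lemma interp (n : ℕ) {q q₁ M : ℝ} (hq : 1 < q) (hq₁ : q ≤ q₁) (hM : 0 < M) :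
    (n : ℝ≥0∞) ^ q ≤ ENNReal.ofReal (M ^ (q - 1)) * n +
      ENNReal.ofReal (M ^ (q - q₁)) * (n : ℝ≥0∞) ^ q₁ := by
  have hn0 : (0 : ℝ) ≤ n := Nat.cast_nonneg n
  rw [← ENNReal.ofReal_natCast, ENNReal.ofReal_rpow_of_nonneg hn0 (by linarith),
    ENNReal.ofReal_rpow_of_nonneg hn0 (by linarith), ← ENNReal.ofReal_mul (by positivity),
    ← ENNReal.ofReal_mul (by positivity), ← ENNReal.ofReal_add (by positivity) (by positivity)]
  refine ENNReal.ofReal_le_ofReal ?_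
  rcases hn0.eq_or_lt with h0 | h0
  · rw [← h0, Real.zero_rpow (by linarith), Real.zero_rpow (by linarith)]
    simp
  rcases le_or_gt (n : ℝ) M with h | h
  · have h1 : (n : ℝ) ^ q = (n : ℝ) ^ (q - 1) * n := by
      rw [← Real.rpow_add_one h0.ne']
      congr 1
      ring
    have h2 : (n : ℝ) ^ (q - 1) ≤ M ^ (q - 1) := Real.rpow_le_rpow hn0 h (by linarith)
    have h3 : 0 ≤ M ^ (q - q₁) * (n : ℝ) ^ q₁ := by positivity
    calc (n : ℝ) ^ q = (n : ℝ) ^ (q - 1) * n := h1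
      _ ≤ M ^ (q - 1) * n := by gcongr
      _ ≤ _ := by linarith
  · have h1 : (n : ℝ) ^ q = (n : ℝ) ^ (q - q₁) * (n : ℝ) ^ q₁ := by
      rw [← Real.rpow_add h0]
      congr 1
      ring
    have h2 : (n : ℝ) ^ (q - q₁) ≤ M ^ (q - q₁) :=
      Real.rpow_le_rpow_of_nonpos hM h.le (by linarith)
    have h3 : 0 ≤ M ^ (q - 1) * (n : ℝ) := by positivity
    calc (n : ℝ) ^ q = (n : ℝ) ^ (q - q₁) * (n : ℝ) ^ q₁ := h1
      _ ≤ M ^ (q - q₁) * (n : ℝ) ^ q₁ := by gcongr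
      _ ≤ _ := by linarith

lemma lintegral_mu_le {δ : ℝ} (hδ : 0 < δ) (c e : ι → E d) (S : Finset ι)
    (hu : ∀ i ∈ S, ‖e i‖ = 1) :
    ∫⁻ x, ((mu δ c e S x : ℕ) : ℝ≥0∞) ≤ ENNReal.ofReal (2 ^ d * (S.card * δ ^ d)) := by
  simp_rw [muE_eq]
  rw [lintegral_finsetSum _ (fun i _ => measurable_const.indicator (measurableSet_tube _ _ _))]
  calc ∑ i ∈ S, ∫⁻ x, (tube δ (c i) (e i)).indicator (fun _ => 1) x
      ≤ ∑ _i ∈ S, ENNReal.ofReal ((2 * δ) ^ d) := by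
        refine Finset.sum_le_sum fun i hi => ?_
        rw [lintegral_indicator_const (measurableSet_tube _ _ _), one_mul]
        exact volume_tube_le δ hδ.le (c i) (e i) (hu i hi)
    _ = _ := by
        rw [Finset.sum_const, nsmul_eq_mul, ← ENNReal.ofReal_natCast,
          ← ENNReal.ofReal_mul (by positivity)]
        congr 1
        rw [mul_pow]
        ring

/-- **Below the critical exponent `1 + 1 / k`.** -/
theorem lossM_below (hk : 0 < k) (hkd : k ≤ d)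
    (hL : ∀ q₁ : ℝ, 1 + 1 / (k : ℝ) < q₁ → ∃ C : ℝ, 0 ≤ C ∧ Loss k q₁ 0 C) {q ε : ℝ}
    (hq : 1 < q) (hqk : q ≤ 1 + 1 / (k : ℝ)) (hε : 0 < ε) :
    ∃ B : ℝ, 0 < B ∧ ∀ δ : ℝ, 0 < δ → δ < 1 → ∀ (ι : Type) (S : Finset ι)
      (c e : ι → E d), Fam δ e S → ∀ M : ℝ, CncT k δ M e S →
        eLpNorm (fun x => ((mu δ c e S x : ℕ) : ℝ)) (ENNReal.ofReal q) volume ≤
          ENNReal.ofReal (B * (δ ^ ((d : ℝ) / q) * ((S.card : ℝ) ^ (1 / q + ε) *
            M ^ (1 - 1 / q)))) := by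
  have hk0 : (0 : ℝ) < k := by exact_mod_cast hk
  have hq0 : 0 < q := by linarith
  obtain ⟨τ, hτ⟩ : ∃ τ : ℝ, τ = ε / 2 := ⟨_, rfl⟩
  have hτ0 : 0 < τ := by rw [hτ]; positivity
  obtain ⟨q₁, hq₁⟩ : ∃ q₁ : ℝ, q₁ = 1 + 1 / (k : ℝ) + τ := ⟨_, rfl⟩
  have h1k : 0 < 1 / (k : ℝ) := by positivity
  have hq₁k : 1 + 1 / (k : ℝ) < q₁ := by rw [hq₁]; linarith
  have hq₁0 : 0 < q₁ := by linarith
  have hqq₁ : q ≤ q₁ := by linarith
  obtain ⟨C, hC, hLoss⟩ := hL q₁ hq₁k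
  obtain ⟨ε₁, hε₁⟩ : ∃ ε₁ : ℝ, ε₁ = ε / (2 * q₁) := ⟨_, rfl⟩
  have hε₁0 : 0 < ε₁ := by rw [hε₁]; positivity
  obtain ⟨B, hB, hmain⟩ := lossM hk hkd hC (by linarith : 1 < q₁) hLoss hε₁0
  refine ⟨2 ^ d + B ^ q₁ + 1, by positivity, ?_⟩
  intro δ hδ hδ1 ι S c e hF M hM
  rcases S.eq_empty_or_nonempty with rfl | hne
  · have : (fun x => ((mu δ c e (∅ : Finset ι) x : ℕ) : ℝ)) = 0 := by
      funext x
      simp [mu]
    rw [this, eLpNorm_zero]
    exact zero_le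
  have hM1 : 1 ≤ M := hM.one_le hδ hne
  have hM0 : 0 < M := by linarith
  have hN1 : (1 : ℝ) ≤ S.card := by exact_mod_cast Finset.card_pos.mpr hne
  have hN0 : (0 : ℝ) < S.card := by linarith
  have h1 := hmain δ hδ hδ1 ι S c e hF M hM
  rw [eLpNorm_nat _ _ hq₁0] at h1
  rw [eLpNorm_nat _ _ hq0]
  obtain ⟨R, hR⟩ : ∃ R : ℝ, R = B * (δ ^ ((d : ℝ) / q₁) * ((S.card : ℝ) ^
    (1 - 1 / (q₁ * k) + ε₁) * M ^ (1 / (q₁ * k)))) := ⟨_, rfl⟩
  have hR0 : 0 ≤ R := by rw [hR]; positivity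
  rw [← hR] at h1
  have h2 : ∫⁻ x, ((mu δ c e S x : ℕ) : ℝ≥0∞) ^ q₁ ≤ ENNReal.ofReal (R ^ q₁) := by
    have h3 := ENNReal.rpow_le_rpow h1 hq₁0.le
    rw [← ENNReal.rpow_mul, one_div, inv_mul_cancel₀ hq₁0.ne', ENNReal.rpow_one,
      ENNReal.ofReal_rpow_of_nonneg hR0 hq₁0.le] at h3
    exact h3
  have h3 : ∫⁻ x, ((mu δ c e S x : ℕ) : ℝ≥0∞) ^ q ≤
      ENNReal.ofReal (M ^ (q - 1) * (2 ^ d * (S.card * δ ^ d)) + M ^ (q - q₁) * R ^ q₁) := by
    calc ∫⁻ x, ((mu δ c e S x : ℕ) : ℝ≥0∞) ^ q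
        ≤ ∫⁻ x, (ENNReal.ofReal (M ^ (q - 1)) * ((mu δ c e S x : ℕ) : ℝ≥0∞) +
            ENNReal.ofReal (M ^ (q - q₁)) * ((mu δ c e S x : ℕ) : ℝ≥0∞) ^ q₁) :=
          lintegral_mono fun x => interp _ hq hqq₁ hM0
      _ = ENNReal.ofReal (M ^ (q - 1)) * (∫⁻ x, ((mu δ c e S x : ℕ) : ℝ≥0∞)) +
            ENNReal.ofReal (M ^ (q - q₁)) * (∫⁻ x, ((mu δ c e S x : ℕ) : ℝ≥0∞) ^ q₁) := by
          rw [lintegral_add_left ((measurable_muE _ _ _ _).const_mul _),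
            lintegral_const_mul _ (measurable_muE _ _ _ _),
            lintegral_const_mul _ ((measurable_muE _ _ _ _).pow_const _)]
      _ ≤ ENNReal.ofReal (M ^ (q - 1)) * ENNReal.ofReal (2 ^ d * (S.card * δ ^ d)) +
            ENNReal.ofReal (M ^ (q - q₁)) * ENNReal.ofReal (R ^ q₁) := by
          have := lintegral_mu_le hδ c e S hF.unit
          gcongr
      _ = _ := by
          rw [← ENNReal.ofReal_mul (by positivity), ← ENNReal.ofReal_mul (by positivity),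
            ← ENNReal.ofReal_add (by positivity) (by positivity)]
  have h4 : R ^ q₁ = B ^ q₁ * (δ ^ d * ((S.card : ℝ) ^ (q₁ - 1 / k + q₁ * ε₁) *
      M ^ (1 / (k : ℝ)))) := by
    have e1 : (d : ℝ) / q₁ * q₁ = (d : ℝ) := by field_simp
    have e2 : (1 - 1 / (q₁ * k) + ε₁) * q₁ = q₁ - 1 / k + q₁ * ε₁ := by field_simp
    have e3 : 1 / (q₁ * (k : ℝ)) * q₁ = 1 / k := by field_simp
    rw [hR, Real.mul_rpow hB.le (by positivity), Real.mul_rpow (by positivity) (by positivity),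
      Real.mul_rpow (by positivity) (by positivity), ← Real.rpow_mul hδ.le,
      ← Real.rpow_mul hN0.le, ← Real.rpow_mul hM0.le, e1, e2, e3, Real.rpow_natCast]
  have h5 : M ^ (q - 1) * (2 ^ d * (S.card * δ ^ d)) + M ^ (q - q₁) * R ^ q₁ ≤
      (2 ^ d + B ^ q₁ + 1) * (δ ^ d * ((S.card : ℝ) ^ (1 + ε) * M ^ (q - 1))) := by
    have k1 : (S.card : ℝ) ≤ (S.card : ℝ) ^ (1 + ε) := by
      calc (S.card : ℝ) = (S.card : ℝ) ^ (1 : ℝ) := (Real.rpow_one _).symm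
        _ ≤ _ := Real.rpow_le_rpow_of_exponent_le hN1 (by linarith)
    have k2 : (S.card : ℝ) ^ (q₁ - 1 / k + q₁ * ε₁) = (S.card : ℝ) ^ (1 + ε) := by
      congr 1
      have e1 : q₁ * ε₁ = ε / 2 := by rw [hε₁]; field_simp
      rw [e1, hq₁, hτ]
      ring
    have k3 : M ^ (q - q₁) * M ^ (1 / (k : ℝ)) ≤ M ^ (q - 1) := by
      rw [← Real.rpow_add hM0]
      refine Real.rpow_le_rpow_of_exponent_le hM1 ?_
      rw [hq₁]
      linarith
    have hN2 : 0 < (S.card : ℝ) ^ (1 + ε) := by positivity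
    calc M ^ (q - 1) * (2 ^ d * (S.card * δ ^ d)) + M ^ (q - q₁) * R ^ q₁
        = 2 ^ d * (δ ^ d * ((S.card : ℝ) * M ^ (q - 1))) +
            B ^ q₁ * (δ ^ d * ((S.card : ℝ) ^ (1 + ε) * (M ^ (q - q₁) * M ^ (1 / (k : ℝ))))) := by
          rw [h4, k2]; ring
      _ ≤ 2 ^ d * (δ ^ d * ((S.card : ℝ) ^ (1 + ε) * M ^ (q - 1))) +
            B ^ q₁ * (δ ^ d * ((S.card : ℝ) ^ (1 + ε) * M ^ (q - 1))) := by gcongr
      _ ≤ _ := by
          have : 0 ≤ δ ^ d * ((S.card : ℝ) ^ (1 + ε) * M ^ (q - 1)) := by positivity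
          nlinarith
  have hp : 0 ≤ 1 / q := by positivity
  refine (ENNReal.rpow_le_rpow (h3.trans (ENNReal.ofReal_le_ofReal h5)) hp).trans ?_
  rw [ENNReal.ofReal_rpow_of_nonneg (by positivity) hp]
  refine ENNReal.ofReal_le_ofReal ?_
  have hCo1 : 1 ≤ 2 ^ d + B ^ q₁ + 1 := by
    have : 0 ≤ 2 ^ d + B ^ q₁ := by positivity
    linarith
  have hq1 : 1 / q ≤ 1 := by rw [div_le_one hq0]; exact hq.le
  rw [Real.mul_rpow (by positivity) (by positivity), Real.mul_rpow (by positivity) (by positivity),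
    Real.mul_rpow (by positivity) (by positivity)]
  have k1 : (2 ^ d + B ^ q₁ + 1) ^ (1 / q) ≤ 2 ^ d + B ^ q₁ + 1 := by
    calc (2 ^ d + B ^ q₁ + 1) ^ (1 / q) ≤ (2 ^ d + B ^ q₁ + 1) ^ (1 : ℝ) :=
          Real.rpow_le_rpow_of_exponent_le hCo1 hq1
      _ = _ := Real.rpow_one _
  have k2 : (δ ^ d) ^ (1 / q) = δ ^ ((d : ℝ) / q) := by
    rw [← Real.rpow_natCast, ← Real.rpow_mul hδ.le]
    congr 1
    ring
  have k3 : ((S.card : ℝ) ^ (1 + ε)) ^ (1 / q) ≤ (S.card : ℝ) ^ (1 / q + ε) := by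
    rw [← Real.rpow_mul hN0.le]
    refine Real.rpow_le_rpow_of_exponent_le hN1 ?_
    have : ε * (1 / q) ≤ ε * 1 := by gcongr
    linarith
  have k4 : (M ^ (q - 1)) ^ (1 / q) = M ^ (1 - 1 / q) := by
    rw [← Real.rpow_mul hM0.le]
    congr 1
    field_simp
  rw [k2, k4]
  gcongr

/-- **The inequality of Q1** for families with a concentration of at most `A * N ^ σ`. -/
theorem q1M (hk : 0 < k) (hkd : k ≤ d)
    (hL : ∀ q₁ : ℝ, 1 + 1 / (k : ℝ) < q₁ → ∃ C : ℝ, 0 ≤ C ∧ Loss k q₁ 0 C) {q σ A : ℝ}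
    (hσ : 0 ≤ σ) (hσ1 : σ < 1 - (k : ℝ) / d) (hq : 1 + 1 / ((d : ℝ) * (1 - σ)) < q) :
    ∃ B : ℝ, ∀ δ : ℝ, 0 < δ → δ < 1 → ∀ (ι : Type) (S : Finset ι)
      (c e : ι → E d), Fam δ e S → CncT k δ (A * (S.card : ℝ) ^ σ) e S →
        eLpNorm (fun x => ((mu δ c e S x : ℕ) : ℝ)) (ENNReal.ofReal q) volume ≤
          ENNReal.ofReal (B * (δ ^ ((d : ℝ) / q) * (S.card : ℝ) ^ (1 - 1 / (q * d)))) := by
  have hd : 0 < d := by omega
  have hk0 : (0 : ℝ) < k := by exact_mod_cast hk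
  have hd0 : (0 : ℝ) < d := by exact_mod_cast hd
  have hkd' : 0 < (k : ℝ) / d := by positivity
  have hσ2 : 0 < 1 - σ := by linarith
  have hdσ : 0 < (d : ℝ) * (1 - σ) := by positivity
  have hq1 : 1 < q := by
    have : 0 < 1 / ((d : ℝ) * (1 - σ)) := by positivity
    linarith
  have hq0 : 0 < q := by linarith
  have hA1 : ∀ (ι : Type) (S : Finset ι) (e : ι → E d) (δ : ℝ), 0 < δ → S.Nonempty →
      CncT k δ (A * (S.card : ℝ) ^ σ) e S → 0 < A := by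
    intro ι S e δ hδ hne h
    have h1 := h.one_le hδ hne
    have hN0 : (0 : ℝ) < S.card := by exact_mod_cast Finset.card_pos.mpr hne
    have h2 : 0 < (S.card : ℝ) ^ σ := by positivity
    by_contra h0
    push Not at h0
    nlinarith
  rcases le_or_gt q (1 + 1 / (k : ℝ)) with hcase | hcase
  · -- below the critical exponent
    have hgap : 0 < (1 - σ) - (1 - σ + 1 / d) / q := by
      rw [sub_pos, div_lt_iff₀ hq0]
      have e1 : (1 - σ) * (1 + 1 / ((d : ℝ) * (1 - σ))) = 1 - σ + 1 / d := by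
        field_simp
      rw [← e1]
      exact mul_lt_mul_of_pos_left hq hσ2
    obtain ⟨B, hB, hmain⟩ := lossM_below (q := q) hk hkd hL hq1 hcase hgap
    refine ⟨B * max A 1, ?_⟩
    intro δ hδ hδ1 ι S c e hF hM
    rcases S.eq_empty_or_nonempty with rfl | hne
    · have : (fun x => ((mu δ c e (∅ : Finset ι) x : ℕ) : ℝ)) = 0 := by
        funext x
        simp [mu]
      rw [this, eLpNorm_zero]
      exact zero_le
    have hA0 := hA1 ι S e δ hδ hne hM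
    have hN1 : (1 : ℝ) ≤ S.card := by exact_mod_cast Finset.card_pos.mpr hne
    have hN0 : (0 : ℝ) < S.card := by linarith
    refine (hmain δ hδ hδ1 ι S c e hF _ hM).trans (ENNReal.ofReal_le_ofReal ?_)
    have hp : 0 < 1 / q := by positivity
    have hp1 : 1 / q ≤ 1 := by rw [div_le_one hq0]; exact hq1.le
    rw [Real.mul_rpow hA0.le (by positivity), ← Real.rpow_mul hN0.le]
    have k1 : A ^ (1 - 1 / q) ≤ max A 1 := by
      have h1 : 1 ≤ max A 1 := le_max_right _ _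
      calc A ^ (1 - 1 / q) ≤ (max A 1) ^ (1 - 1 / q) :=
            Real.rpow_le_rpow hA0.le (le_max_left _ _) (by linarith)
        _ ≤ (max A 1) ^ (1 : ℝ) := Real.rpow_le_rpow_of_exponent_le h1 (by linarith)
        _ = _ := Real.rpow_one _
    have k2 : (S.card : ℝ) ^ (1 / q + ((1 - σ) - (1 - σ + 1 / d) / q)) *
        (S.card : ℝ) ^ (σ * (1 - 1 / q)) = (S.card : ℝ) ^ (1 - 1 / (q * d)) := by
      rw [← Real.rpow_add hN0]
      congr 1
      field_simp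
      ring
    calc B * (δ ^ ((d : ℝ) / q) * ((S.card : ℝ) ^ (1 / q + ((1 - σ) - (1 - σ + 1 / d) / q)) *
          (A ^ (1 - 1 / q) * (S.card : ℝ) ^ (σ * (1 - 1 / q)))))
        = B * A ^ (1 - 1 / q) * (δ ^ ((d : ℝ) / q) *
            ((S.card : ℝ) ^ (1 / q + ((1 - σ) - (1 - σ + 1 / d) / q)) *
              (S.card : ℝ) ^ (σ * (1 - 1 / q)))) := by ring
      _ ≤ B * max A 1 * (δ ^ ((d : ℝ) / q) *
            ((S.card : ℝ) ^ (1 / q + ((1 - σ) - (1 - σ + 1 / d) / q)) *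
              (S.card : ℝ) ^ (σ * (1 - 1 / q)))) := by gcongr
      _ = _ := by rw [k2]
  · -- above the critical exponent
    obtain ⟨C, hC, hLoss⟩ := hL q hcase
    have hgap : 0 < ((1 - σ) / k - 1 / d) / q := by
      refine div_pos ?_ hq0
      rw [sub_pos, div_lt_div_iff₀ hd0 hk0, one_mul]
      have h1 : (k : ℝ) / d < 1 - σ := by linarith
      rw [div_lt_iff₀ hd0] at h1
      exact h1
    obtain ⟨B, hB, hmain⟩ := lossM (q := q) hk hkd hC hq1 hLoss hgap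
    refine ⟨B * max A 1, ?_⟩
    intro δ hδ hδ1 ι S c e hF hM
    rcases S.eq_empty_or_nonempty with rfl | hne
    · have : (fun x => ((mu δ c e (∅ : Finset ι) x : ℕ) : ℝ)) = 0 := by
        funext x
        simp [mu]
      rw [this, eLpNorm_zero]
      exact zero_le
    have hA0 := hA1 ι S e δ hδ hne hM
    have hN1 : (1 : ℝ) ≤ S.card := by exact_mod_cast Finset.card_pos.mpr hne
    have hN0 : (0 : ℝ) < S.card := by linarith
    refine (hmain δ hδ hδ1 ι S c e hF _ hM).trans (ENNReal.ofReal_le_ofReal ?_)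
    have hk1 : (1 : ℝ) ≤ k := by exact_mod_cast hk
    have hqk : 1 < q * k := by nlinarith
    have hp : 0 < 1 / (q * k) := by positivity
    have hp1 : 1 / (q * k) ≤ 1 := by rw [div_le_one (by linarith)]; exact hqk.le
    rw [Real.mul_rpow hA0.le (by positivity), ← Real.rpow_mul hN0.le]
    have k1 : A ^ (1 / (q * k)) ≤ max A 1 := by
      have h1 : 1 ≤ max A 1 := le_max_right _ _
      calc A ^ (1 / (q * k)) ≤ (max A 1) ^ (1 / (q * k)) :=
            Real.rpow_le_rpow hA0.le (le_max_left _ _) hp.le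
        _ ≤ (max A 1) ^ (1 : ℝ) := Real.rpow_le_rpow_of_exponent_le h1 hp1
        _ = _ := Real.rpow_one _
    have k2 : (S.card : ℝ) ^ (1 - 1 / (q * k) + ((1 - σ) / k - 1 / d) / q) *
        (S.card : ℝ) ^ (σ * (1 / (q * k))) = (S.card : ℝ) ^ (1 - 1 / (q * d)) := by
      rw [← Real.rpow_add hN0]
      congr 1
      field_simp
      ring
    calc B * (δ ^ ((d : ℝ) / q) * ((S.card : ℝ) ^ (1 - 1 / (q * k) +
            ((1 - σ) / k - 1 / d) / q) *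
          (A ^ (1 / (q * k)) * (S.card : ℝ) ^ (σ * (1 / (q * k))))))
        = B * A ^ (1 / (q * k)) * (δ ^ ((d : ℝ) / q) *
            ((S.card : ℝ) ^ (1 - 1 / (q * k) + ((1 - σ) / k - 1 / d) / q) *
              (S.card : ℝ) ^ (σ * (1 / (q * k))))) := by ring
      _ ≤ B * max A 1 * (δ ^ ((d : ℝ) / q) *
            ((S.card : ℝ) ^ (1 - 1 / (q * k) + ((1 - σ) / k - 1 / d) / q) *
              (S.card : ℝ) ^ (σ * (1 / (q * k))))) := by gcongr
      _ = _ := by rw [k2]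

end Pool.GP
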