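import Pool.Agent.H94.GP.Geo

/-!
# Selection of a large subfamily with separated projected directions
-/

set_option autoImplicit false

open MeasureTheory ENNReal
open scoped RealInnerProductSpace

namespace Pool.GP

open Pool.Agent.H53.Kak Pool.Agent.H53.Dns

variable {d k : ℕ} {ι : Type}

lemma prr_smul (Q : ℕ) (a : Fin k → Fin d → Fin Q) (t : ℝ) (x : Fin d → ℝ) (l : Fin k) :
    prr Q a (fun r => t * x r) l = t * prr Q a x l := by
  unfold prr
  rw [mul_div_assoc', Finset.mul_sum]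
  congr 1
  exact Finset.sum_congr rfl fun r _ => by ring

/-- The coordinates of the projected direction. -/
lemma prD_coord {κ : Fin (d + 1)} {Q : ℕ} (a : Fin k → Fin d → Fin Q) {e : E d} (h : Mx κ e)
    (he : ‖e‖ = 1) (l : Fin k) :
    prD κ Q a e l.succ = prD κ Q a e 0 * prr Q a (slp κ e) l := by
  have hk := h.ne he
  have h1 : (fun r => e (κ.succAbove r)) = fun r => e κ * slp κ e r := by
    funext r
    rw [slp]
    field_simp
  rw [prD, PiLp.smul_apply, PiLp.smul_apply, prE_zero, prE_succ, h1, prr_smul, smul_eq_mul,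
    smul_eq_mul]
  ring

lemma abs_prr_slp {κ : Fin (d + 1)} {Q : ℕ} (hQ : 0 < Q) (hd : 0 < d)
    (a : Fin k → Fin d → Fin Q) {e : E d} (h : Mx κ e) (he : ‖e‖ = 1) (l : Fin k) :
    |prr Q a (slp κ e) l| ≤ 1 :=
  abs_prr_le hQ hd a (fun r => h.slp he r) l

lemma prD_zero_ge {κ : Fin (d + 1)} {Q : ℕ} (hQ : 0 < Q) (hd : 0 < d)
    (a : Fin k → Fin d → Fin Q) {e : E d} (h : Mx κ e) (he : ‖e‖ = 1) :
    1 / ((k : ℝ) + 1) ≤ |prD κ Q a e 0| := by
  have h1 : ‖prD κ Q a e‖ ≤ ((k : ℝ) + 1) * |prD κ Q a e 0| := by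
    refine norm_le_of_coord (abs_nonneg _) fun i => ?_
    refine Fin.cases le_rfl (fun l => ?_) i
    rw [prD_coord a h he, abs_mul]
    have h2 := abs_prr_slp hQ hd a h he l
    nlinarith [abs_nonneg (prD κ Q a e 0)]
  rw [norm_prD a h he] at h1
  rw [div_le_iff₀ (by positivity)]
  linarith

/-- The rounded projection of the velocity. -/
lemma prj_vv_near {κ : Fin (d + 1)} {Q : ℕ} (hQ : 0 < Q) (hd : 0 < d)
    (a : Fin k → Fin d → Fin Q) (m : ℕ) (e : E d) (l : Fin k) :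
    |(prj Q a (vv κ m e) l : ℝ) - 2 ^ m * prr Q a (slp κ e) l| ≤ 2 := by
  have h1 := prj_near hQ hd a (vv κ m e) l
  have h2 : |prr Q a (fun r => (vv κ m e r : ℝ)) l - prr Q a (fun r => 2 ^ m * slp κ e r) l| ≤
      1 := by
    rw [prr_sub]
    refine abs_prr_le hQ hd a (fun r => ?_) l
    have h3 := Int.floor_le (2 ^ m * slp κ e r)
    have h4 := Int.lt_floor_add_one (2 ^ m * slp κ e r)
    rw [abs_le]
    unfold vv
    constructor <;> linarith
  rw [prr_smul] at h2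
  rw [abs_le] at h2 ⊢
  constructor <;> linarith [h1.1, h1.2, h2.1, h2.2]

/-- Separation of the projected directions. -/
lemma prD_sep {κ : Fin (d + 1)} {Q : ℕ} (hQ : 0 < Q) (hd : 0 < d)
    (a : Fin k → Fin d → Fin Q) {m : ℕ} {r : ℝ} {Λ : ℤ} (hΛ : 2 * ((k : ℝ) + 1) * (r * 2 ^ m) + 4 ≤ Λ)
    {e e' : E d} (h : Mx κ e) (he : ‖e‖ = 1) (h' : Mx κ e') (he' : ‖e'‖ = 1)
    (hsep : ∃ l, Λ < |prj Q a (vv κ m e) l - prj Q a (vv κ m e') l|) :
    r ≤ ‖prD κ Q a e - prD κ Q a e'‖ := by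
  obtain ⟨l, hl⟩ := hsep
  by_contra hcon
  push Not at hcon
  have hk : (0 : ℝ) < (k : ℝ) + 1 := by positivity
  have h2m : (0 : ℝ) < 2 ^ m := by positivity
  have h1 := prD_coord (Q := Q) a h he l
  have h2 := prD_coord (Q := Q) a h' he' l
  have h3 := abs_prr_slp hQ hd a h' he' l
  have h4 := prD_zero_ge hQ hd a h he
  have h5 := coord_le (prD κ Q a e - prD κ Q a e') l.succ
  have h6 := coord_le (prD κ Q a e - prD κ Q a e') 0
  rw [PiLp.sub_apply] at h5 h6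
  have h7 : |prD κ Q a e 0 * (prr Q a (slp κ e) l - prr Q a (slp κ e') l)| ≤
      2 * ‖prD κ Q a e - prD κ Q a e'‖ := by
    have e1 : prD κ Q a e 0 * (prr Q a (slp κ e) l - prr Q a (slp κ e') l) =
        (prD κ Q a e l.succ - prD κ Q a e' l.succ) -
          (prD κ Q a e 0 - prD κ Q a e' 0) * prr Q a (slp κ e') l := by
      rw [h1, h2]; ring
    rw [e1]
    refine (abs_sub _ _).trans ?_
    rw [abs_mul (prD κ Q a e 0 - prD κ Q a e' 0)]
    nlinarith [abs_nonneg (prD κ Q a e 0 - prD κ Q a e' 0)]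
  rw [abs_mul] at h7
  have h8 : |prr Q a (slp κ e) l - prr Q a (slp κ e') l| ≤ 2 * ((k : ℝ) + 1) * r := by
    have h9 : 1 / ((k : ℝ) + 1) * |prr Q a (slp κ e) l - prr Q a (slp κ e') l| ≤ 2 * r := by
      have : 1 / ((k : ℝ) + 1) * |prr Q a (slp κ e) l - prr Q a (slp κ e') l| ≤
          |prD κ Q a e 0| * |prr Q a (slp κ e) l - prr Q a (slp κ e') l| := by gcongr
      linarith
    rw [one_div, inv_mul_le_iff₀ hk] at h9
    linarith
  have h9 := prj_vv_near (κ := κ) hQ hd a m e l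
  have h10 := prj_vv_near (κ := κ) hQ hd a m e' l
  have h11 : |2 ^ m * prr Q a (slp κ e) l - 2 ^ m * prr Q a (slp κ e') l| ≤
      2 * ((k : ℝ) + 1) * (r * 2 ^ m) := by
    rw [← mul_sub, abs_mul, abs_of_pos h2m]
    calc 2 ^ m * |prr Q a (slp κ e) l - prr Q a (slp κ e') l| ≤
          2 ^ m * (2 * ((k : ℝ) + 1) * r) := by gcongr
      _ = _ := by ring
  have h12 : |((prj Q a (vv κ m e) l - prj Q a (vv κ m e') l : ℤ) : ℝ)| ≤ Λ := by
    push_cast
    rw [abs_le] at h9 h10 h11 ⊢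
    constructor <;> linarith [h9.1, h9.2, h10.1, h10.2, h11.1, h11.2]
  have h13 : ((|prj Q a (vv κ m e) l - prj Q a (vv κ m e') l| : ℤ) : ℝ) ≤ (Λ : ℝ) := by
    rw [Int.cast_abs]; exact h12
  exact absurd (Int.cast_le.mp h13) (not_le.mpr hl)

/-- The constant of the selection lemma. -/
noncomputable def Cs (d k Λ : ℕ) (ε : ℝ) : ℝ :=
  2 * ((d : ℝ) + 1) * (Cw d * (Cq d k ε * (8 * ((d : ℝ) + 1)) ^ k * ((Λ : ℝ) + 1) ^ k))

lemma one_le_Cs (d k Λ : ℕ) {ε : ℝ} (hε : 0 < ε) : 1 ≤ Cs d k Λ ε := by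
  have hd0 : (0 : ℝ) ≤ d := Nat.cast_nonneg d
  have hΛ : (0 : ℝ) ≤ Λ := Nat.cast_nonneg Λ
  unfold Cs
  refine one_le_mul_of_one_le_of_one_le (by linarith) (one_le_mul_of_one_le_of_one_le
    (one_le_Cw d) (one_le_mul_of_one_le_of_one_le (one_le_mul_of_one_le_of_one_le
    (one_le_Cq d k hε) ?_) ?_))
  · exact one_le_pow₀ (by linarith)
  · exact one_le_pow₀ (by linarith)

open Classical in
/-- **The selection lemma.** -/
theorem select_sub (hd : 0 < d) {δ M : ℝ} (hδ : 0 < δ) (hδ1 : δ < 1) (S : Finset ι)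
    (hS : S.Nonempty) (e : ι → E d) (hF : Fam δ e S) (hM : CncT k δ M e S) (Λ : ℕ) {ε : ℝ}
    (hε : 0 < ε) :
    ∃ (κ : Fin (d + 1)) (Q m : ℕ) (a : Fin k → Fin d → Fin Q) (S' : Finset ι), S' ⊆ S ∧ 0 < Q ∧
      (∀ i ∈ S', Mx κ (e i)) ∧ δ * 2 ^ m ≤ 1 ∧
      (∀ i ∈ S', ∀ j ∈ S', i ≠ j → ∃ l, (Λ : ℤ) <
        |prj Q a (vv κ m (e i)) l - prj Q a (vv κ m (e j)) l|) ∧
      (S.card : ℝ) ≤ Cs d k Λ ε * M * (S.card : ℝ) ^ ε * S'.card := by
  have hd0 : (0 : ℝ) ≤ d := Nat.cast_nonneg d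
  have hM1 : 1 ≤ M := hM.one_le hδ hS
  have hM0 : 0 < M := by linarith
  obtain ⟨m, hmA, hmB⟩ := exists_nat_pow_near (x := δ⁻¹) (y := 2)
    ((one_le_inv₀ hδ).mpr hδ1.le) (by norm_num)
  have h2m : (0 : ℝ) < 2 ^ m := by positivity
  have hm1 : δ * 2 ^ m ≤ 1 := by
    calc δ * 2 ^ m ≤ δ * δ⁻¹ := by gcongr
      _ = 1 := mul_inv_cancel₀ hδ.ne'
  have hm2 : 1 ≤ 2 * (δ * 2 ^ m) := by
    calc (1 : ℝ) = δ * δ⁻¹ := (mul_inv_cancel₀ hδ.ne').symm
      _ ≤ δ * 2 ^ (m + 1) := by gcongr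
      _ = 2 * (δ * 2 ^ m) := by rw [pow_succ]; ring
  -- one chart
  choose kk hkk using fun i => exists_mx (e i)
  obtain ⟨τ, hτ⟩ : ∃ τ : ι → Fin (d + 1) × Bool, τ = fun i => (kk i, decide (0 < e i (kk i))) :=
    ⟨_, rfl⟩
  have hTcard : ((Finset.univ : Finset (Fin (d + 1) × Bool)).card : ℝ) = 2 * ((d : ℝ) + 1) := by
    rw [Finset.card_univ, Fintype.card_prod, Fintype.card_fin, Fintype.card_bool]
    push_cast; ring
  obtain ⟨⟨κ, σ⟩, -, ht⟩ := Finset.exists_le_card_fiber_of_nsmul_le_card_of_maps_to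
    (s := S) (t := (Finset.univ : Finset (Fin (d + 1) × Bool))) (f := τ)
    (b := (S.card : ℝ) / (2 * ((d : ℝ) + 1))) (fun _ _ => Finset.mem_univ _)
    Finset.univ_nonempty (by
      rw [nsmul_eq_mul, hTcard, mul_div_cancel₀ _ (by positivity)])
  obtain ⟨L, hL⟩ : ∃ L, L = S.filter fun i => τ i = (κ, σ) := ⟨_, rfl⟩
  rw [← hL] at ht
  have hLS : L ⊆ S := by rw [hL]; exact Finset.filter_subset _ _
  have hLk : ∀ i ∈ L, kk i = κ := fun i hi => by
    rw [hL] at hi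
    have := (Finset.mem_filter.1 hi).2
    rw [hτ] at this
    exact congrArg Prod.fst this
  have hLσ : ∀ i ∈ L, decide (0 < e i (kk i)) = σ := fun i hi => by
    rw [hL] at hi
    have := (Finset.mem_filter.1 hi).2
    rw [hτ] at this
    exact congrArg Prod.snd this
  have hmx : ∀ i ∈ L, Mx κ (e i) := fun i hi => hLk i hi ▸ hkk i
  have hsgn : (∀ i ∈ L, 0 < e i κ) ∨ (∀ i ∈ L, e i κ < 0) := by
    cases hσ : σ with
    | true =>
      left
      intro i hi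
      have h1 := hLσ i hi
      rw [hLk i hi, hσ] at h1
      exact of_decide_eq_true h1
    | false =>
      right
      intro i hi
      have h1 := hLσ i hi
      rw [hLk i hi, hσ] at h1
      have h2 := of_decide_eq_false h1
      exact lt_of_le_of_ne (not_lt.mp h2) ((hmx i hi).ne (hF.unit i (hLS hi)))
  have hSL : (S.card : ℝ) ≤ 2 * ((d : ℝ) + 1) * L.card := by
    rw [div_le_iff₀ (by positivity)] at ht
    linarith
  -- one line for each velocity
  obtain ⟨L', hL'L, hL'inj, hL'img⟩ := exists_reps L (fun i => vv κ m (e i))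
  have hLL' : (L.card : ℝ) ≤ Cw d * L'.card := by
    have h1 := card_vv (m := m) (b := 0) hδ κ L e (hF.mono hLS) hmx hsgn (Nat.zero_le m) hm2
    rw [Nat.sub_zero, pow_zero, one_pow, mul_one, ← hL'img,
      Finset.card_image_of_injOn hL'inj] at h1
    exact h1
  -- the projection
  obtain ⟨V, hV⟩ : ∃ V, V = L'.image fun i => vv κ m (e i) := ⟨_, rfl⟩
  have hVcard : V.card = L'.card := by rw [hV, Finset.card_image_of_injOn hL'inj]
  have hVcnc : Cnc k ((8 * ((d : ℝ) + 1)) ^ k * M) V := by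
    rw [hV]
    exact cnc_of_tubes hδ hF.unit hM κ L' m (hL'L.trans hLS) (fun i hi => hmx i (hL'L hi))
      (by
        rcases hsgn with hs | hs
        · exact Or.inl fun i hi => hs i (hL'L hi)
        · exact Or.inr fun i hi => hs i (hL'L hi)) hm2
  obtain ⟨Q, hQ⟩ : ∃ Q : ℕ, Q = 2 ^ (m + 1) := ⟨_, rfl⟩
  have hQ0 : 0 < Q := by rw [hQ]; positivity
  obtain ⟨a, V', hV'V, hV'inj, hV'card⟩ := exists_proj hQ0 hVcnc (by
    intro x hx y hy
    rw [hV] at hx hy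
    obtain ⟨i, hi, rfl⟩ := Finset.mem_image.mp hx
    obtain ⟨i', hi', rfl⟩ := Finset.mem_image.mp hy
    refine nrm_le fun r => ?_
    have h1 := abs_le.mp (vv_le (hmx i (hL'L hi)) (hF.unit i (hLS (hL'L hi))) m r)
    have h2 := abs_le.mp (vv_le (hmx i' (hL'L hi')) (hF.unit i' (hLS (hL'L hi'))) m r)
    have h3 : ((vv κ m (e i) r - vv κ m (e i') r).natAbs : ℤ) ≤ (Q : ℤ) := by
      rw [Int.natCast_natAbs, hQ, abs_le]
      push_cast
      rw [pow_succ]
      constructor <;> linarith [h1.1, h1.2, h2.1, h2.2]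
    exact_mod_cast h3)
  obtain ⟨L₂, hL₂⟩ : ∃ L₂ : Finset ι, L₂ = L'.filter fun i => vv κ m (e i) ∈ V' := ⟨_, rfl⟩
  have hL₂L' : L₂ ⊆ L' := by rw [hL₂]; exact Finset.filter_subset _ _
  have hL₂V : ∀ i ∈ L₂, vv κ m (e i) ∈ V' := fun i hi => by
    rw [hL₂] at hi
    exact (Finset.mem_filter.mp hi).2
  have hL₂card : L₂.card = V'.card := by
    have h1 : L₂.image (fun i => vv κ m (e i)) = V' := by
      ext x
      constructor
      · intro hx
        obtain ⟨i, hi, rfl⟩ := Finset.mem_image.mp hx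
        exact hL₂V i hi
      · intro hx
        have := hV'V hx
        rw [hV] at this
        obtain ⟨i, hi, rfl⟩ := Finset.mem_image.mp this
        rw [hL₂]
        exact Finset.mem_image.mpr ⟨i, Finset.mem_filter.mpr ⟨hi, hx⟩, rfl⟩
    rw [← h1, Finset.card_image_of_injOn]
    intro i hi j hj hij
    exact hL'inj (Finset.mem_coe.mpr (hL₂L' (Finset.mem_coe.mp hi)))
      (Finset.mem_coe.mpr (hL₂L' (Finset.mem_coe.mp hj))) hij
  -- residues
  obtain ⟨ρ, hρ⟩ : ∃ ρ : ι → Fin k → ℤ, ρ = fun i l =>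
    prj Q a (vv κ m (e i)) l % ((Λ : ℤ) + 1) := ⟨_, rfl⟩
  have hΛ0 : (0 : ℤ) < (Λ : ℤ) + 1 := by positivity
  have hmaps : ∀ i ∈ L₂, ρ i ∈ Fintype.piFinset (fun _ : Fin k =>
      Finset.Ico (0 : ℤ) ((Λ : ℤ) + 1)) := by
    intro i _
    rw [Fintype.mem_piFinset]
    intro l
    rw [hρ, Finset.mem_Ico]
    exact ⟨Int.emod_nonneg _ hΛ0.ne', Int.emod_lt_of_pos _ hΛ0⟩
  have hcardT : (Fintype.piFinset (fun _ : Fin k => Finset.Ico (0 : ℤ) ((Λ : ℤ) + 1))).card =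
      (Λ + 1) ^ k := by
    rw [Fintype.card_piFinset]
    simp only [Int.card_Ico, sub_zero, Finset.prod_const, Finset.card_univ, Fintype.card_fin]
    congr 1
  obtain ⟨y, -, hy2⟩ := Finset.exists_le_card_fiber_of_nsmul_le_card_of_maps_to
    (b := (L₂.card : ℝ) / ((Λ : ℝ) + 1) ^ k) hmaps
    (Finset.card_pos.mp (by rw [hcardT]; positivity))
    (by rw [hcardT, nsmul_eq_mul]; push_cast; rw [mul_div_cancel₀ _ (by positivity)])
  obtain ⟨S', hS'⟩ : ∃ S', S' = L₂.filter fun i => ρ i = y := ⟨_, rfl⟩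
  rw [← hS'] at hy2
  have hS'L₂ : S' ⊆ L₂ := by rw [hS']; exact Finset.filter_subset _ _
  refine ⟨κ, Q, m, a, S', (hS'L₂.trans hL₂L').trans (hL'L.trans hLS), hQ0,
    fun i hi => hmx i (hL'L (hL₂L' (hS'L₂ hi))), hm1, ?_, ?_⟩
  · intro i hi j hj hij
    have hne : prj Q a (vv κ m (e i)) ≠ prj Q a (vv κ m (e j)) := by
      intro h
      have h1 := hV'inj (Finset.mem_coe.mpr (hL₂V i (hS'L₂ hi)))
        (Finset.mem_coe.mpr (hL₂V j (hS'L₂ hj))) h
      exact hij (hL'inj (Finset.mem_coe.mpr (hL₂L' (hS'L₂ hi)))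
        (Finset.mem_coe.mpr (hL₂L' (hS'L₂ hj))) h1)
    obtain ⟨l, hl⟩ := Function.ne_iff.mp hne
    refine ⟨l, ?_⟩
    have h1 : prj Q a (vv κ m (e i)) l % ((Λ : ℤ) + 1) =
        prj Q a (vv κ m (e j)) l % ((Λ : ℤ) + 1) := by
      rw [hS'] at hi hj
      have e1 := congrFun (Finset.mem_filter.mp hi).2 l
      have e2 := congrFun (Finset.mem_filter.mp hj).2 l
      rw [hρ] at e1 e2
      exact e1.trans e2.symm
    have h2 : ((Λ : ℤ) + 1) ∣ prj Q a (vv κ m (e i)) l - prj Q a (vv κ m (e j)) l :=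
      Int.ModEq.dvd h1.symm
    have h3 : prj Q a (vv κ m (e i)) l - prj Q a (vv κ m (e j)) l ≠ 0 := sub_ne_zero.mpr hl
    have h4 := Int.le_of_dvd (abs_pos.mpr h3) ((dvd_abs _ _).mpr h2)
    omega
  · -- the number of elements
    have hN1 : 1 ≤ L'.card := by
      rw [Nat.one_le_iff_ne_zero]
      intro h0
      rw [h0, Nat.cast_zero, mul_zero] at hLL'
      have h1 : (0 : ℝ) < S.card := by exact_mod_cast Finset.card_pos.mpr hS
      have h2 : (L.card : ℝ) = 0 := le_antisymm hLL' (Nat.cast_nonneg _)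
      rw [h2, mul_zero] at hSL
      linarith
    have h8 : 1 ≤ (8 * ((d : ℝ) + 1)) ^ k * M := by
      refine one_le_mul_of_one_le_of_one_le (one_le_pow₀ (by linarith)) hM1
    have h1 : (L'.card : ℝ) ≤ Cq d k ε * ((8 * ((d : ℝ) + 1)) ^ k * M) * (L'.card : ℝ) ^ ε *
        L₂.card := by
      rw [hL₂card]
      rw [hVcard] at hV'card
      refine hV'card.trans ?_
      exact mul_le_mul_of_nonneg_right (Cp_le hε h8 hN1) (Nat.cast_nonneg _)
    have h2 : (L'.card : ℝ) ^ ε ≤ (S.card : ℝ) ^ ε := by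
      refine Real.rpow_le_rpow (Nat.cast_nonneg _) ?_ hε.le
      exact_mod_cast Finset.card_le_card (hL'L.trans hLS)
    have h3 : (L₂.card : ℝ) ≤ S'.card * ((Λ : ℝ) + 1) ^ k := by
      rwa [div_le_iff₀ (by positivity)] at hy2
    have hCw := one_le_Cw d
    have hCq := one_le_Cq d k hε
    have hCw0 : 0 < Cw d := by linarith
    have hCq0 : 0 < Cq d k ε := by linarith
    calc (S.card : ℝ) ≤ 2 * ((d : ℝ) + 1) * L.card := hSL
      _ ≤ 2 * ((d : ℝ) + 1) * (Cw d * L'.card) := by gcongr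
      _ ≤ 2 * ((d : ℝ) + 1) * (Cw d * (Cq d k ε * ((8 * ((d : ℝ) + 1)) ^ k * M) *
            (L'.card : ℝ) ^ ε * L₂.card)) := by gcongr
      _ ≤ 2 * ((d : ℝ) + 1) * (Cw d * (Cq d k ε * ((8 * ((d : ℝ) + 1)) ^ k * M) *
            (S.card : ℝ) ^ ε * (S'.card * ((Λ : ℝ) + 1) ^ k))) := by gcongr
      _ = _ := by unfold Cs; ring

end Pool.GP
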