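import Pool.Agent.H94.GP.Sel

/-!
# The inequality for a large subfamily, and for the family
-/

set_option autoImplicit false

open MeasureTheory ENNReal
open scoped RealInnerProductSpace

namespace Pool.GP

open Pool.Agent.H53.Kak Pool.Agent.H53.Dns
open Pool.Agent.H55.HDim (om om_pos)

variable {d k : ℕ} {ι : Type}

lemma eLpNorm_nat {α : Type*} [MeasurableSpace α] (μ : Measure α) (f : α → ℕ) {q : ℝ}
    (hq : 0 < q) : eLpNorm (fun x => (f x : ℝ)) (ENNReal.ofReal q) μ =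
      (∫⁻ x, ((f x : ℕ) : ℝ≥0∞) ^ q ∂μ) ^ (1 / q) := by
  have hqE : ENNReal.ofReal q ≠ 0 := (ENNReal.ofReal_pos.2 hq).ne'
  rw [eLpNorm_eq_lintegral_rpow_enorm_toReal hqE ENNReal.ofReal_ne_top,
    ENNReal.toReal_ofReal hq.le]
  congr 1
  refine lintegral_congr fun x => ?_
  rw [Real.enorm_of_nonneg (Nat.cast_nonneg _), ENNReal.ofReal_natCast]

/-- The `L ^ q` norm of the number of projected tubes. -/
lemma muP_norm {C q : ℝ} (hq : 1 < q) (hL : Loss k q 0 C)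
    {κ : Fin (d + 1)} {Q : ℕ} (a : Fin k → Fin d → Fin Q) {r : ℝ} (hr : 0 < r)
    (hr1 : r < 1) (c e : ι → E d) (S : Finset ι) (hu : ∀ i ∈ S, ‖e i‖ = 1)
    (hmx : ∀ i ∈ S, Mx κ (e i))
    (hsep : ∀ i ∈ S, ∀ j ∈ S, i ≠ j → r ≤ ‖prD κ Q a (e i) - prD κ Q a (e j)‖) :
    eLpNorm (fun z => ((muP κ Q a r c e S z : ℕ) : ℝ)) (ENNReal.ofReal q) volume ≤
      (4 * k + 7 : ℕ) * ENNReal.ofReal (C * (r ^ ((k : ℝ) / q) *
        (S.card : ℝ) ^ (1 - 1 / (q * k)))) := by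
  have hF : Fam r (fun i => prD κ Q a (e i)) S :=
    ⟨fun i hi => norm_prD a (hmx i hi) (hu i hi), hsep⟩
  have h1 : (fun z => ((muP κ Q a r c e S z : ℕ) : ℝ)) =
      ∑ m ∈ Finset.Icc (-(2 * (k : ℤ) + 3)) (2 * (k : ℤ) + 3), fun z =>
        ((mu r (fun i => prE κ Q a (c i) + ((m : ℝ) / 2) • prD κ Q a (e i))
      (fun i => prD κ Q a (e i)) S z : ℕ) : ℝ) := by
    funext z
    rw [Finset.sum_apply, muP]
    push_cast
    rfl
  rw [h1]
  refine (eLpNorm_sum_le (fun m _ => (measurable_mu _ _ _ _).aestronglyMeasurable) ?_).trans ?_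
  · rw [← ENNReal.ofReal_one]
    exact ENNReal.ofReal_le_ofReal hq.le
  · refine (Finset.sum_le_sum fun (m : ℤ) _ => hL r hr hr1 ι S
      (fun i => prE κ Q a (c i) + ((m : ℝ) / 2) • prD κ Q a (e i))
      (fun i => prD κ Q a (e i)) hF).trans ?_
    rw [Finset.sum_const, nsmul_eq_mul, neg_zero, Real.rpow_zero, mul_one, Int.card_Icc]
    have : (2 * (k : ℤ) + 3 + 1 - -(2 * (k : ℤ) + 3)).toNat = 4 * k + 7 := by omega
    rw [this]

/-- The constant in the comparison. -/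
noncomputable def Ct (d k : ℕ) : ℝ := 2 ^ (d + 1) * om d * (2 * d + 3) / om k + 1

lemma one_le_Ct (d k : ℕ) : 1 ≤ Ct d k := by
  have h1 := om_pos d
  have h2 := om_pos k
  unfold Ct
  have : 0 ≤ 2 ^ (d + 1) * om d * (2 * d + 3) / om k := by positivity
  linarith

/-- The constant in the one-step bound. -/
noncomputable def Co (d k : ℕ) (C : ℝ) : ℝ :=
  Ct d k * ((4 * k + 7) * (C * (2 * (3 * (k : ℝ) + 4)) ^ k))

/-- **The one-step bound.** -/
theorem one_step (hd : 0 < d) (hkd : k ≤ d) {C q : ℝ} (hC : 0 ≤ C) (hq : 1 < q)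
    (hL : Loss k q 0 C) {δ : ℝ} (hδ : 0 < δ) (hδ1 : (3 * (k : ℝ) + 4) * δ ≤ 1 / 4)
    {κ : Fin (d + 1)} {Q m : ℕ} (hQ : 0 < Q) (a : Fin k → Fin d → Fin Q) (c e : ι → E d)
    (S : Finset ι) (hu : ∀ i ∈ S, ‖e i‖ = 1) (hmx : ∀ i ∈ S, Mx κ (e i))
    (hm : δ * 2 ^ m ≤ 1) {Λ : ℕ} (hΛ : 4 * ((k : ℝ) + 1) * (3 * k + 4) + 4 ≤ Λ)
    (hsep : ∀ i ∈ S, ∀ j ∈ S, i ≠ j → ∃ l, (Λ : ℤ) <
        |prj Q a (vv κ m (e i)) l - prj Q a (vv κ m (e j)) l|) :
    eLpNorm (fun x => ((mu δ c e S x : ℕ) : ℝ)) (ENNReal.ofReal q) volume ≤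
      ENNReal.ofReal (Co d k C * (δ ^ ((d : ℝ) / q) * (S.card : ℝ) ^ (1 - 1 / (q * k)))) := by
  have hk0 : (0 : ℝ) ≤ k := Nat.cast_nonneg k
  have hq0 : 0 < q := by linarith
  have hom := om_pos d
  have homk := om_pos k
  obtain ⟨η, hη⟩ : ∃ η : ℝ, η = (3 * (k : ℝ) + 4) * δ := ⟨_, rfl⟩
  have hη0 : 0 < η := by rw [hη]; positivity
  have hη4 : η ≤ 1 / 4 := by rw [hη]; exact hδ1
  have hδ1' : δ ≤ 1 := by nlinarith
  have hsep' : ∀ i ∈ S, ∀ j ∈ S, i ≠ j → 2 * η ≤ ‖prD κ Q a (e i) - prD κ Q a (e j)‖ := by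
    intro i hi j hj hij
    refine prD_sep hQ hd a (m := m) (Λ := (Λ : ℤ)) ?_ (hmx i hi) (hu i hi) (hmx j hj)
      (hu j hj) (hsep i hi j hj hij)
    have h1 : 2 * η * 2 ^ m ≤ 2 * (3 * (k : ℝ) + 4) := by
      calc 2 * η * 2 ^ m = 2 * (3 * (k : ℝ) + 4) * (δ * 2 ^ m) := by rw [hη]; ring
        _ ≤ 2 * (3 * (k : ℝ) + 4) * 1 := by gcongr
        _ = _ := mul_one _
    push_cast
    calc 2 * ((k : ℝ) + 1) * (2 * η * 2 ^ m) + 4 ≤
          2 * ((k : ℝ) + 1) * (2 * (3 * (k : ℝ) + 4)) + 4 := by gcongr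
      _ = 4 * ((k : ℝ) + 1) * (3 * k + 4) + 4 := by ring
      _ ≤ Λ := hΛ
  have h1 := muP_norm hq hL a (by positivity : 0 < 2 * η) (by linarith) c e S hu hmx hsep'
  have h2 := transfer (κ := κ) hQ hd a hδ hδ1' c e S hu hmx hη4 hη.ge hq
  rw [eLpNorm_nat _ _ hq0] at h1 ⊢
  obtain ⟨IF, hIF⟩ : ∃ I : ℝ≥0∞, I = ∫⁻ x, ((mu δ c e S x : ℕ) : ℝ≥0∞) ^ q := ⟨_, rfl⟩
  obtain ⟨IG, hIG⟩ : ∃ I : ℝ≥0∞, I = ∫⁻ z, ((muP κ Q a (2 * η) c e S z : ℕ) : ℝ≥0∞) ^ q :=
    ⟨_, rfl⟩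
  rw [← hIG] at h1
  rw [← hIF, ← hIG] at h2
  rw [← hIF]
  have hδk : 0 < δ ^ (k + 1) * om k := by positivity
  have h3 : IF ≤ ENNReal.ofReal (Ct d k * δ ^ (d - k)) * IG := by
    have h4 : ENNReal.ofReal (δ ^ (k + 1) * om k) * IF ≤ ENNReal.ofReal (δ ^ (k + 1) * om k) *
        (ENNReal.ofReal (Ct d k * δ ^ (d - k)) * IG) := by
      refine h2.trans ?_
      have e1 : (((2 * d + 3 : ℕ) : ℝ≥0∞)) = ENNReal.ofReal (2 * d + 3) := by
        rw [← ENNReal.ofReal_natCast]; push_cast; rfl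
      rw [e1, ← mul_assoc, ← mul_assoc, ← ENNReal.ofReal_mul (by positivity),
        ← ENNReal.ofReal_mul (by positivity)]
      refine mul_le_mul_left (ENNReal.ofReal_le_ofReal ?_) _
      have e2 : δ ^ (d + 1) = δ ^ (k + 1) * δ ^ (d - k) := by
        rw [← pow_add]; congr 1; omega
      have e3 : 2 ^ (d + 1) * om d * (2 * d + 3) ≤ Ct d k * om k := by
        unfold Ct
        rw [add_mul, div_mul_cancel₀ _ homk.ne']
        linarith
      calc (2 * δ) ^ (d + 1) * om d * (2 * d + 3) =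
            (2 ^ (d + 1) * om d * (2 * d + 3)) * (δ ^ (k + 1) * δ ^ (d - k)) := by
            rw [mul_pow, e2]; ring
        _ ≤ (Ct d k * om k) * (δ ^ (k + 1) * δ ^ (d - k)) := by gcongr
        _ = _ := by ring
    exact (ENNReal.mul_le_mul_iff_right (ENNReal.ofReal_pos.mpr hδk).ne'
      ENNReal.ofReal_ne_top).mp h4
  have hCt := one_le_Ct d k
  have hCt0 : 0 < Ct d k := by linarith
  calc IF ^ (1 / q) ≤ (ENNReal.ofReal (Ct d k * δ ^ (d - k)) * IG) ^ (1 / q) :=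
        ENNReal.rpow_le_rpow h3 (by positivity)
    _ = ENNReal.ofReal ((Ct d k * δ ^ (d - k)) ^ (1 / q)) * IG ^ (1 / q) := by
        rw [ENNReal.mul_rpow_of_nonneg _ _ (by positivity),
          ENNReal.ofReal_rpow_of_nonneg (by positivity) (by positivity)]
    _ ≤ ENNReal.ofReal ((Ct d k * δ ^ (d - k)) ^ (1 / q)) * ((4 * k + 7 : ℕ) *
          ENNReal.ofReal (C * ((2 * η) ^ ((k : ℝ) / q) *
            (S.card : ℝ) ^ (1 - 1 / (q * k))))) := by gcongr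
    _ = ENNReal.ofReal ((Ct d k * δ ^ (d - k)) ^ (1 / q) * ((4 * k + 7) *
          (C * ((2 * η) ^ ((k : ℝ) / q) * (S.card : ℝ) ^ (1 - 1 / (q * k)))))) := by
        have e1 : (((4 * k + 7 : ℕ) : ℝ≥0∞)) = ENNReal.ofReal (4 * k + 7) := by
          rw [← ENNReal.ofReal_natCast]; push_cast; rfl
        rw [e1, ← ENNReal.ofReal_mul (by positivity), ← ENNReal.ofReal_mul (by positivity)]
    _ ≤ _ := by
        refine ENNReal.ofReal_le_ofReal ?_
        have hq1 : 1 / q ≤ 1 := by rw [div_le_one hq0]; exact hq.le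
        have hkq : (k : ℝ) / q ≤ k := div_le_self hk0 hq.le
        have e1 : (Ct d k * δ ^ (d - k)) ^ (1 / q) ≤ Ct d k * δ ^ (((d : ℝ) - k) / q) := by
          rw [Real.mul_rpow hCt0.le (by positivity)]
          have e2 : (Ct d k) ^ (1 / q) ≤ Ct d k := by
            calc (Ct d k) ^ (1 / q) ≤ (Ct d k) ^ (1 : ℝ) :=
                  Real.rpow_le_rpow_of_exponent_le hCt hq1
              _ = Ct d k := Real.rpow_one _
          have e3 : (δ ^ (d - k)) ^ (1 / q) = δ ^ (((d : ℝ) - k) / q) := by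
            rw [← Real.rpow_natCast, ← Real.rpow_mul hδ.le, Nat.cast_sub hkd]
            congr 1
            ring
          rw [e3]
          gcongr
        have e2 : (2 * η) ^ ((k : ℝ) / q) ≤ (2 * (3 * (k : ℝ) + 4)) ^ k * δ ^ ((k : ℝ) / q) := by
          have e3 : 2 * η = 2 * (3 * (k : ℝ) + 4) * δ := by rw [hη]; ring
          rw [e3, Real.mul_rpow (by positivity) hδ.le]
          have e4 : (1 : ℝ) ≤ 2 * (3 * (k : ℝ) + 4) := by linarith
          have e5 : (2 * (3 * (k : ℝ) + 4)) ^ ((k : ℝ) / q) ≤ (2 * (3 * (k : ℝ) + 4)) ^ k := by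
            rw [← Real.rpow_natCast (2 * (3 * (k : ℝ) + 4)) k]
            exact Real.rpow_le_rpow_of_exponent_le e4 hkq
          gcongr
        have e3 : δ ^ (((d : ℝ) - k) / q) * δ ^ ((k : ℝ) / q) = δ ^ ((d : ℝ) / q) := by
          rw [← Real.rpow_add hδ]
          congr 1
          ring
        calc (Ct d k * δ ^ (d - k)) ^ (1 / q) * ((4 * k + 7) *
              (C * ((2 * η) ^ ((k : ℝ) / q) * (S.card : ℝ) ^ (1 - 1 / (q * k)))))
            ≤ (Ct d k * δ ^ (((d : ℝ) - k) / q)) * ((4 * k + 7) *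
              (C * (((2 * (3 * (k : ℝ) + 4)) ^ k * δ ^ ((k : ℝ) / q)) *
                (S.card : ℝ) ^ (1 - 1 / (q * k))))) := by gcongr
          _ = Co d k C * ((δ ^ (((d : ℝ) - k) / q) * δ ^ ((k : ℝ) / q)) *
                (S.card : ℝ) ^ (1 - 1 / (q * k))) := by unfold Co; ring
          _ = _ := by rw [e3]

lemma eLpNorm_single {δ : ℝ} (hδ : 0 < δ) {q : ℝ} (hq : 1 < q) (c e : ι → E d) (i : ι)
    (hu : ‖e i‖ = 1) :
    eLpNorm (fun x => ((mu δ c e {i} x : ℕ) : ℝ)) (ENNReal.ofReal q) volume ≤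
      ENNReal.ofReal (2 ^ d * δ ^ ((d : ℝ) / q)) := by
  classical
  have hq0 : 0 < q := by linarith
  rw [eLpNorm_nat _ _ hq0]
  have h1 : ∫⁻ x, ((mu δ c e {i} x : ℕ) : ℝ≥0∞) ^ q ≤ ENNReal.ofReal ((2 * δ) ^ d) := by
    refine le_trans (le_of_eq ?_) (volume_tube_le δ hδ.le (c i) (e i) hu)
    rw [← lintegral_indicator_one (measurableSet_tube δ (c i) (e i))]
    refine lintegral_congr fun x => ?_
    rw [muE_eq, Finset.sum_singleton, Set.indicator_apply, Set.indicator_apply]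
    split_ifs
    · simp
    · rw [ENNReal.zero_rpow_of_pos hq0]
  refine (ENNReal.rpow_le_rpow h1 (by positivity)).trans ?_
  rw [ENNReal.ofReal_rpow_of_nonneg (by positivity) (by positivity)]
  refine ENNReal.ofReal_le_ofReal ?_
  rw [mul_pow, Real.mul_rpow (by positivity) (by positivity)]
  have h2d : (1 : ℝ) ≤ 2 ^ d := one_le_pow₀ (by norm_num)
  have hq1 : 1 / q ≤ 1 := by rw [div_le_one hq0]; exact hq.le
  have k2 : ((2 : ℝ) ^ d) ^ (1 / q) ≤ 2 ^ d := by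
    calc ((2 : ℝ) ^ d) ^ (1 / q) ≤ ((2 : ℝ) ^ d) ^ (1 : ℝ) :=
          Real.rpow_le_rpow_of_exponent_le h2d hq1
      _ = 2 ^ d := Real.rpow_one _
  have k4 : (δ ^ d) ^ (1 / q) = δ ^ ((d : ℝ) / q) := by
    rw [← Real.rpow_natCast, ← Real.rpow_mul hδ.le]
    congr 1
    ring
  rw [k4]
  gcongr

/-- **The bound for a large subfamily.** -/
theorem step (hk : 0 < k) (hkd : k ≤ d) {C q ε : ℝ} (hC : 0 ≤ C) (hq : 1 < q)
    (hL : Loss k q 0 C) (hε : 0 < ε) :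
    ∃ B K₀ : ℝ, 1 ≤ B ∧ 1 ≤ K₀ ∧ ∀ δ : ℝ, 0 < δ → δ < 1 → ∀ (ι : Type) (S : Finset ι)
      (c e : ι → E d), Fam δ e S → S.Nonempty → ∀ M : ℝ, CncT k δ M e S →
      ∃ S' ⊆ S, (S.card : ℝ) ≤ K₀ * M * (S.card : ℝ) ^ ε * S'.card ∧
        eLpNorm (fun x => ((mu δ c e S' x : ℕ) : ℝ)) (ENNReal.ofReal q) volume ≤
          ENNReal.ofReal (B * (δ ^ ((d : ℝ) / q) * (S'.card : ℝ) ^ (1 - 1 / (q * k)))) := by
  classical
  have hd : 0 < d := by omega
  have hk0 : (0 : ℝ) ≤ k := Nat.cast_nonneg k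
  obtain ⟨Λ, hΛ⟩ : ∃ Λ : ℕ, 4 * ((k : ℝ) + 1) * (3 * k + 4) + 4 ≤ Λ := exists_nat_ge _
  obtain ⟨δ₀, hδ₀⟩ : ∃ δ₀ : ℝ, δ₀ = 1 / (4 * (3 * (k : ℝ) + 4)) := ⟨_, rfl⟩
  have hδ₀0 : 0 < δ₀ := by rw [hδ₀]; positivity
  obtain ⟨C₃, hC₃⟩ : ∃ C₃ : ℝ, C₃ = CG d * 3 ^ d * (δ₀ ^ d)⁻¹ := ⟨_, rfl⟩
  have hG := one_le_CG d
  have hG0 : 0 < CG d := by linarith
  have hC₃0 : 0 < C₃ := by rw [hC₃]; positivity
  have hCs := one_le_Cs d k Λ hε
  have hCo : 0 ≤ Co d k C := by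
    unfold Co
    have := one_le_Ct d k
    positivity
  have h2d : (1 : ℝ) ≤ 2 ^ d := one_le_pow₀ (by norm_num)
  refine ⟨max (Co d k C) (2 ^ d), max (Cs d k Λ ε) C₃, le_max_of_le_right h2d,
    le_max_of_le_left hCs, ?_⟩
  intro δ hδ hδ1 ι S c e hF hS M hM
  have hM1 : 1 ≤ M := hM.one_le hδ hS
  have hM0 : 0 < M := by linarith
  have hN1 : (1 : ℝ) ≤ S.card := by exact_mod_cast Finset.card_pos.mpr hS
  have hNε : 1 ≤ (S.card : ℝ) ^ ε := Real.one_le_rpow hN1 hε.le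
  rcases le_or_gt δ δ₀ with hcase | hcase
  · -- small `δ`
    have hδ4 : (3 * (k : ℝ) + 4) * δ ≤ 1 / 4 := by
      calc (3 * (k : ℝ) + 4) * δ ≤ (3 * (k : ℝ) + 4) * δ₀ := by gcongr
        _ = 1 / 4 := by rw [hδ₀]; field_simp
    obtain ⟨κ, Q, m, a, S', hS'S, hQ, hmx, hm, hsep, hcard⟩ :=
      select_sub (k := k) hd hδ hδ1 S hS e hF hM Λ hε
    refine ⟨S', hS'S, hcard.trans ?_, ?_⟩
    · have := le_max_left (Cs d k Λ ε) C₃
      gcongr
    · refine (one_step hd hkd hC hq hL hδ hδ4 hQ a c e S' (fun i hi => hF.unit i (hS'S hi)) hmx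
        hm hΛ hsep).trans (ENNReal.ofReal_le_ofReal ?_)
      have := le_max_left (Co d k C) (2 ^ d)
      gcongr
  · -- large `δ`
    obtain ⟨i, hi⟩ := hS
    refine ⟨{i}, Finset.singleton_subset_iff.mpr hi, ?_, ?_⟩
    · rw [Finset.card_singleton, Nat.cast_one, mul_one]
      have h1 := card_le_all hδ hδ1 hF
      have h2 : (δ ^ d)⁻¹ ≤ (δ₀ ^ d)⁻¹ := inv_anti₀ (by positivity) (by gcongr)
      calc (S.card : ℝ) ≤ CG d * 3 ^ d * (δ ^ d)⁻¹ := h1
        _ ≤ C₃ := by rw [hC₃]; gcongr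
        _ ≤ max (Cs d k Λ ε) C₃ := le_max_right _ _
        _ = max (Cs d k Λ ε) C₃ * 1 * 1 := by ring
        _ ≤ max (Cs d k Λ ε) C₃ * M * (S.card : ℝ) ^ ε := by
            have h3 : 0 ≤ max (Cs d k Λ ε) C₃ := le_max_of_le_right hC₃0.le
            gcongr
    · refine (eLpNorm_single hδ hq c e i (hF.unit i hi)).trans (ENNReal.ofReal_le_ofReal ?_)
      rw [Finset.card_singleton, Nat.cast_one, Real.one_rpow, mul_one]
      have := le_max_right (Co d k C) (2 ^ d)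
      gcongr

/-- The recursion. -/
lemma greedy_real {a B K n m : ℝ} (ha0 : 0 < a) (ha1 : a ≤ 1) (hB : 0 ≤ B) (hK : 1 ≤ K)
    (hm : 0 < m) (hmn : m ≤ n) (hn : n ≤ K * m) :
    B * m ^ a + B / a * K ^ (1 - a) * (n - m) ^ a ≤ B / a * K ^ (1 - a) * n ^ a := by
  have hn0 : 0 < n := by linarith
  have hK0 : 0 < K := by linarith
  have h1 : (n - m) ^ a ≤ n ^ a * (1 - a * (m / n)) := by
    have h2 : n - m = n * (1 + -(m / n)) := by field_simp; ring
    have h3 : 0 ≤ 1 + -(m / n) := by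
      have : m / n ≤ 1 := (div_le_one hn0).mpr hmn
      linarith
    rw [h2, Real.mul_rpow hn0.le h3]
    refine mul_le_mul_of_nonneg_left ?_ (by positivity)
    have h4 := rpow_one_add_le_one_add_mul_self (s := -(m / n)) (p := a) (by
      have : m / n ≤ 1 := (div_le_one hn0).mpr hmn
      linarith) ha0.le ha1
    linarith
  have h2 : m ^ a ≤ K ^ (1 - a) * (n ^ a * (m / n)) := by
    have h3 : n ^ a * (m / n) = m * n ^ (a - 1) := by
      rw [Real.rpow_sub_one hn0.ne']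
      ring
    have h4 : m ^ a = m * m ^ (a - 1) := by
      rw [Real.rpow_sub_one hm.ne']
      field_simp
    rw [h3, h4]
    have h5 : m ^ (a - 1) ≤ K ^ (1 - a) * n ^ (a - 1) := by
      have h6 : (K * m) ^ (a - 1) ≤ n ^ (a - 1) :=
        Real.rpow_le_rpow_of_nonpos hn0 hn (by linarith)
      rw [Real.mul_rpow hK0.le hm.le] at h6
      have h7 : K ^ (1 - a) * K ^ (a - 1) = 1 := by
        rw [← Real.rpow_add hK0]
        simp
      calc m ^ (a - 1) = (K ^ (1 - a) * K ^ (a - 1)) * m ^ (a - 1) := by rw [h7, one_mul]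
        _ = K ^ (1 - a) * (K ^ (a - 1) * m ^ (a - 1)) := by ring
        _ ≤ _ := by gcongr
    calc m * m ^ (a - 1) ≤ m * (K ^ (1 - a) * n ^ (a - 1)) := by gcongr
      _ = _ := by ring
  have h3 : B / a * K ^ (1 - a) * (n - m) ^ a ≤
      B / a * K ^ (1 - a) * (n ^ a * (1 - a * (m / n))) := by gcongr
  have h4 : B * m ^ a ≤ B * (K ^ (1 - a) * (n ^ a * (m / n))) := by gcongr
  have h5 : B / a * K ^ (1 - a) * (n ^ a * (1 - a * (m / n))) =
      B / a * K ^ (1 - a) * n ^ a - B * (K ^ (1 - a) * (n ^ a * (m / n))) := by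
    field_simp
  linarith

open Classical in
/-- **From large subfamilies to the family.** -/
theorem greedy {q a B D K : ℝ} (hq : 1 < q) (ha0 : 0 < a) (ha1 : a ≤ 1) (hB : 0 ≤ B)
    (hD : 0 ≤ D) (hK : 1 ≤ K) {δ : ℝ} (c e : ι → E d) (S₀ : Finset ι)
    (h : ∀ S ⊆ S₀, S.Nonempty → ∃ S' ⊆ S, (S.card : ℝ) ≤ K * S'.card ∧
      eLpNorm (fun x => ((mu δ c e S' x : ℕ) : ℝ)) (ENNReal.ofReal q) volume ≤
        ENNReal.ofReal (B * (D * (S'.card : ℝ) ^ a))) :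
    ∀ (n : ℕ) (S : Finset ι), S ⊆ S₀ → S.card = n →
      eLpNorm (fun x => ((mu δ c e S x : ℕ) : ℝ)) (ENNReal.ofReal q) volume ≤
        ENNReal.ofReal (D * (B / a * K ^ (1 - a) * (S.card : ℝ) ^ a)) := by
  intro n
  induction n using Nat.strong_induction_on with
  | _ n ih =>
    intro S hS hn
    rcases S.eq_empty_or_nonempty with rfl | hne
    · have : (fun x => ((mu δ c e (∅ : Finset ι) x : ℕ) : ℝ)) = 0 := by
        funext x
        simp [mu]
      rw [this, eLpNorm_zero]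
      exact zero_le
    obtain ⟨S', hS', hcard, hnorm⟩ := h S hS hne
    have hN0 : (0 : ℝ) < S.card := by exact_mod_cast Finset.card_pos.mpr hne
    have hm0 : (0 : ℝ) < S'.card := by
      by_contra h0
      have h1 : (S'.card : ℝ) = 0 := le_antisymm (not_lt.mp h0) (Nat.cast_nonneg _)
      rw [h1, mul_zero] at hcard
      linarith
    have hm0' : 0 < S'.card := by exact_mod_cast hm0
    have hle := Finset.card_le_card hS'
    have hlt : (S \ S').card < n := by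
      rw [Finset.card_sdiff_of_subset hS']
      omega
    have h1 := ih _ hlt (S \ S') (Finset.sdiff_subset.trans hS) rfl
    have h2 : (fun x => ((mu δ c e S x : ℕ) : ℝ)) =
        (fun x => ((mu δ c e S' x : ℕ) : ℝ)) + fun x => ((mu δ c e (S \ S') x : ℕ) : ℝ) := by
      funext x
      rw [Pi.add_apply, ← Nat.cast_add]
      congr 1
      unfold mu
      rw [← Finset.card_union_of_disjoint, ← Finset.filter_union, Finset.union_sdiff_of_subset hS']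
      exact Finset.disjoint_filter_filter Finset.disjoint_sdiff
    rw [h2]
    refine (eLpNorm_add_le (measurable_mu _ _ _ _).aestronglyMeasurable
      (measurable_mu _ _ _ _).aestronglyMeasurable ?_).trans ?_
    · rw [← ENNReal.ofReal_one]
      exact ENNReal.ofReal_le_ofReal hq.le
    refine (add_le_add hnorm h1).trans ?_
    rw [← ENNReal.ofReal_add (by positivity) (by positivity)]
    refine ENNReal.ofReal_le_ofReal ?_
    have h3 : ((S \ S').card : ℝ) = (S.card : ℝ) - S'.card := by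
      rw [Finset.card_sdiff_of_subset hS', Nat.cast_sub hle]
    have h4 := greedy_real ha0 ha1 hB hK hm0 (by exact_mod_cast hle) hcard
    rw [h3]
    calc B * (D * (S'.card : ℝ) ^ a) + D * (B / a * K ^ (1 - a) *
          ((S.card : ℝ) - S'.card) ^ a) =
          D * (B * (S'.card : ℝ) ^ a + B / a * K ^ (1 - a) *
            ((S.card : ℝ) - S'.card) ^ a) := by ring
      _ ≤ _ := by gcongr

/-- **The inequality for families with few directions in every ball.** -/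
theorem lossM (hk : 0 < k) (hkd : k ≤ d) {C q ε : ℝ} (hC : 0 ≤ C) (hq : 1 < q)
    (hL : Loss k q 0 C) (hε : 0 < ε) :
    ∃ B : ℝ, 0 < B ∧ ∀ δ : ℝ, 0 < δ → δ < 1 → ∀ (ι : Type) (S : Finset ι)
      (c e : ι → E d), Fam δ e S → ∀ M : ℝ, CncT k δ M e S →
        eLpNorm (fun x => ((mu δ c e S x : ℕ) : ℝ)) (ENNReal.ofReal q) volume ≤
          ENNReal.ofReal (B * (δ ^ ((d : ℝ) / q) * ((S.card : ℝ) ^ (1 - 1 / (q * k) + ε) *
            M ^ (1 / (q * k))))) := by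
  classical
  have hk0 : (0 : ℝ) < k := by exact_mod_cast hk
  have hk1 : (1 : ℝ) ≤ k := by exact_mod_cast hk
  have hq0 : 0 < q := by linarith
  have hqk : 1 < q * k := by nlinarith
  obtain ⟨a, ha⟩ : ∃ a : ℝ, a = 1 - 1 / (q * k) := ⟨_, rfl⟩
  have h1a : 1 - a = 1 / (q * k) := by rw [ha]; ring
  have hp : 0 < 1 / (q * k) := by positivity
  have hp1 : 1 / (q * k) < 1 := by rw [div_lt_one (by linarith)]; exact hqk
  have ha0 : 0 < a := by linarith
  have ha1 : a ≤ 1 := by linarith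
  obtain ⟨B, K₀, hB, hK₀, hstep⟩ := step hk hkd hC hq hL hε
  have hB0 : 0 < B := by linarith
  have hK₀0 : 0 < K₀ := by linarith
  refine ⟨B / a * K₀, by positivity, ?_⟩
  intro δ hδ hδ1 ι S c e hF M hM
  rcases S.eq_empty_or_nonempty with rfl | hne
  · have : (fun x => ((mu δ c e (∅ : Finset ι) x : ℕ) : ℝ)) = 0 := by
      funext x
      simp [mu]
    rw [this, eLpNorm_zero]
    exact zero_le
  have hM1 : 1 ≤ M := hM.one_le hδ hne
  have hM0 : 0 < M := by linarith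
  have hN1 : (1 : ℝ) ≤ S.card := by exact_mod_cast Finset.card_pos.mpr hne
  have hN0 : (0 : ℝ) < S.card := by linarith
  have hNε : 1 ≤ (S.card : ℝ) ^ ε := Real.one_le_rpow hN1 hε.le
  obtain ⟨K, hK⟩ : ∃ K : ℝ, K = K₀ * M * (S.card : ℝ) ^ ε := ⟨_, rfl⟩
  have hK1 : 1 ≤ K := by
    rw [hK]
    exact one_le_mul_of_one_le_of_one_le (one_le_mul_of_one_le_of_one_le hK₀ hM1) hNε
  have h1 := greedy (δ := δ) hq ha0 ha1 hB0.le (D := δ ^ ((d : ℝ) / q)) (by positivity) hK1 c e S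
    (by
      intro T hT hTne
      obtain ⟨S', hS', h2, h3⟩ := hstep δ hδ hδ1 ι T c e (hF.mono hT) hTne M (hM.mono hT)
      refine ⟨S', hS', h2.trans ?_, ?_⟩
      · rw [hK]
        have h4 : (T.card : ℝ) ^ ε ≤ (S.card : ℝ) ^ ε := by
          refine Real.rpow_le_rpow (Nat.cast_nonneg _) ?_ hε.le
          exact_mod_cast Finset.card_le_card hT
        gcongr
      · rw [ha]
        exact h3) S.card S le_rfl rfl
  refine h1.trans (ENNReal.ofReal_le_ofReal ?_)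
  rw [h1a, ha]
  have h2 : K ^ (1 / (q * k)) ≤ K₀ * M ^ (1 / (q * k)) * (S.card : ℝ) ^ ε := by
    rw [hK, Real.mul_rpow (by positivity) (by positivity), Real.mul_rpow hK₀0.le hM0.le]
    have h3 : K₀ ^ (1 / (q * k)) ≤ K₀ := by
      calc K₀ ^ (1 / (q * k)) ≤ K₀ ^ (1 : ℝ) := Real.rpow_le_rpow_of_exponent_le hK₀ hp1.le
        _ = K₀ := Real.rpow_one _
    have h4 : ((S.card : ℝ) ^ ε) ^ (1 / (q * k)) ≤ (S.card : ℝ) ^ ε := by
      calc ((S.card : ℝ) ^ ε) ^ (1 / (q * k)) ≤ ((S.card : ℝ) ^ ε) ^ (1 : ℝ) :=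
            Real.rpow_le_rpow_of_exponent_le hNε hp1.le
        _ = (S.card : ℝ) ^ ε := Real.rpow_one _
    gcongr
  have ha' : 0 < 1 - 1 / (q * k) := by linarith
  calc δ ^ ((d : ℝ) / q) * (B / (1 - 1 / (q * k)) * K ^ (1 / (q * k)) *
        (S.card : ℝ) ^ (1 - 1 / (q * k)))
      ≤ δ ^ ((d : ℝ) / q) * (B / (1 - 1 / (q * k)) * (K₀ * M ^ (1 / (q * k)) *
          (S.card : ℝ) ^ ε) * (S.card : ℝ) ^ (1 - 1 / (q * k))) := by gcongr
    _ = B / (1 - 1 / (q * k)) * K₀ * (δ ^ ((d : ℝ) / q) * (((S.card : ℝ) ^ (1 - 1 / (q * k)) *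
          (S.card : ℝ) ^ ε) * M ^ (1 / (q * k)))) := by ring
    _ = _ := by rw [← Real.rpow_add hN0]

end Pool.GP
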