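import Pool.Agent.H94.GP.Cnt
import Pool.Agent.H53.Dense.Restr

/-!
# From the discrete form to the form for tubes, for families with few directions in every ball

The proofs follow `Pool.Agent.H53.Dense.Restr`.
-/

set_option autoImplicit false

open MeasureTheory ENNReal
open scoped RealInnerProductSpace

namespace Pool.GP

open Pool.Agent.H53.Kak Pool.Agent.H32.Dense Pool.Agent.H53.Dns

variable {d : ℕ} {ι : Type}

/-- the discrete form for a finite set of lines -/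
lemma count_finsetH {H : Finset (Fin d → ℤ) → Prop} {a P ε c : ℝ}
    (h : ∀ (m N : ℕ) (u : Fin N → Fin d → ℝ) (v : Fin N → Fin d → ℤ)
    (A : Fin N → Finset ℤ) (κ : ℝ), 0 < κ → Function.Injective v → H (Finset.univ.image v) →
    (∀ i k, |v i k| ≤ 2 ^ m) → (∀ i, A i ⊆ Finset.Ico 0 (2 ^ m : ℤ)) →
    (∀ i, κ * 2 ^ m ≤ (A i).card) →
    c * ((2 : ℝ) ^ m) ^ (-ε) * (2 ^ m * κ ^ P * (N : ℝ) ^ (1 / a)) ≤
      ∑ j ∈ Finset.Ico 0 (2 ^ m : ℤ),
        (((Finset.univ.filter fun i => j ∈ A i).image fun i =>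
          rd (pos (2 ^ m) (u i) (v i) j)).card : ℝ))
    {ι : Type} (m : ℕ) (L : Finset ι) (u : ι → Fin d → ℝ) (v : ι → Fin d → ℤ)
    (K : ι → Finset ℤ) {κ : ℝ} (hκ : 0 < κ) (hinj : Set.InjOn v L) (hHL : H (L.image v))
    (hv : ∀ i ∈ L, ∀ k, |v i k| ≤ 2 ^ m) (hK : ∀ i ∈ L, K i ⊆ Finset.Ico 0 (2 ^ m : ℤ))
    (hcard : ∀ i ∈ L, κ * 2 ^ m ≤ (K i).card) :
    c * ((2 : ℝ) ^ m) ^ (-ε) * (2 ^ m * κ ^ P * (L.card : ℝ) ^ (1 / a)) ≤
      ∑ j ∈ Finset.Ico 0 (2 ^ m : ℤ), ((cells m L u v K j).card : ℝ) := by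
  classical
  obtain ⟨φ, hφL, hφinj, hφimg⟩ : ∃ φ : Fin L.card → ι, (∀ x, φ x ∈ L) ∧
      Function.Injective φ ∧ Finset.univ.image φ = L := by
    refine ⟨fun x => (L.equivFin.symm x : ι), fun x => (L.equivFin.symm x).2,
      fun x y hxy => L.equivFin.symm.injective (Subtype.ext hxy), ?_⟩
    ext i
    constructor
    · intro hi
      obtain ⟨x, -, rfl⟩ := Finset.mem_image.mp hi
      exact (L.equivFin.symm x).2
    · intro hi
      refine Finset.mem_image.mpr ⟨L.equivFin ⟨i, hi⟩, Finset.mem_univ _, ?_⟩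
      simp
  have himg : Finset.univ.image (fun x => v (φ x)) = L.image v := by
    have h1 : Finset.univ.image (fun x => v (φ x)) = (Finset.univ.image φ).image v :=
      Finset.image_image.symm
    rw [h1, hφimg]
  refine (h m L.card (fun x => u (φ x)) (fun x => v (φ x)) (fun x => K (φ x)) κ hκ
    (fun x y hxy => hφinj (hinj (Finset.mem_coe.mpr (hφL x)) (Finset.mem_coe.mpr (hφL y)) hxy))
    (by rw [himg]; exact hHL)
    (fun x k => hv _ (hφL x) k) (fun x => hK _ (hφL x)) (fun x => hcard _ (hφL x))).trans ?_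
  apply Finset.sum_le_sum
  intro j _
  have : ((Finset.univ.filter fun x : Fin L.card => j ∈ K (φ x)).image fun x =>
      rd (pos (2 ^ m) (u (φ x)) (v (φ x)) j)) ⊆ cells m L u v K j := by
    intro z hz
    obtain ⟨x, hx, rfl⟩ := Finset.mem_image.mp hz
    exact Finset.mem_image.mpr ⟨φ x, Finset.mem_filter.mpr ⟨hφL x, (Finset.mem_filter.mp hx).2⟩,
      rfl⟩
  exact_mod_cast Finset.card_le_card this

/-- the bound for the tubes of one type -/
lemma class_boundH {H : Finset (Fin d → ℤ) → Prop} (hH : ∀ V V', V' ⊆ V → H V → H V')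
    {a P ε c₀ : ℝ} (ha : 1 ≤ a) (hc : 0 < c₀)
    (hcount : ∀ (m N : ℕ) (u : Fin N → Fin d → ℝ) (v : Fin N → Fin d → ℤ)
    (A : Fin N → Finset ℤ) (κ : ℝ), 0 < κ → Function.Injective v → H (Finset.univ.image v) →
    (∀ i k, |v i k| ≤ 2 ^ m) → (∀ i, A i ⊆ Finset.Ico 0 (2 ^ m : ℤ)) →
    (∀ i, κ * 2 ^ m ≤ (A i).card) →
    c₀ * ((2 : ℝ) ^ m) ^ (-ε) * (2 ^ m * κ ^ P * (N : ℝ) ^ (1 / a)) ≤
      ∑ j ∈ Finset.Ico 0 (2 ^ m : ℤ),
        (((Finset.univ.filter fun i => j ∈ A i).image fun i =>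
          rd (pos (2 ^ m) (u i) (v i) j)).card : ℝ))
    {δ : ℝ} (hδ : 0 < δ) (k : Fin (d + 1)) (L : Finset ι) (c e : ι → E d)
    (hF : Fam δ e L) (hmx : ∀ i ∈ L, Mx k (e i))
    (hsgn : (∀ i ∈ L, 0 < e i k) ∨ (∀ i ∈ L, e i k < 0)) {m : ℕ}
    (hHL : H (L.image fun i => vv k m (e i)))
    (hm1 : δ * 2 ^ m ≤ 1) (hm2 : 1 ≤ 2 * (δ * 2 ^ m)) {X : Set (E d)} (hX : MeasurableSet X)
    {κ w : ℝ} (hκ : 0 < κ) (hw : 0 ≤ w) (q : ι → ℤ) (K : ι → Finset ℤ)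
    (hK : ∀ i ∈ L, K i ⊆ Finset.Ico 0 (2 ^ m : ℤ)) (hcard : ∀ i ∈ L, κ * 2 ^ m ≤ (K i).card)
    (hmass : ∀ i ∈ L, ∀ j ∈ K i, ENNReal.ofReal w ≤
      volume (X ∩ tube δ (c i) (e i) ∩ slab k m (j + q i * 2 ^ m))) :
    ENNReal.ofReal (c₀ * ((2 : ℝ) ^ m) ^ (-ε) * (2 ^ m * κ ^ P *
      ((L.card : ℝ) / Cw d) ^ (1 / a)) * w) ≤ (11 ^ d : ℕ) * volume X := by
  classical
  have ha0 : 0 < a := by linarith only [ha]
  have hCw := one_le_Cw d
  have hCw0 : 0 < Cw d := by linarith only [hCw]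
  have hreps : ∀ z : ℤ, ∃ L' ⊆ L.filter (fun i => q i = z),
      Set.InjOn (fun i => vv k m (e i)) L' ∧
      L'.image (fun i => vv k m (e i)) = (L.filter fun i => q i = z).image
        fun i => vv k m (e i) := fun z => exists_reps _ _
  choose L' hL'sub hL'inj hL'img using hreps
  have hL'card : ∀ z, ((L.filter fun i => q i = z).card : ℝ) ≤ Cw d * ((L' z).card : ℝ) := by
    intro z
    have h1 := card_vv (m := m) (b := 0) hδ k (L.filter fun i => q i = z) e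
      (hF.mono (Finset.filter_subset _ _)) (fun i hi => hmx i (Finset.mem_filter.1 hi).1)
      (by
        rcases hsgn with hs | hs
        · exact Or.inl fun i hi => hs i (Finset.mem_filter.1 hi).1
        · exact Or.inr fun i hi => hs i (Finset.mem_filter.1 hi).1) (Nat.zero_le m) hm2
    rw [Nat.sub_zero, pow_zero, one_pow, mul_one, ← hL'img z,
      Finset.card_image_of_injOn (hL'inj z)] at h1
    exact h1
  set Q : Finset ℤ := L.image q with hQ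
  have hLsum : (L.card : ℝ) / Cw d ≤ ∑ z ∈ Q, ((L' z).card : ℝ) := by
    rw [div_le_iff₀ hCw0]
    have h1 : (L.card : ℝ) = ∑ z ∈ Q, ((L.filter fun i => q i = z).card : ℝ) := by
      have := Finset.card_eq_sum_card_fiberwise (s := L) (t := Q) (f := q)
        (fun x hx => Finset.mem_coe.mpr (Finset.mem_image_of_mem _ hx))
      exact_mod_cast this
    rw [h1, Finset.sum_mul]
    apply Finset.sum_le_sum
    intro z _
    rw [mul_comm]
    exact hL'card z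
  have hpow : ((L.card : ℝ) / Cw d) ^ (1 / a) ≤ ∑ z ∈ Q, ((L' z).card : ℝ) ^ (1 / a) :=
    (Real.rpow_le_rpow (by positivity) hLsum (by positivity)).trans
      (Pool.Agent.H32.AKT.rpow_sum_le _ _ (fun x _ => by positivity) (by positivity)
        (by rw [div_le_one ha0]; exact ha))
  -- the discrete inequality in every window
  have hcnt : ∀ z, c₀ * ((2 : ℝ) ^ m) ^ (-ε) * (2 ^ m * κ ^ P * ((L' z).card : ℝ) ^ (1 / a)) ≤
      ∑ j ∈ Finset.Ico 0 (2 ^ m : ℤ), ((cells m (L' z) (fun i => uu k m m z (c i) (e i))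
        (fun i => vv k m (e i)) K j).card : ℝ) := by
    intro z
    have hsub : ∀ i ∈ L' z, i ∈ L := fun i hi => (Finset.mem_filter.1 (hL'sub z hi)).1
    apply count_finsetH (d := d) hcount m (L' z) _ _ K hκ (hL'inj z)
    · refine hH _ _ ?_ hHL
      intro x hx
      obtain ⟨i, hi, rfl⟩ := Finset.mem_image.mp hx
      exact Finset.mem_image.mpr ⟨i, hsub i hi, rfl⟩
    · intro i hi l
      exact vv_le (hmx i (hsub i hi)) (hF.unit i (hsub i hi)) m l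
    · exact fun i hi => hK i (hsub i hi)
    · exact fun i hi => hcard i (hsub i hi)
  -- packing
  have hpack : ∀ z, ∀ j ∈ Finset.Ico 0 (2 ^ m : ℤ),
      ((cells m (L' z) (fun i => uu k m m z (c i) (e i)) (fun i => vv k m (e i)) K j).card :
        ℝ≥0∞) * ENNReal.ofReal w ≤ (11 ^ d : ℕ) * volume (X ∩ slab k m (j + z * 2 ^ m)) := by
    intro z j hj
    have hsub : ∀ i ∈ L' z, i ∈ L := fun i hi => (Finset.mem_filter.1 (hL'sub z hi)).1
    rw [Finset.mem_Ico] at hj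
    apply pack_cells hδ.le k (L' z) c e (fun i hi => hF.unit i (hsub i hi))
      (fun i hi => hmx i (hsub i hi)) hm1 z K hX hj.1 hj.2
    intro i hi hjK
    have h1 := hmass i (hsub i hi) j hjK
    have h2 : q i = z := (Finset.mem_filter.1 (hL'sub z hi)).2
    rwa [h2] at h1
  have hdisj : ∑ p ∈ Q ×ˢ Finset.Ico 0 (2 ^ m : ℤ), volume (X ∩ slab k m (p.2 + p.1 * 2 ^ m)) ≤
      ((1 : ℕ) : ℝ≥0∞) * volume X := by
    apply Pool.Agent.H32.AKT.sum_measure_le volume (Q ×ˢ Finset.Ico 0 (2 ^ m : ℤ))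
      (fun p => X ∩ slab k m (p.2 + p.1 * 2 ^ m))
      (fun p _ => hX.inter (measurableSet_slab k m (p.2 + p.1 * 2 ^ m))) hX
      (fun p _ => Set.inter_subset_left)
    intro x
    rw [Finset.card_le_one]
    rintro ⟨z, j⟩ h1 ⟨z', j'⟩ h2
    simp only [Finset.mem_filter, Finset.mem_product, Finset.mem_Ico] at h1 h2
    have h3 : ⌊x k * 2 ^ m⌋ = j + z * 2 ^ m := h1.2.2
    have h4 : ⌊x k * 2 ^ m⌋ = j' + z' * 2 ^ m := h2.2.2
    have h5 : z = z' := by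
      have e1 : (j + z * 2 ^ m) / 2 ^ m = z := by
        rw [ediv_pow_eq]
        constructor <;> nlinarith only [h1, h1.1.2.1, h1.1.2.2]
      have e2 : (j' + z' * 2 ^ m) / 2 ^ m = z' := by
        rw [ediv_pow_eq]
        constructor <;> nlinarith only [h2, h2.1.2.1, h2.1.2.2]
      rw [← e1, ← e2, ← h3, ← h4]
    subst h5
    have h6 : j = j' := by linarith only [h3, h4]
    rw [h6]
  rw [Nat.cast_one, one_mul] at hdisj
  -- assembly
  obtain ⟨W, hW⟩ : ∃ W : ℤ → ℤ → ℕ, ∀ z j, (cells m (L' z) (fun i => uu k m m z (c i) (e i))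
    (fun i => vv k m (e i)) K j).card = W z j := ⟨_, fun _ _ => rfl⟩
  simp only [hW] at hcnt hpack
  obtain ⟨J, hJ⟩ : ∃ J : Finset ℤ, J = Finset.Ico 0 (2 ^ m : ℤ) := ⟨_, rfl⟩
  rw [← hJ] at hcnt hpack hdisj
  obtain ⟨n₁, hn₁⟩ : ∃ n₁ : ℕ, n₁ = 11 ^ d := ⟨_, rfl⟩
  rw [← hn₁] at hpack ⊢
  exact class_sum hpow (by positivity) (by positivity) hcnt hw hpack hdisj

open Classical in
/-- the form for tubes when the density is larger than the width -/
lemma restr_mainH {H : Finset (Fin d → ℤ) → Prop} (hH : ∀ V V', V' ⊆ V → H V → H V')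
    {a P ε c₀ : ℝ} (ha : 1 ≤ a) (hP : 1 ≤ P) (hε : 0 < ε) (hc : 0 < c₀)
    (hcount : ∀ (m N : ℕ) (u : Fin N → Fin d → ℝ) (v : Fin N → Fin d → ℤ)
    (A : Fin N → Finset ℤ) (κ : ℝ), 0 < κ → Function.Injective v → H (Finset.univ.image v) →
    (∀ i k, |v i k| ≤ 2 ^ m) → (∀ i, A i ⊆ Finset.Ico 0 (2 ^ m : ℤ)) →
    (∀ i, κ * 2 ^ m ≤ (A i).card) →
    c₀ * ((2 : ℝ) ^ m) ^ (-ε) * (2 ^ m * κ ^ P * (N : ℝ) ^ (1 / a)) ≤
      ∑ j ∈ Finset.Ico 0 (2 ^ m : ℤ),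
        (((Finset.univ.filter fun i => j ∈ A i).image fun i =>
          rd (pos (2 ^ m) (u i) (v i) j)).card : ℝ))
    {δ : ℝ} (hδ : 0 < δ) (hδ1 : δ < 1) (S : Finset ι) (hSne : S.Nonempty) (c e : ι → E d)
    (hF : Fam δ e S)
    (hHS : ∀ (k : Fin (d + 1)) (L : Finset ι) (m : ℕ), L ⊆ S → (∀ i ∈ L, Mx k (e i)) →
      ((∀ i ∈ L, 0 < e i k) ∨ (∀ i ∈ L, e i k < 0)) → 1 ≤ 2 * (δ * 2 ^ m) →
      H (L.image fun i => vv k m (e i))) {X : Set (E d)} (hX : MeasurableSet X) {lam : ℝ} (hlam : 0 < lam)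
    (hvol : ∀ i ∈ S, ENNReal.ofReal (lam * δ ^ d) ≤ volume (X ∩ tube δ (c i) (e i)))
    {S₁ : ℕ} (hS₁ : 0 < S₁) (hS : 5 * (Cv d * (1 / 2) ^ S₁) ≤ lam / 2) :
    ENNReal.ofReal (c₀ * (Cv d / 4) * (16 * Cv d) ^ (-P) * (Cw d)⁻¹ * (2 * ((d : ℝ) + 1))⁻¹ *
      ((S₁ : ℝ) ^ (P + 1))⁻¹ * δ ^ ε * (lam ^ P * δ ^ d * (S.card : ℝ) ^ (1 / a))) ≤
      (11 ^ d : ℕ) * volume X := by
  have ha0 : 0 < a := by linarith only [ha, hδ, hδ1]
  have hCv := Cv_pos d
  have hCw := one_le_Cw d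
  have hCw0 : 0 < Cw d := by linarith only [hδ, hδ1, hCw]
  have hS₁r : (1 : ℝ) ≤ S₁ := by exact_mod_cast hS₁
  obtain ⟨m, hmA, hmB⟩ := exists_nat_pow_near (x := δ⁻¹) (y := 2)
    ((one_le_inv₀ hδ).mpr hδ1.le) (by norm_num)
  have h2m : (0 : ℝ) < 2 ^ m := by positivity
  have hm1 : δ * 2 ^ m ≤ 1 := by
    calc δ * 2 ^ m ≤ δ * δ⁻¹ := by gcongr
      _ = 1 := mul_inv_cancel₀ hδ.ne'
  have hm2 : 1 ≤ 2 * (δ * 2 ^ m) := by
    calc (1 : ℝ) = δ * δ⁻¹ := (mul_inv_cancel₀ hδ.ne').symm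
      _ ≤ δ * 2 ^ (m + 1) := by gcongr
      _ = 2 * (δ * 2 ^ m) := by rw [pow_succ]; ring
  choose kk hkk using fun i => exists_mx (e i)
  have hdata : ∀ i ∈ S, ∃ s < S₁, ∃ q : ℤ, ∃ K : Finset ℤ,
      K ⊆ Finset.Ico 0 (2 ^ m : ℤ) ∧
      (∀ j ∈ K, ENNReal.ofReal (Cv d * δ ^ (d + 1) * (1 / 2) ^ (s + 1)) ≤
        volume (X ∩ tube δ (c i) (e i) ∩ slab (kk i) m (j + q * 2 ^ m))) ∧
      lam * δ ^ d ≤ 16 * S₁ * K.card * (Cv d * δ ^ (d + 1) * (1 / 2) ^ s) := fun i hi =>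
    tube_data hδ hδ1 (hkk i) (hF.unit i hi) hm1 hm2 hlam (hvol i hi) hS₁ hS
  choose! ss hss qq KK hKK1 hKK2 hKK3 using hdata
  -- types
  set τ : ι → Fin (d + 1) × Bool × ℕ := fun i => (kk i, decide (0 < e i (kk i)), ss i) with hτ
  set TT : Finset (Fin (d + 1) × Bool × ℕ) := Finset.univ ×ˢ Finset.univ ×ˢ Finset.range S₁ with hTT
  have hTcard : (TT.card : ℝ) = 2 * ((d : ℝ) + 1) * S₁ := by
    rw [hTT, Finset.card_product, Finset.card_product, Finset.card_univ, Finset.card_univ,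
      Finset.card_range, Fintype.card_fin, Fintype.card_bool]
    push_cast; ring
  have hmaps : ∀ i ∈ S, τ i ∈ TT := by
    intro i hi
    simp only [hτ, hTT, Finset.mem_product, Finset.mem_univ, true_and, Finset.mem_range]
    exact hss i hi
  obtain ⟨t, htT, ht⟩ : ∃ t ∈ TT, (S.card : ℝ) / TT.card ≤ ((S.filter fun i => τ i = t).card : ℝ) := by
    by_contra hcon
    push Not at hcon
    have hne : TT.Nonempty := by
      obtain ⟨i, hi⟩ := hSne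
      exact ⟨τ i, hmaps i hi⟩
    have h1 : (S.card : ℝ) = ∑ t ∈ TT, ((S.filter fun i => τ i = t).card : ℝ) := by
      have := Finset.card_eq_sum_card_fiberwise (s := S) (t := TT) (f := τ)
        (fun x hx => Finset.mem_coe.mpr (hmaps x (Finset.mem_coe.mp hx)))
      exact_mod_cast this
    have h2 : ∑ t ∈ TT, ((S.filter fun i => τ i = t).card : ℝ) <
        ∑ _t ∈ TT, (S.card : ℝ) / TT.card := Finset.sum_lt_sum_of_nonempty hne hcon
    rw [← h1, Finset.sum_const, nsmul_eq_mul, mul_div_cancel₀] at h2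
    · exact lt_irrefl _ h2
    · exact_mod_cast (Finset.card_pos.mpr hne).ne'
  obtain ⟨k, σ, s⟩ := t
  set L := S.filter fun i => τ i = (k, σ, s) with hL
  have hLS : ∀ i ∈ L, i ∈ S := fun i hi => (Finset.mem_filter.1 hi).1
  have hLk : ∀ i ∈ L, kk i = k := fun i hi => congrArg Prod.fst (Finset.mem_filter.1 hi).2
  have hLσ : ∀ i ∈ L, decide (0 < e i (kk i)) = σ := fun i hi =>
    congrArg (fun z => z.2.1) (Finset.mem_filter.1 hi).2
  have hLs : ∀ i ∈ L, ss i = s := fun i hi =>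
    congrArg (fun z => z.2.2) (Finset.mem_filter.1 hi).2
  have hmx : ∀ i ∈ L, Mx k (e i) := fun i hi => hLk i hi ▸ hkk i
  have hsgn : (∀ i ∈ L, 0 < e i k) ∨ (∀ i ∈ L, e i k < 0) := by
    cases hσ : σ with
    | true =>
      left
      intro i hi
      have h1 := hLσ i hi
      rw [hLk i hi, hσ] at h1
      exact of_decide_eq_true h1
    | false =>
      right
      intro i hi
      have h1 := hLσ i hi
      rw [hLk i hi, hσ] at h1
      have h2 := of_decide_eq_false h1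
      exact lt_of_le_of_ne (not_lt.mp h2) ((hmx i hi).ne (hF.unit i (hLS i hi)))
  obtain ⟨κ, hκ⟩ : ∃ κ, κ = lam / (16 * Cv d * S₁) * 2 ^ s := ⟨_, rfl⟩
  have hκ0 : 0 < κ := by rw [hκ]; positivity
  have hcb := class_boundH hH (ε := ε) (P := P) ha hc hcount hδ k L c e
    (hF.mono (Finset.filter_subset _ _))
    hmx hsgn (hHS k L m (Finset.filter_subset _ _) hmx hsgn hm2) hm1 hm2 hX hκ0 (w := Cv d * δ ^ (d + 1) * (1 / 2) ^ (s + 1)) (by positivity) qq KK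
    (fun i hi => hKK1 i (hLS i hi))
    (by
      intro i hi
      have h1 := hKK3 i (hLS i hi)
      rw [hLs i hi] at h1
      have h2 : lam * δ ^ d * 2 ^ s * 2 ^ m ≤ 16 * S₁ * (KK i).card * Cv d * δ ^ d := by
        calc lam * δ ^ d * 2 ^ s * 2 ^ m ≤
              (16 * S₁ * (KK i).card * (Cv d * δ ^ (d + 1) * (1 / 2) ^ s)) * 2 ^ s * 2 ^ m := by
              gcongr
          _ = 16 * S₁ * (KK i).card * Cv d * δ ^ d * (δ * 2 ^ m) * ((1 / 2) ^ s * 2 ^ s) := by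
              rw [pow_succ]; ring
          _ ≤ 16 * S₁ * (KK i).card * Cv d * δ ^ d * 1 * ((1 / 2) ^ s * 2 ^ s) := by gcongr
          _ = 16 * S₁ * (KK i).card * Cv d * δ ^ d := by
              rw [← mul_pow]; norm_num
      have h3 : lam * 2 ^ s * 2 ^ m ≤ 16 * S₁ * (KK i).card * Cv d := by
        have h4 : (lam * 2 ^ s * 2 ^ m) * δ ^ d ≤ (16 * S₁ * (KK i).card * Cv d) * δ ^ d := by
          calc _ = lam * δ ^ d * 2 ^ s * 2 ^ m := by ring
            _ ≤ _ := h2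
        exact le_of_mul_le_mul_right h4 (by positivity)
      rw [hκ, div_mul_eq_mul_div, div_mul_eq_mul_div, div_le_iff₀ (by positivity)]
      calc lam * 2 ^ s * 2 ^ m ≤ 16 * S₁ * (KK i).card * Cv d := h3
        _ = _ := by ring)
    (by
      intro i hi j hj
      have h1 := hKK2 i (hLS i hi) j hj
      rw [hLs i hi, hLk i hi] at h1
      exact h1)
  refine le_trans (ENNReal.ofReal_le_ofReal ?_) hcb
  -- algebra
  have hN : (0 : ℝ) ≤ S.card := Nat.cast_nonneg _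
  have g1 : δ ^ ε ≤ ((2 : ℝ) ^ m) ^ (-ε) := by
    have h1 : (δ⁻¹) ^ (-ε) ≤ ((2 : ℝ) ^ m) ^ (-ε) :=
      Real.rpow_le_rpow_of_nonpos h2m hmA (by linarith only [hε])
    rwa [Real.inv_rpow hδ.le, Real.rpow_neg hδ.le, inv_inv] at h1
  have g2 : (16 * Cv d) ^ (-P) * ((S₁ : ℝ) ^ P)⁻¹ * lam ^ P ≤ κ ^ P * (1 / 2) ^ s := by
    have h1 : κ ^ P = (16 * Cv d) ^ (-P) * ((S₁ : ℝ) ^ P)⁻¹ * lam ^ P * ((2 : ℝ) ^ s) ^ P := by
      rw [hκ, Real.mul_rpow (by positivity) (by positivity), Real.div_rpow hlam.le (by positivity),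
        Real.mul_rpow (x := 16 * Cv d) (by positivity) (by positivity),
        Real.rpow_neg (by positivity)]
      field_simp
    have h2 : (2 : ℝ) ^ s ≤ ((2 : ℝ) ^ s) ^ P := by
      have h3 : (1 : ℝ) ≤ 2 ^ s := one_le_pow₀ (by norm_num)
      calc (2 : ℝ) ^ s = ((2 : ℝ) ^ s) ^ (1 : ℝ) := (Real.rpow_one _).symm
        _ ≤ _ := Real.rpow_le_rpow_of_exponent_le h3 hP
    rw [h1]
    have h4 : (1 : ℝ) ≤ ((2 : ℝ) ^ s) ^ P * (1 / 2) ^ s := by
      calc (1 : ℝ) = 2 ^ s * (1 / 2) ^ s := by rw [← mul_pow]; norm_num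
        _ ≤ _ := by gcongr
    calc (16 * Cv d) ^ (-P) * ((S₁ : ℝ) ^ P)⁻¹ * lam ^ P =
          (16 * Cv d) ^ (-P) * ((S₁ : ℝ) ^ P)⁻¹ * lam ^ P * 1 := (mul_one _).symm
      _ ≤ (16 * Cv d) ^ (-P) * ((S₁ : ℝ) ^ P)⁻¹ * lam ^ P * (((2 : ℝ) ^ s) ^ P * (1 / 2) ^ s) := by
          gcongr
      _ = _ := by ring
  have g3 : δ ^ d / 2 ≤ 2 ^ m * δ ^ (d + 1) := by
    rw [pow_succ]
    have : (1 / 2 : ℝ) ≤ δ * 2 ^ m := by linarith only [hm2]
    calc δ ^ d / 2 = δ ^ d * (1 / 2) := by ring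
      _ ≤ δ ^ d * (δ * 2 ^ m) := by gcongr
      _ = _ := by ring
  have g4 : (Cw d)⁻¹ * (2 * ((d : ℝ) + 1))⁻¹ * (S₁ : ℝ)⁻¹ * (S.card : ℝ) ^ (1 / a) ≤
      ((L.card : ℝ) / Cw d) ^ (1 / a) := by
    obtain ⟨T, hT⟩ : ∃ T, T = 2 * ((d : ℝ) + 1) * S₁ * Cw d := ⟨_, rfl⟩
    have hT1 : 1 ≤ T := by
      rw [hT]
      have h1 : (1 : ℝ) ≤ 2 * ((d : ℝ) + 1) := by
        have : (0 : ℝ) ≤ d := Nat.cast_nonneg d
        linarith only [hδ, hδ1]
      calc (1 : ℝ) = 1 * 1 * 1 := by norm_num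
        _ ≤ 2 * ((d : ℝ) + 1) * S₁ * Cw d := by gcongr
    have h1 : (S.card : ℝ) / T ≤ (L.card : ℝ) / Cw d := by
      rw [hTcard] at ht
      calc (S.card : ℝ) / T = (S.card : ℝ) / (2 * ((d : ℝ) + 1) * S₁) / Cw d := by
            rw [hT, div_div]
        _ ≤ _ := by gcongr
    calc (Cw d)⁻¹ * (2 * ((d : ℝ) + 1))⁻¹ * (S₁ : ℝ)⁻¹ * (S.card : ℝ) ^ (1 / a)
        = (S.card : ℝ) ^ (1 / a) / T := by rw [hT]; field_simp
      _ ≤ (S.card : ℝ) ^ (1 / a) / T ^ (1 / a) := by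
          apply div_le_div_of_nonneg_left (by positivity) (by positivity)
          calc T ^ (1 / a) ≤ T ^ (1 : ℝ) :=
                Real.rpow_le_rpow_of_exponent_le hT1 (by rw [div_le_one ha0]; exact ha)
            _ = T := Real.rpow_one _
      _ = ((S.card : ℝ) / T) ^ (1 / a) := by
          rw [Real.div_rpow hN (by linarith only [hδ, hδ1, hT1])]
      _ ≤ _ := by gcongr
  have g5 : ((S₁ : ℝ) ^ (P + 1))⁻¹ = ((S₁ : ℝ) ^ P)⁻¹ * (S₁ : ℝ)⁻¹ := by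
    rw [Real.rpow_add (by positivity), Real.rpow_one, mul_inv]
  rw [g5]
  calc c₀ * (Cv d / 4) * (16 * Cv d) ^ (-P) * (Cw d)⁻¹ * (2 * ((d : ℝ) + 1))⁻¹ *
        (((S₁ : ℝ) ^ P)⁻¹ * (S₁ : ℝ)⁻¹) * δ ^ ε * (lam ^ P * δ ^ d * (S.card : ℝ) ^ (1 / a))
      = c₀ * (Cv d / 2) * δ ^ ε * ((16 * Cv d) ^ (-P) * ((S₁ : ℝ) ^ P)⁻¹ * lam ^ P) *
          (δ ^ d / 2) * ((Cw d)⁻¹ * (2 * ((d : ℝ) + 1))⁻¹ * (S₁ : ℝ)⁻¹ *
            (S.card : ℝ) ^ (1 / a)) := by ring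
    _ ≤ c₀ * (Cv d / 2) * ((2 : ℝ) ^ m) ^ (-ε) * (κ ^ P * (1 / 2) ^ s) *
          (2 ^ m * δ ^ (d + 1)) * (((L.card : ℝ) / Cw d) ^ (1 / a)) := by
        gcongr
    _ = _ := by rw [pow_succ (1 / 2 : ℝ) s]; ring

/-- Few directions in every ball around a direction of the family. -/
def CncT (k : ℕ) (δ M : ℝ) (e : ι → E d) (S : Finset ι) : Prop :=
  ∀ i ∈ S, ∀ r : ℝ, δ ≤ r →
    (({j | j ∈ S ∧ ‖e j - e i‖ ≤ r} : Set ι).ncard : ℝ) ≤ M * (r / δ) ^ k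

lemma CncT.mono {k : ℕ} {δ M : ℝ} {e : ι → E d} {S T : Finset ι} (h : CncT k δ M e S)
    (hT : T ⊆ S) : CncT k δ M e T := by
  intro i hi r hr
  refine le_trans ?_ (h i (hT hi) r hr)
  have : ({j | j ∈ T ∧ ‖e j - e i‖ ≤ r} : Set ι) ⊆ {j | j ∈ S ∧ ‖e j - e i‖ ≤ r} :=
    fun j hj => ⟨hT hj.1, hj.2⟩
  exact_mod_cast Set.ncard_le_ncard this (S.finite_toSet.subset fun j hj => hj.1)

lemma CncT.one_le {k : ℕ} {δ M : ℝ} (hδ : 0 < δ) {e : ι → E d} {S : Finset ι}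
    (h : CncT k δ M e S) (hS : S.Nonempty) : 1 ≤ M := by
  obtain ⟨i, hi⟩ := hS
  have h1 := h i hi δ le_rfl
  rw [div_self hδ.ne', one_pow, mul_one] at h1
  refine le_trans ?_ h1
  have h2 : 0 < ({j | j ∈ S ∧ ‖e j - e i‖ ≤ δ} : Set ι).ncard := by
    rw [Set.ncard_pos (S.finite_toSet.subset fun j hj => hj.1)]
    refine ⟨i, hi, ?_⟩
    rw [sub_self, norm_zero]
    exact hδ.le
  exact_mod_cast h2

open Classical in
/-- Few velocities in every box. -/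
lemma cnc_of_tubes {k' : ℕ} {δ M : ℝ} (hδ : 0 < δ) {e : ι → E d} {S : Finset ι}
    (hu : ∀ i ∈ S, ‖e i‖ = 1) (h : CncT k' δ M e S) (k : Fin (d + 1)) (L : Finset ι) (m : ℕ)
    (hLS : L ⊆ S) (hmx : ∀ i ∈ L, Mx k (e i))
    (hsgn : (∀ i ∈ L, 0 < e i k) ∨ (∀ i ∈ L, e i k < 0)) (hm : 1 ≤ 2 * (δ * 2 ^ m)) :
    Cnc k' ((8 * ((d : ℝ) + 1)) ^ k' * M) (L.image fun i => vv k m (e i)) := by
  have h2m : (0 : ℝ) < 2 ^ m := by positivity
  have hd0 : (0 : ℝ) ≤ d := Nat.cast_nonneg d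
  intro x hx r hr
  obtain ⟨i₀, hi₀, rfl⟩ := Finset.mem_image.mp hx
  have hr' : (1 : ℝ) ≤ r := by exact_mod_cast hr
  obtain ⟨T, hT⟩ : ∃ T : Finset ι, T = L.filter fun i => nrm (vv k m (e i)) (vv k m (e i₀)) ≤ r :=
    ⟨_, rfl⟩
  have h1 : ((L.image fun i => vv k m (e i)).filter fun y => nrm y (vv k m (e i₀)) ≤ r).card ≤
      T.card := by
    have : ((L.image fun i => vv k m (e i)).filter fun y => nrm y (vv k m (e i₀)) ≤ r) ⊆
        T.image fun i => vv k m (e i) := by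
      intro y hy
      obtain ⟨hy1, hy2⟩ := Finset.mem_filter.mp hy
      obtain ⟨i, hi, rfl⟩ := Finset.mem_image.mp hy1
      rw [hT]
      exact Finset.mem_image.mpr ⟨i, Finset.mem_filter.mpr ⟨hi, hy2⟩, rfl⟩
    exact (Finset.card_le_card this).trans Finset.card_image_le
  have hnear : ∀ i ∈ T, ‖e i - e i₀‖ ≤ 8 * ((d : ℝ) + 1) * r * δ := by
    intro i hi
    rw [hT] at hi
    obtain ⟨hi, hin⟩ := Finset.mem_filter.mp hi
    have hsl : ∀ l, |slp k (e i) l - slp k (e i₀) l| ≤ 2 * r / 2 ^ m := by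
      intro l
      have k1 := (le_nrm (vv k m (e i)) (vv k m (e i₀)) l).trans hin
      have k2 : |((vv k m (e i) l - vv k m (e i₀) l : ℤ) : ℝ)| ≤ r := by
        have k3 : (((vv k m (e i) l - vv k m (e i₀) l).natAbs : ℕ) : ℝ) ≤ (r : ℝ) := by
          exact_mod_cast k1
        rw [Nat.cast_natAbs, Int.cast_abs] at k3
        exact k3
      have k4 := Int.floor_le (2 ^ m * slp k (e i) l)
      have k5 := Int.lt_floor_add_one (2 ^ m * slp k (e i) l)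
      have k6 := Int.floor_le (2 ^ m * slp k (e i₀) l)
      have k7 := Int.lt_floor_add_one (2 ^ m * slp k (e i₀) l)
      have k8 : |2 ^ m * slp k (e i) l - 2 ^ m * slp k (e i₀) l| ≤ r + 1 := by
        rw [abs_le] at k2 ⊢
        unfold vv at k2
        push_cast at k2
        constructor <;> linarith [k2.1, k2.2]
      rw [← mul_sub, abs_mul, abs_of_pos h2m] at k8
      rw [le_div_iff₀ h2m]
      linarith
    have hcoord : ∀ s, |((e i k)⁻¹ • e i - (e i₀ k)⁻¹ • e i₀) s| ≤ 2 * r / 2 ^ m := by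
      intro s
      have hk1 := (hmx i hi).ne (hu i (hLS hi))
      have hk0 := (hmx i₀ hi₀).ne (hu i₀ (hLS hi₀))
      simp only [PiLp.sub_apply, PiLp.smul_apply, smul_eq_mul]
      rcases eq_or_ne s k with rfl | hs
      · rw [inv_mul_cancel₀ hk1, inv_mul_cancel₀ hk0, sub_self, abs_zero]
        positivity
      · obtain ⟨l, rfl⟩ := Fin.exists_succAbove_eq hs
        have := hsl l
        simp only [slp] at this
        rw [inv_mul_eq_div, inv_mul_eq_div]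
        exact this
    have hnorm := norm_le_of_coord (by positivity : (0 : ℝ) ≤ 2 * r / 2 ^ m) hcoord
    have h3 : ‖e i - e i₀‖ ≤ 2 * (((d : ℝ) + 1) * (2 * r / 2 ^ m)) := by
      rcases hsgn with hs | hs
      · refine (Pool.Agent.H32.AKT.slope_sep (j := k) (hu i (hLS hi)) (hu i₀ (hLS hi₀))
          (hs i hi) (hs i₀ hi₀)).trans ?_
        linarith
      · have h3 := Pool.Agent.H32.AKT.slope_sep (j := k) (e := -e i) (e' := -e i₀)
          (by rw [norm_neg]; exact hu i (hLS hi)) (by rw [norm_neg]; exact hu i₀ (hLS hi₀))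
          (by simp only [PiLp.neg_apply]; linarith [hs i hi])
          (by simp only [PiLp.neg_apply]; linarith [hs i₀ hi₀])
        have e1 : -e i - -e i₀ = -(e i - e i₀) := by abel
        have e2 : ((-e i) k)⁻¹ • -e i - ((-e i₀) k)⁻¹ • -e i₀ =
            (e i k)⁻¹ • e i - (e i₀ k)⁻¹ • e i₀ := by
          simp only [PiLp.neg_apply, inv_neg, smul_neg, neg_smul, neg_neg]
        rw [e1, norm_neg, e2] at h3
        linarith
    refine h3.trans ?_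
    have h4 : 1 / (2 : ℝ) ^ m ≤ 2 * δ := by
      rw [div_le_iff₀ h2m]
      linarith
    calc 2 * (((d : ℝ) + 1) * (2 * r / 2 ^ m)) = 4 * ((d : ℝ) + 1) * r * (1 / 2 ^ m) := by ring
      _ ≤ 4 * ((d : ℝ) + 1) * r * (2 * δ) := by gcongr
      _ = _ := by ring
  have h2 : (T.card : ℝ) ≤ M * (8 * ((d : ℝ) + 1) * r * δ / δ) ^ k' := by
    refine le_trans ?_ (h i₀ (hLS hi₀) (8 * ((d : ℝ) + 1) * r * δ) ?_)
    · have : (T : Set ι) ⊆ {j | j ∈ S ∧ ‖e j - e i₀‖ ≤ 8 * ((d : ℝ) + 1) * r * δ} := by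
        intro j hj
        refine ⟨hLS ?_, hnear j (Finset.mem_coe.mp hj)⟩
        rw [hT] at hj
        exact (Finset.mem_filter.mp (Finset.mem_coe.mp hj)).1
      have h5 := Set.ncard_le_ncard this (S.finite_toSet.subset fun j hj => hj.1)
      rw [Set.ncard_coe_finset] at h5
      exact_mod_cast h5
    · have h5 : 1 ≤ 8 * ((d : ℝ) + 1) * r := by nlinarith
      nlinarith
  rw [mul_div_cancel_right₀ _ hδ.ne', mul_pow] at h2
  calc _ ≤ (T.card : ℝ) := by exact_mod_cast h1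
    _ ≤ _ := h2
    _ = _ := by ring

end Pool.GP
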