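import Pool.Agent.H94.GP.Dns

/-!
# Typical multiplicities for families of tubes with few directions in every ball

The proofs follow `Pool.Agent.H73.KFIN.FinalN`.
-/

set_option autoImplicit false

namespace Pool.GP

open Finset Real MeasureTheory Filter
open scoped RealInnerProductSpace ENNReal Topology
open Pool.STK (mlt)
open Pool.Agent.H53.Kak (E tube Fam)
open Pool.Agent.H32.Dense Pool.Agent.H53.Dns
open Pool.KFIN (cd cd_pos le_vol typical lq_bound union_bound cd_le_two)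

variable {d k : ℕ}

/-- **Typical multiplicities.** -/
theorem tubesM_of_densM (hd : 1 ≤ d) (h : DensM d k) {ε : ℝ} (hε : 0 < ε) (hε1 : ε < 1) :
    ∃ θ P C : ℝ, 0 < θ ∧ 0 ≤ P ∧ 0 < C ∧ ∀ δ : ℝ, 0 < δ → δ < 1 →
      ∀ (N : ℕ) (c e : Fin N → E d),
      (∀ i, ‖e i‖ = 1) → (∀ i j, i ≠ j → δ ≤ ‖e i - e j‖) →
      ∀ M : ℝ, 1 ≤ M → CncT k δ M e (univ : Finset (Fin N)) →
      (∃ G : Set (E d), MeasurableSet G ∧
        ∑ i, volume (tube δ (c i) (e i) \ G) ≤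
          ENNReal.ofReal ((N : ℝ) ^ (-θ)) * ∑ i, volume (tube δ (c i) (e i)) ∧
        (∀ x ∈ G, mlt δ c e x ≤ C * ((N : ℝ) ^ ε * M)) ∧
        (∀ q : ℝ, 1 ≤ q →
          eLpNorm (G.indicator (mlt δ c e)) (ENNReal.ofReal q) volume ≤
            ENNReal.ofReal (C * (δ ^ ((d : ℝ) / q) * ((N : ℝ) ^ (1 / q + ε) *
              M ^ (1 - 1 / q)))))) ∧
      ENNReal.ofReal (C⁻¹ * ((N : ℝ) ^ (1 - ε) * δ ^ d / M)) ≤
        volume (⋃ i, tube δ (c i) (e i)) ∧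
      (∀ lam : ℝ, 0 < lam → lam ≤ 1 → ∀ X : Set (E d), MeasurableSet X →
        (∀ i, ENNReal.ofReal lam * volume (tube δ (c i) (e i)) ≤
          volume (X ∩ tube δ (c i) (e i))) →
        ENNReal.ofReal (C⁻¹ * lam ^ P * ((N : ℝ) ^ (1 - ε) * δ ^ d / M)) ≤ volume X) := by
  classical
  have hd0 : (0 : ℝ) < d := by exact_mod_cast hd
  have hcd := cd_pos hd
  have hcd2 := cd_le_two hd
  obtain ⟨ε₁, hε₁⟩ : ∃ ε₁ : ℝ, ε₁ = ε / 2 := ⟨_, rfl⟩
  have h0 : 0 < ε₁ := by rw [hε₁]; positivity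
  have h1 : 2 * ε₁ = ε := by rw [hε₁]; ring
  obtain ⟨c₀, P, hc₀, hP0, hdens⟩ := h ε₁ h0 (by linarith)
  obtain ⟨θ, hθ⟩ : ∃ θ : ℝ, θ = ε₁ / (P + 1) := ⟨_, rfl⟩
  have hθ0 : 0 < θ := by rw [hθ]; positivity
  obtain ⟨K, hK⟩ : ∃ K : ℝ, K = 2 ^ d * (2 ^ (d + 1) * 2 / cd d) / (c₀ * (cd d / 4) ^ P) :=
    ⟨_, rfl⟩
  have hK0 : 0 < K := by rw [hK]; positivity
  have h2d : (1 : ℝ) ≤ 2 ^ d := one_le_pow₀ (by norm_num)
  obtain ⟨C, hC⟩ : ∃ C : ℝ, C = max ((K + 1) * 2 ^ d) (max (2 * (K + 1) / cd d)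
    (c₀ * (cd d / 2) ^ P)⁻¹) := ⟨_, rfl⟩
  have hC1 : (K + 1) * 2 ^ d ≤ C := by rw [hC]; exact le_max_left _ _
  have hC2 : 2 * (K + 1) / cd d ≤ C := by
    rw [hC]; exact (le_max_left _ _).trans (le_max_right _ _)
  have hC2' : (c₀ * (cd d / 2) ^ P)⁻¹ ≤ C := by
    rw [hC]; exact (le_max_right _ _).trans (le_max_right _ _)
  have hC3 : K + 1 ≤ C := le_trans (le_mul_of_one_le_right (by linarith) h2d) hC1
  have hC0 : 0 < C := by linarith
  refine ⟨θ, P, C, hθ0, hP0, hC0, ?_⟩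
  intro δ hδ hδ1 N c e hu hsep M hM1 hM
  have hM0 : 0 < M := by linarith
  have hmm := Pool.STK.TG2.measurable_mlt δ c e
  have hFam : Fam δ e (univ : Finset (Fin N)) :=
    ⟨fun i _ => hu i, fun i _ j _ hij => hsep i j hij⟩
  rcases Nat.eq_zero_or_pos N with hN | hN
  · subst hN
    have hz : mlt δ c e = 0 := by
      funext x
      unfold mlt
      simp
    refine ⟨⟨Set.univ, MeasurableSet.univ, ?_, ?_, ?_⟩, ?_, ?_⟩
    · simp
    · intro x _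
      rw [hz, Nat.cast_zero, Pi.zero_apply]
      exact mul_nonneg hC0.le (mul_nonneg (Real.rpow_nonneg le_rfl _) hM0.le)
    · intro q _
      rw [hz, Set.indicator_univ, eLpNorm_zero]
      exact bot_le
    · rw [Nat.cast_zero, Real.zero_rpow (by linarith), zero_mul, zero_div, mul_zero,
        ENNReal.ofReal_zero]
      exact bot_le
    · intro lam _ _ X _ _
      rw [Nat.cast_zero, Real.zero_rpow (by linarith), zero_mul, zero_div, mul_zero,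
        ENNReal.ofReal_zero]
      exact bot_le
  have hN1 : (1 : ℝ) ≤ N := by exact_mod_cast hN
  have hN0 : (0 : ℝ) < N := by linarith
  have hNθ : 0 < (N : ℝ) ^ (-θ) := by positivity
  have hNθ1 : (N : ℝ) ^ (-θ) ≤ 1 := Real.rpow_le_one_of_one_le_of_nonpos hN1 (by linarith)
  obtain ⟨η, hη⟩ : ∃ η : ℝ, η = (N : ℝ) ^ (-θ) / 2 := ⟨_, rfl⟩
  have hη0 : 0 < η := by rw [hη]; positivity
  have hη2 : η ≤ 1 / 2 := by rw [hη]; linarith
  have hNε1 : 1 ≤ (N : ℝ) ^ (2 * ε₁) := Real.one_le_rpow hN1 (by linarith)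
  obtain ⟨Λ₀, hΛ₀⟩ : ∃ Λ₀ : ℝ, Λ₀ = (K + 1) * (N : ℝ) ^ (2 * ε₁) := ⟨_, rfl⟩
  have hΛ₀0 : 0 < Λ₀ := by rw [hΛ₀]; positivity
  have hΛ₀1 : 1 ≤ Λ₀ := by
    rw [hΛ₀]
    nlinarith
  obtain ⟨Λ, hΛ⟩ : ∃ Λ : ℝ, Λ = Λ₀ * M := ⟨_, rfl⟩
  have hΛ0 : 0 < Λ := by rw [hΛ]; positivity
  have hΛ1 : 1 ≤ Λ := by
    rw [hΛ]
    exact one_le_mul_of_one_le_of_one_le hΛ₀1 hM1
  have hlam0 : 0 < cd d * η / 2 := by positivity
  have hlam1 : cd d * η / 2 ≤ 1 := by nlinarith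
  have htyp := typical hd hδ c e hu (η := η) (b := 1 - ε₁) (Λ := Λ)
    (B := c₀ * (cd d * η / 2) ^ P / M) hη0 (by linarith) hΛ0 (by
      intro S X hXm hS
      have h3 := hdens δ hδ hδ1 (Fin N) S c e (hFam.mono (Finset.subset_univ _)) M
        (hM.mono (Finset.subset_univ _)) X hXm
        (cd d * η / 2) hlam0 hlam1 hS
      refine le_trans (ENNReal.ofReal_le_ofReal (le_of_eq ?_)) h3
      ring) (by
      have k0 : (1 : ℝ) ≤ 2 ^ (d + 1) / (cd d * η) := by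
        rw [one_le_div (by positivity), pow_succ]
        nlinarith
      have k1 : (2 ^ (d + 1) / (cd d * η)) ^ (1 - ε₁) ≤ 2 ^ (d + 1) / (cd d * η) := by
        calc _ ≤ (2 ^ (d + 1) / (cd d * η)) ^ (1 : ℝ) :=
              Real.rpow_le_rpow_of_exponent_le k0 (by linarith)
          _ = _ := Real.rpow_one _
      have k2 : (cd d * η / 2) ^ P = (cd d / 4) ^ P * (N : ℝ) ^ (-(θ * P)) := by
        have : -(θ * P) = (-θ) * P := by ring
        rw [this, Real.rpow_mul hN0.le, ← Real.mul_rpow (by positivity) (by positivity), hη]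
        congr 1
        ring
      have k3 : 2 ^ (d + 1) / (cd d * η) = (2 ^ (d + 1) * 2 / cd d) * (N : ℝ) ^ θ := by
        rw [hη, Real.rpow_neg hN0.le]
        field_simp
      have k4 : (N : ℝ) ^ (1 - (1 - ε₁)) * (N : ℝ) ^ θ =
          (N : ℝ) ^ (2 * ε₁) * (N : ℝ) ^ (-(θ * P)) := by
        rw [← Real.rpow_add hN0, ← Real.rpow_add hN0]
        congr 1
        rw [hθ]
        field_simp
        ring
      have k5 : K * (c₀ * (cd d / 4) ^ P) = 2 ^ d * (2 ^ (d + 1) * 2 / cd d) := by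
        rw [hK]
        field_simp
      have k6 : 0 < (N : ℝ) ^ (2 * ε₁) * (N : ℝ) ^ (-(θ * P)) := by positivity
      have k7 : 0 < c₀ * (cd d / 4) ^ P := by positivity
      calc 2 ^ d * (N : ℝ) ^ (1 - (1 - ε₁)) * (2 ^ (d + 1) / (cd d * η)) ^ (1 - ε₁)
          ≤ 2 ^ d * (N : ℝ) ^ (1 - (1 - ε₁)) * (2 ^ (d + 1) / (cd d * η)) := by gcongr
        _ = 2 ^ d * (2 ^ (d + 1) * 2 / cd d) * ((N : ℝ) ^ (1 - (1 - ε₁)) * (N : ℝ) ^ θ) := by
            rw [k3]; ring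
        _ = (K * (c₀ * (cd d / 4) ^ P)) * ((N : ℝ) ^ (2 * ε₁) * (N : ℝ) ^ (-(θ * P))) := by
            rw [k4, k5]
        _ < ((K + 1) * (c₀ * (cd d / 4) ^ P)) *
              ((N : ℝ) ^ (2 * ε₁) * (N : ℝ) ^ (-(θ * P))) := by
            refine mul_lt_mul_of_pos_right ?_ k6
            nlinarith
        _ = _ := by rw [hΛ, hΛ₀, k2]; field_simp)
  refine ⟨⟨{x | mlt δ c e x ≤ Λ}, measurableSet_le hmm measurable_const, ?_, ?_, ?_⟩, ?_, ?_⟩
  · refine htyp.trans ?_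
    have : η ≤ (N : ℝ) ^ (-θ) := by rw [hη]; linarith
    gcongr
  · intro x hx
    have h3 : mlt δ c e x ≤ Λ := hx
    refine h3.trans ?_
    rw [hΛ, hΛ₀, h1, mul_assoc]
    gcongr
  · intro q hq1
    have hq0 : 0 < q := by linarith
    refine (lq_bound hδ c e hu hΛ1 hq1).trans (ENNReal.ofReal_le_ofReal ?_)
    have hq2 : 0 < 1 / q := by positivity
    have k1 : Λ ^ (1 - 1 / q) ≤ Λ₀ * M ^ (1 - 1 / q) := by
      rw [hΛ, Real.mul_rpow hΛ₀0.le hM0.le]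
      refine mul_le_mul_of_nonneg_right ?_ (by positivity)
      calc Λ₀ ^ (1 - 1 / q) ≤ Λ₀ ^ (1 : ℝ) := by
            refine Real.rpow_le_rpow_of_exponent_le hΛ₀1 ?_
            linarith
        _ = Λ₀ := Real.rpow_one Λ₀
    have k3 : (N : ℝ) ^ (2 * ε₁) * (N : ℝ) ^ (1 / q) = (N : ℝ) ^ (1 / q + ε) := by
      rw [← Real.rpow_add hN0, h1, add_comm]
    calc Λ ^ (1 - 1 / q) * (2 ^ d * (δ ^ ((d : ℝ) / q) * (N : ℝ) ^ (1 / q)))
        ≤ (Λ₀ * M ^ (1 - 1 / q)) * (2 ^ d * (δ ^ ((d : ℝ) / q) * (N : ℝ) ^ (1 / q))) := by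
          gcongr
      _ = (K + 1) * 2 ^ d * (δ ^ ((d : ℝ) / q) *
            (((N : ℝ) ^ (2 * ε₁) * (N : ℝ) ^ (1 / q)) * M ^ (1 - 1 / q))) := by
          rw [hΛ₀]; ring
      _ ≤ C * (δ ^ ((d : ℝ) / q) * ((N : ℝ) ^ (1 / q + ε) * M ^ (1 - 1 / q))) := by
          rw [k3]
          gcongr
  · refine le_trans (ENNReal.ofReal_le_ofReal ?_) (union_bound hd hδ c e hu hΛ0 hη2 htyp)
    have k1 : cd d / (2 * Λ) * (N * δ ^ d) = (2 * (K + 1) / cd d)⁻¹ *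
        ((N : ℝ) ^ (1 - ε) * δ ^ d / M) := by
      rw [hΛ, hΛ₀, h1, Real.rpow_sub hN0, Real.rpow_one]
      field_simp
    rw [k1]
    have k2 : C⁻¹ ≤ (2 * (K + 1) / cd d)⁻¹ := inv_anti₀ (by positivity) hC2
    gcongr
  · intro lam hlam hlam1' X hX hXvol
    have k1 : 0 < lam * (cd d / 2) := by positivity
    have k2 : lam * (cd d / 2) ≤ 1 := by nlinarith
    have h3 := hdens δ hδ hδ1 (Fin N) univ c e hFam M hM X hX (lam * (cd d / 2)) k1 k2 (by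
      intro i _
      refine le_trans ?_ (hXvol i)
      have h4 := le_vol hd hδ (c i) (e i) (hu i)
      calc ENNReal.ofReal (lam * (cd d / 2) * δ ^ d) ≤
            ENNReal.ofReal (lam * (cd d * δ ^ d)) := by
            refine ENNReal.ofReal_le_ofReal ?_
            have : 0 < lam * (cd d * δ ^ d) := by positivity
            nlinarith
        _ = ENNReal.ofReal lam * ENNReal.ofReal (cd d * δ ^ d) := ENNReal.ofReal_mul hlam.le
        _ ≤ _ := by gcongr)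
    rw [Finset.card_univ, Fintype.card_fin] at h3
    refine le_trans (ENNReal.ofReal_le_ofReal ?_) h3
    rw [Real.mul_rpow hlam.le (by positivity)]
    have k3 : C⁻¹ ≤ c₀ * (cd d / 2) ^ P := by
      have := inv_anti₀ (by positivity) hC2'
      rwa [inv_inv] at this
    have k4 : (N : ℝ) ^ (1 - ε) ≤ (N : ℝ) ^ (1 - ε₁) :=
      Real.rpow_le_rpow_of_exponent_le hN1 (by linarith)
    calc C⁻¹ * lam ^ P * ((N : ℝ) ^ (1 - ε) * δ ^ d / M) ≤
          (c₀ * (cd d / 2) ^ P) * lam ^ P * ((N : ℝ) ^ (1 - ε₁) * δ ^ d / M) := by gcongr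
      _ = _ := by ring

end Pool.GP
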